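import Pool.Agent.QC.Grid.Hol

/-!
# Section 7: extension in a column

`CE P J R x₁ x₂ y`: the solution `J` extends to the part above `y` of the column between the
vertical lines `x₁` and `x₂`.  `col_step`: if it extends above the box of a label then the
following are equivalent: it extends to the part above the lower side of the box; `LUp` (the loop
round the box is trivial); the top-down condition `PUp` at the singular point in the box.
-/

set_option autoImplicit false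

open Set Filter Topology Metric

namespace Pool.Agent.QC.Grid

variable {F : Type} [AddCommGroup F] [Module ℂ F]

/-- extension to the part of a column above `y` -/
def CE (P : PlaneSys F) (J : ℂ → F) (R x₁ x₂ y : ℝ) : Prop :=
  ∃ ε > 0, Rc (x₁ - ε) (x₂ + ε) (y - ε) P.R1 ⊆ sq P.R1 ∧
    ∃ g, P.Sol (Rc (x₁ - ε) (x₂ + ε) (y - ε) P.R1) g ∧
      EqOn g J (Rc (x₁ - ε) (x₂ + ε) (R - ε) P.R1)

variable {P : PlaneSys F} {J : ℂ → F} {R x₁ x₂ y₁ y₂ : ℝ} {s : ℂ}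

private theorem pos_ev (c : ℝ) (hc : 0 < c) : ∀ᶠ ε in 𝓝[>] (0 : ℝ), ε < c :=
  nhdsWithin_le_nhds (eventually_lt_nhds hc)

/-- smaller margins -/
theorem CE.small {y : ℝ} (h : CE P J R x₁ x₂ y) : ∀ᶠ ε in 𝓝[>] (0 : ℝ), 0 < ε ∧
    Rc (x₁ - ε) (x₂ + ε) (y - ε) P.R1 ⊆ sq P.R1 ∧
    ∃ g, P.Sol (Rc (x₁ - ε) (x₂ + ε) (y - ε) P.R1) g ∧
      EqOn g J (Rc (x₁ - ε) (x₂ + ε) (R - ε) P.R1) := by
  obtain ⟨ε₀, h0, hR, g, hg, eg⟩ := h
  filter_upwards [pos_ev ε₀ h0, self_mem_nhdsWithin] with ε h1 h2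
  exact ⟨h2, (Rc_mono (by linarith) (by linarith) (by linarith) le_rfl).trans hR, g,
    P.mono (isOpen_Rc _ _ _ _) (Rc_mono (by linarith) (by linarith) (by linarith) le_rfl) hg,
    eg.mono (Rc_mono (by linarith) (by linarith) (by linarith) le_rfl)⟩

theorem LUp.small (h : LUp P J R x₁ x₂ y₁ y₂) : ∀ᶠ ε in 𝓝[>] (0 : ℝ), 0 < ε ∧
    NN P.R1 x₁ x₂ y₁ y₂ ε ⊆ sq P.R1 ∧ ∃ g, P.Sol (NN P.R1 x₁ x₂ y₁ y₂ ε) g ∧
    EqOn g J (Rc (x₁ - ε) (x₁ + ε) (R - ε) P.R1) := by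
  obtain ⟨ε₀, h0, hR, g, hg, eg⟩ := h
  filter_upwards [pos_ev ε₀ h0, self_mem_nhdsWithin] with ε h1 h2
  have hN : NN P.R1 x₁ x₂ y₁ y₂ ε ⊆ NN P.R1 x₁ x₂ y₁ y₂ ε₀ := union_subset_union
    (Rc_mono (by linarith) (by linarith) (by linarith) le_rfl)
    (Rc_mono (by linarith) (by linarith) (by linarith) (by linarith))
  exact ⟨h2, hN.trans hR, g,
    P.mono ((isOpen_Rc _ _ _ _).union (isOpen_Rc _ _ _ _)) hN hg,
    eg.mono (Rc_mono (by linarith) (by linarith) (by linarith) le_rfl)⟩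

/-- monotone in the height -/
theorem CE.up {y y' : ℝ} (h : CE P J R x₁ x₂ y) (hy : y ≤ y') : CE P J R x₁ x₂ y' := by
  obtain ⟨ε, h0, hR, g, hg, eg⟩ := h
  exact ⟨ε, h0, (Rc_mono le_rfl le_rfl (by linarith) le_rfl).trans hR, g,
    P.mono (isOpen_Rc _ _ _ _) (Rc_mono le_rfl le_rfl (by linarith) le_rfl) hg, eg⟩

/-- closed rectangles without singular points have a margin -/
theorem free_margin {c d : ℝ}
    (h : ∀ z ∈ P.S, ¬ (x₁ ≤ z.re ∧ z.re ≤ x₂ ∧ c ≤ z.im ∧ z.im ≤ d)) :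
    ∀ᶠ ε in 𝓝[>] (0 : ℝ), ∀ z ∈ P.S, z ∉ Rc (x₁ - ε) (x₂ + ε) (c - ε) (d + ε) := by
  rw [eventually_all_finite P.S_fin]
  intro z hz
  have h1 : z.re < x₁ ∨ x₂ < z.re ∨ z.im < c ∨ d < z.im := by
    by_contra hcon
    push Not at hcon
    exact h z hz ⟨hcon.1, hcon.2.1, hcon.2.2.1, hcon.2.2.2⟩
  rcases h1 with h1 | h1 | h1 | h1
  · filter_upwards [pos_ev (x₁ - z.re) (by linarith)] with ε hε hc
    linarith [hc.1]
  · filter_upwards [pos_ev (z.re - x₂) (by linarith)] with ε hε hc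
    linarith [hc.2.1]
  · filter_upwards [pos_ev (c - z.im) (by linarith)] with ε hε hc
    linarith [hc.2.2.1]
  · filter_upwards [pos_ev (z.im - d) (by linarith)] with ε hε hc
    linarith [hc.2.2.2]

/-- start: no singular point in the column above `y` -/
theorem CE.top (hJ : P.Sol P.ann J) (h0 : P.R0 < R) (h1 : R < P.R1) {y : ℝ} (hx1 : -R ≤ x₁)
    (hx : x₁ ≤ x₂) (hx2 : x₂ ≤ R) (hy1 : -R ≤ y) (hy2 : y ≤ R)
    (h : ∀ z ∈ P.S, ¬ (x₁ ≤ z.re ∧ z.re ≤ x₂ ∧ y ≤ z.im ∧ z.im ≤ P.R1)) :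
    CE P J R x₁ x₂ y := by
  obtain ⟨ε, m1, m2, m3, m4⟩ := ((pos_ev (P.R1 - R) (by linarith)).and
    ((pos_ev (R - P.R0) (by linarith)).and ((free_margin h).and
      (self_mem_nhdsWithin : ∀ᶠ ε in 𝓝[>] (0 : ℝ), 0 < ε)))).exists
  have hR0 := P.hR0
  have hsq : Rc (x₁ - ε) (x₂ + ε) (y - ε) P.R1 ⊆ sq P.R1 :=
    Rc_sq (by linarith) (by linarith) (by linarith) le_rfl
  obtain ⟨g, hg, eg⟩ := extRc (P := P) (a := x₁ - ε) (b := x₂ + ε) (c := y - ε) (d := P.R1) hsq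
    (fun z hz hzS => m3 z hzS (Rc_mono le_rfl le_rfl le_rfl (by linarith) hz)) le_rfl le_rfl
    (by linarith : y - ε ≤ R - ε) le_rfl (by linarith) (by linarith)
    (P.mono (V := P.ann) (isOpen_Rc (x₁ - ε) (x₂ + ε) (R - ε) P.R1) (fun z hz =>
      ⟨hsq (Rc_mono le_rfl le_rfl (by linarith) le_rfl hz), fun hc => by
        have := (abs_le.1 hc.2).2
        linarith [hz.2.2.1]⟩) hJ)
  exact ⟨ε, m4, hsq, g, hg, eg⟩

/-- downwards through a free rectangle -/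
theorem CE.down {y y' : ℝ} (hE : CE P J R x₁ x₂ y) (hx1 : -R ≤ x₁) (hx : x₁ ≤ x₂) (hx2 : x₂ ≤ R)
    (hy1 : -R ≤ y') (hy2 : y ≤ R) (h1 : R < P.R1)
    (h : ∀ z ∈ P.S, ¬ (x₁ ≤ z.re ∧ z.re ≤ x₂ ∧ y' ≤ z.im ∧ z.im ≤ y)) (hyy : y' ≤ y) :
    CE P J R x₁ x₂ y' := by
  obtain ⟨ε, ⟨m4, m5, g, hg, eg⟩, m1, m3⟩ := (hE.small.and ((pos_ev (P.R1 - R) (by linarith)).and
    (free_margin h))).exists
  have hsq : Rc (x₁ - ε) (x₂ + ε) (y' - ε) (y + ε) ⊆ sq P.R1 :=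
    Rc_sq (by linarith) (by linarith) (by linarith) (by linarith)
  obtain ⟨g', hg', eg'⟩ := extRc (P := P) (a := x₁ - ε) (b := x₂ + ε) (c := y' - ε) (d := y + ε) hsq
    (fun z hz hzS => m3 z hzS hz) le_rfl le_rfl (by linarith : y' - ε ≤ y - ε) le_rfl
    (by linarith) (by linarith)
    (P.mono (isOpen_Rc (x₁ - ε) (x₂ + ε) (y - ε) (y + ε))
      (Rc_mono le_rfl le_rfl le_rfl (by linarith)) hg)
  obtain ⟨G, hG, e1, e2⟩ := union2 (P := P) (isOpen_Rc (x₁ - ε) (x₂ + ε) (y - ε) P.R1)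
    (isOpen_Rc (x₁ - ε) (x₂ + ε) (y' - ε) (y + ε)) hg hg' (fun z hz =>
      (eg' ⟨hz.1.1, hz.1.2.1, hz.1.2.2.1, hz.2.2.2.2⟩).symm)
  have hsub : Rc (x₁ - ε) (x₂ + ε) (y' - ε) P.R1 ⊆
      Rc (x₁ - ε) (x₂ + ε) (y - ε) P.R1 ∪ Rc (x₁ - ε) (x₂ + ε) (y' - ε) (y + ε) := fun z hz => by
    by_cases c : y - ε < z.im
    · exact Or.inl ⟨hz.1, hz.2.1, c, hz.2.2.2⟩
    · exact Or.inr ⟨hz.1, hz.2.1, hz.2.2.1, by linarith⟩
  refine ⟨ε, m4, Rc_sq (by linarith) (by linarith) (by linarith) le_rfl, G,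
    P.mono (isOpen_Rc _ _ _ _) hsub hG, fun z hz => ?_⟩
  rw [e1 (Rc_mono le_rfl le_rfl (by linarith) le_rfl hz), eg hz]

/-- restriction: the loop condition -/
theorem CE.lup (h : CE P J R x₁ x₂ y₂) (hb : Bx P R x₁ x₂ y₁ y₂ s) : LUp P J R x₁ x₂ y₁ y₂ := by
  have d1 := hb.s1
  have d2 := hb.s2
  have b1 := hb.R1
  have c3 := hb.by1
  obtain ⟨ε, ⟨m4, m5, g, hg, eg⟩, m1⟩ := (h.small.and (pos_ev (P.R1 - R) (by linarith))).exists
  have hN : NN P.R1 x₁ x₂ y₁ y₂ ε ⊆ Rc (x₁ - ε) (x₂ + ε) (y₂ - ε) P.R1 := union_subset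
    (Rc_mono le_rfl (by linarith) le_rfl le_rfl) (Rc_mono le_rfl le_rfl le_rfl (by linarith))
  exact ⟨ε, m4, hN.trans m5, g, P.mono ((isOpen_Rc _ _ _ _).union (isOpen_Rc _ _ _ _)) hN hg,
    eg.mono (Rc_mono le_rfl (by linarith) le_rfl le_rfl)⟩

/-- gluing of the box to the part above -/
private theorem glue_box (hb : Bx P R x₁ x₂ y₁ y₂ s) {ε : ℝ} (hε : 0 < ε) (hε1 : ε < P.R1 - R)
    {g gQ : ℂ → F} (hg : P.Sol (Rc (x₁ - ε) (x₂ + ε) (y₁ - ε) P.R1) g)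
    (eg : EqOn g J (Rc (x₁ - ε) (x₂ + ε) (R - ε) P.R1))
    (hQ : P.Sol (Rc (x₁ - ε) (x₂ + ε) (y₂ - ε) (y₁ + ε)) gQ)
    (eQ : EqOn g gQ (Rc (x₁ - ε) (x₂ + ε) (y₁ - ε) (y₁ + ε))) : CE P J R x₁ x₂ y₂ := by
  have b1 := hb.R1
  have c1 := hb.bx1
  have c2 := hb.bx2
  have c3 := hb.by1
  have c4 := hb.by2
  have d3 := hb.s3
  have d4 := hb.s4
  obtain ⟨G, hG, e1, e2⟩ := union2 (P := P) (isOpen_Rc (x₁ - ε) (x₂ + ε) (y₁ - ε) P.R1)
    (isOpen_Rc (x₁ - ε) (x₂ + ε) (y₂ - ε) (y₁ + ε)) hg hQ (fun z hz =>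
      eQ ⟨hz.1.1, hz.1.2.1, hz.1.2.2.1, hz.2.2.2.2⟩)
  have hsub : Rc (x₁ - ε) (x₂ + ε) (y₂ - ε) P.R1 ⊆
      Rc (x₁ - ε) (x₂ + ε) (y₁ - ε) P.R1 ∪ Rc (x₁ - ε) (x₂ + ε) (y₂ - ε) (y₁ + ε) := fun z hz => by
    by_cases c : y₁ - ε < z.im
    · exact Or.inl ⟨hz.1, hz.2.1, c, hz.2.2.2⟩
    · exact Or.inr ⟨hz.1, hz.2.1, hz.2.2.1, by linarith⟩
  refine ⟨ε, hε, Rc_sq (by linarith) (by linarith) (by linarith) le_rfl, G,
    P.mono (isOpen_Rc _ _ _ _) hsub hG, fun z hz => ?_⟩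
  rw [e1 (Rc_mono le_rfl le_rfl (by linarith) le_rfl hz), eg hz]

/-- step with the loop condition -/
theorem CE.step_lup (h : CE P J R x₁ x₂ y₁) (hb : Bx P R x₁ x₂ y₁ y₂ s)
    (hL : LUp P J R x₁ x₂ y₁ y₂) : CE P J R x₁ x₂ y₂ := by
  have b1 := hb.R1
  have c3 := hb.by1
  have d1 := hb.s1
  have d2 := hb.s2
  have d3 := hb.s3
  have d4 := hb.s4
  obtain ⟨ε, ⟨m1, m2, g, hg, eg⟩, ⟨-, m3, gN, hgN, egN⟩, m4, m5⟩ := (h.small.and (hL.small.and
    ((pos_ev (P.R1 - R) (by linarith)).and (pos_ev (x₂ - x₁) (by linarith))))).exists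
  have k1 : EqOn gN g (Rc (x₁ - ε) (x₁ + ε) (y₁ - ε) P.R1) := by
    refine uniqRc (P := P) (P.mono (isOpen_Rc _ _ _ _) (fun z hz => Or.inl
        (Rc_mono le_rfl le_rfl (by linarith) le_rfl hz)) hgN)
      (P.mono (isOpen_Rc _ _ _ _) (Rc_mono le_rfl (by linarith) le_rfl le_rfl) hg)
      le_rfl le_rfl (by linarith : y₁ - ε ≤ R - ε) le_rfl (by linarith) (by linarith)
      fun z hz => ?_
    rw [egN hz, eg (Rc_mono le_rfl (by linarith) le_rfl le_rfl hz)]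
  have k2 : EqOn gN g (Rc (x₁ - ε) (x₂ + ε) (y₁ - ε) (y₁ + ε)) := by
    refine uniqRc (P := P) (P.mono (isOpen_Rc _ _ _ _) (fun z hz => Or.inr
        (Rc_mono le_rfl le_rfl (by linarith) le_rfl hz)) hgN)
      (P.mono (isOpen_Rc _ _ _ _) (Rc_mono le_rfl le_rfl le_rfl (by linarith)) hg)
      le_rfl (by linarith : x₁ + ε ≤ x₂ + ε) le_rfl le_rfl (by linarith) (by linarith)
      fun z hz => ?_
    exact k1 (Rc_mono le_rfl le_rfl le_rfl (by linarith) hz)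
  exact glue_box hb m1 m4 hg eg (P.mono (isOpen_Rc _ _ _ _) (fun z hz => Or.inr hz) hgN)
    (fun z hz => (k2 hz).symm)

/-- step through a box without singular point -/
theorem CE.step_free (h : CE P J R x₁ x₂ y₁) (hb : Bx P R x₁ x₂ y₁ y₂ s) (hs : s ∉ P.S) :
    CE P J R x₁ x₂ y₂ := by
  have d1 := hb.s1
  have d2 := hb.s2
  have d3 := hb.s3
  have d4 := hb.s4
  exact h.down hb.bx1 (by linarith) hb.bx2 hb.by2 hb.by1 hb.R1 (fun z hz hc => hs (by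
    rw [← hb.only z hz hc.1 hc.2.1 hc.2.2.1 hc.2.2.2]; exact hz)) (by linarith)

/-- a small square round `s` is contained in a ball -/
private theorem small_sq {η : ℝ} {s z : ℂ}
    (hz : z ∈ Rc (s.re - η / 2) (s.re + η / 2) (s.im - η / 2) (s.im + η / 2)) : z ∈ ball s η := by
  rw [mem_ball, Complex.dist_eq]
  refine lt_of_le_of_lt (Complex.norm_le_abs_re_add_abs_im _) ?_
  have h1 : |(z - s).re| < η / 2 := by
    rw [Complex.sub_re, abs_lt]; constructor <;> linarith [hz.1, hz.2.1]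
  have h2 : |(z - s).im| < η / 2 := by
    rw [Complex.sub_im, abs_lt]; constructor <;> linarith [hz.2.2.1, hz.2.2.2]
  linarith

/-- step with the top-down condition -/
theorem CE.step_pup (h : CE P J R x₁ x₂ y₁) (hb : Bx P R x₁ x₂ y₁ y₂ s) {l : Bool}
    (hs : s ∈ P.S) (hP : P.PUp l J s) : CE P J R x₁ x₂ y₂ := by
  have b0 := hb.R0
  have b1 := hb.R1
  have c1 := hb.bx1
  have c2 := hb.bx2
  have c3 := hb.by1
  have c4 := hb.by2
  have d1 := hb.s1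
  have d2 := hb.s2
  have d3 := hb.s3
  have d4 := hb.s4
  have hR0 := P.hR0
  obtain ⟨hs1, hs2⟩ := P.S_sub s hs
  rw [abs_lt] at hs1 hs2
  obtain ⟨ε₀, hε₀, hPs⟩ := PlaneSys.PUp.small P hP
  obtain ⟨ε, ⟨m1, m2, g, hg, eg⟩, ⟨-, n1, n2, n3, n4, n5, n6, n7, n8⟩, n9, n10⟩ :=
    (h.small.and (hb.margin.and ((pos_ev ε₀ hε₀).and (pos_ev (y₁ - s.im) (by linarith))))).exists
  obtain ⟨gp, hgp, egp⟩ := hPs ε m1 n9.le
  have bsq : Rc (x₁ - ε) (x₂ + ε) (y₂ - ε) (y₁ + ε) ⊆ sq P.R1 :=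
    Rc_sq (by linarith) (by linarith) (by linarith) (by linarith)
  have hS' : ∀ z ∈ Rc (x₁ - ε) (x₂ + ε) (y₂ - ε) (y₁ + ε), z ∈ P.S → z = ⟨s.re, s.im⟩ :=
    fun z hz hzS => n8 z hzS hz
  -- extension down to the height of `s`
  obtain ⟨gT, hgT, egT⟩ := extRc (P := P) (a := x₁ - ε) (b := x₂ + ε) (c := s.im) (d := y₁ + ε)
    ((Rc_mono le_rfl le_rfl (by linarith) le_rfl).trans bsq) (fun z hz hzS => by
      have := hS' z (Rc_mono le_rfl le_rfl (by linarith) le_rfl hz) hzS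
      rw [this] at hz
      exact lt_irrefl _ hz.2.2.1) le_rfl le_rfl (by linarith : s.im ≤ y₁ - ε) le_rfl
    (by linarith) (by linarith)
    (P.mono (isOpen_Rc (x₁ - ε) (x₂ + ε) (y₁ - ε) (y₁ + ε))
      (Rc_mono le_rfl le_rfl le_rfl (by linarith)) hg)
  obtain ⟨gg, hgg, e1, e2⟩ := union2 (P := P) (isOpen_Rc (x₁ - ε) (x₂ + ε) (y₁ - ε) P.R1)
    (isOpen_Rc (x₁ - ε) (x₂ + ε) s.im (y₁ + ε)) hg hgT (fun z hz =>
      (egT ⟨hz.1.1, hz.1.2.1, hz.1.2.2.1, hz.2.2.2.2⟩).symm)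
  have hgg' : P.Sol (Rc (x₁ - ε) (x₂ + ε) s.im P.R1) gg := P.mono (isOpen_Rc _ _ _ _)
    (fun z hz => by
      by_cases c : y₁ - ε < z.im
      · exact Or.inl ⟨hz.1, hz.2.1, c, hz.2.2.2⟩
      · exact Or.inr ⟨hz.1, hz.2.1, hz.2.2.1, by linarith⟩) hgg
  have egg : EqOn gg J (Rc (x₁ - ε) (x₂ + ε) (R - ε) P.R1) := fun z hz => by
    rw [e1 (Rc_mono le_rfl le_rfl (by linarith) le_rfl hz), eg hz]
  -- the small square
  set η := ε / 2 with hη
  have hηp : 0 < η := by positivity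
  have oR : IsOpen (P.regUp l s ε) := P.isOpen_regUp l s ε
  have sqb : Rc (s.re - η) (s.re + η) (s.im - η) (s.im + η) ⊆ P.regUp l s ε := fun z hz =>
    ⟨bsq ⟨by linarith [hz.1], by linarith [hz.2.1], by linarith [hz.2.2.1],
      by linarith [hz.2.2.2]⟩, Or.inr (small_sq hz)⟩
  -- agreement on the strip: the strip as a rectangle
  obtain ⟨a, b, ha, hab, hb1, hstr, hor⟩ : ∃ a b : ℝ, s.re - ε ≤ a ∧ a < b ∧ b ≤ s.re + ε ∧
      Rc a b s.im P.R1 ⊆ P.regUp l s ε ∧ (a ≤ s.re ∧ s.re ≤ b) := by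
    rcases l with _ | _
    · refine ⟨s.re, s.re + ε, by linarith, by linarith, le_rfl, fun z hz => ⟨?_, Or.inl ?_⟩,
        le_rfl, by linarith⟩
      · exact Rc_sq (by linarith) (by linarith) (by linarith) le_rfl hz
      · exact ⟨hz.1, hz.2.1, hz.2.2.1⟩
    · refine ⟨s.re - ε, s.re, by linarith, by linarith, by linarith, fun z hz => ⟨?_, Or.inl ?_⟩,
        by linarith, le_rfl⟩
      · exact Rc_sq (by linarith) (by linarith) (by linarith) le_rfl hz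
      · exact ⟨hz.1, hz.2.1, hz.2.2.1⟩
  have f1 : EqOn gp gg (Rc a b s.im P.R1) := by
    refine uniqRc (P := P) (P.mono (isOpen_Rc _ _ _ _) hstr hgp)
      (P.mono (isOpen_Rc _ _ _ _) (Rc_mono (by linarith) (by linarith) le_rfl le_rfl) hgg')
      le_rfl le_rfl (by linarith : s.im ≤ R - ε) le_rfl hab (by linarith) fun z hz => ?_
    rw [egp ⟨hstr (Rc_mono le_rfl le_rfl (by linarith) le_rfl hz), by
      change P.R0 < z.im
      linarith [hz.2.2.1]⟩, egg (Rc_mono (by linarith) (by linarith) le_rfl le_rfl hz)]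
  have hmm : ∃ a' b', a' < b' ∧ s.re - η ≤ a' ∧ b' ≤ s.re + η ∧ a ≤ a' ∧ b' ≤ b := by
    rcases lt_or_ge s.re b with hc | hc
    · exact ⟨s.re, min (s.re + η) b, lt_min (by linarith) hc, by linarith, min_le_left _ _, hor.1,
        min_le_right _ _⟩
    · have hc' : a < s.re := by linarith [hor.2]
      exact ⟨max (s.re - η) a, s.re, max_lt (by linarith) hc', le_max_left _ _, by linarith,
        le_max_right _ _, hor.2⟩
  obtain ⟨a', b', q1, q2, q3, q4, q5⟩ := hmm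
  have f2 : EqOn gp gT (Rc (s.re - η) (s.re + η) s.im (s.im + η)) := by
    refine uniqRc (P := P) (P.mono (isOpen_Rc _ _ _ _)
        ((Rc_mono le_rfl le_rfl (by linarith) le_rfl).trans sqb) hgp)
      (P.mono (isOpen_Rc _ _ _ _) (Rc_mono (by linarith) (by linarith) le_rfl (by linarith)) hgT)
      q2 q3 le_rfl le_rfl q1 (by linarith) fun z hz => ?_
    rw [f1 (Rc_mono q4 q5 le_rfl (by linarith) hz),
      e2 (Rc_mono (by linarith) (by linarith) le_rfl (by linarith) hz)]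
  obtain ⟨gL, gB, gR, hL, hB, hRt, eL, eB, eR⟩ := four (P := P) (a := x₁ - ε) (b := x₂ + ε)
    (c := y₂ - ε) (d := y₁ + ε) (r := s.re) (t := s.im) (by linarith) (by linarith)
    (by linarith) (by linarith) bsq hS' hgT
  have f3 : EqOn gp gL (Rc (s.re - η) s.re (s.im - η) (s.im + η)) := by
    refine uniqRc (P := P) (P.mono (isOpen_Rc _ _ _ _)
        ((Rc_mono le_rfl (by linarith) le_rfl le_rfl).trans sqb) hgp)
      (P.mono (isOpen_Rc _ _ _ _) (Rc_mono (by linarith) le_rfl (by linarith) (by linarith)) hL)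
      le_rfl le_rfl (by linarith : s.im - η ≤ s.im) le_rfl (by linarith) (by linarith)
      fun z hz => ?_
    rw [f2 (Rc_mono le_rfl (by linarith) le_rfl le_rfl hz),
      eL (Rc_mono (by linarith) le_rfl le_rfl (by linarith) hz)]
  have f4 : EqOn gp gB (Rc (s.re - η) (s.re + η) (s.im - η) s.im) := by
    refine uniqRc (P := P) (P.mono (isOpen_Rc _ _ _ _)
        ((Rc_mono le_rfl le_rfl le_rfl (by linarith)).trans sqb) hgp)
      (P.mono (isOpen_Rc _ _ _ _) (Rc_mono (by linarith) (by linarith) (by linarith) le_rfl) hB)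
      le_rfl (by linarith : s.re ≤ s.re + η) le_rfl le_rfl (by linarith) (by linarith)
      fun z hz => ?_
    rw [f3 (Rc_mono le_rfl le_rfl le_rfl (by linarith) hz),
      eB (Rc_mono (by linarith) le_rfl (by linarith) le_rfl hz)]
  have f5 : EqOn gp gR (Rc s.re (s.re + η) (s.im - η) (s.im + η)) := by
    refine uniqRc (P := P) (P.mono (isOpen_Rc _ _ _ _)
        ((Rc_mono (by linarith) le_rfl le_rfl le_rfl).trans sqb) hgp)
      (P.mono (isOpen_Rc _ _ _ _) (Rc_mono le_rfl (by linarith) (by linarith) (by linarith)) hRt)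
      le_rfl le_rfl le_rfl (by linarith : s.im ≤ s.im + η) (by linarith) (by linarith)
      fun z hz => ?_
    rw [f4 (Rc_mono (by linarith) le_rfl le_rfl le_rfl hz),
      eR (Rc_mono le_rfl (by linarith) (by linarith) le_rfl hz)]
  have eT : EqOn gR gT (Rc s.re (x₂ + ε) s.im (y₁ + ε)) := by
    refine uniqRc (P := P) (P.mono (isOpen_Rc _ _ _ _)
        (Rc_mono le_rfl le_rfl (by linarith) le_rfl) hRt)
      (P.mono (isOpen_Rc _ _ _ _) (Rc_mono (by linarith) le_rfl le_rfl le_rfl) hgT)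
      le_rfl (by linarith : s.re + η ≤ x₂ + ε) le_rfl (by linarith : s.im + η ≤ y₁ + ε)
      (by linarith) (by linarith) fun z hz => ?_
    rw [← f5 (Rc_mono le_rfl le_rfl (by linarith) le_rfl hz),
      f2 (Rc_mono (by linarith) le_rfl le_rfl le_rfl hz)]
  obtain ⟨gQ, hQ, eQ⟩ := close4 (P := P) (a := x₁ - ε) (b := x₂ + ε) (c := y₂ - ε) (d := y₁ + ε)
    (r := s.re) (t := s.im) (by linarith) (by linarith) (by linarith) (by linarith) bsq hS'
    hgT hL hB hRt eL eB eR eT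
  refine glue_box hb m1 n2 hg eg hQ fun z hz => ?_
  rw [eQ (Rc_mono le_rfl le_rfl (by linarith) le_rfl hz), egT hz]

/-- restriction: the top-down condition -/
theorem CE.pup (h : CE P J R x₁ x₂ y₂) (hb : Bx P R x₁ x₂ y₁ y₂ s) (hJ : P.Sol P.ann J) (l : Bool)
    (hs : s ∈ P.S) : P.PUp l J s := by
  have b0 := hb.R0
  have b1 := hb.R1
  have d1 := hb.s1
  have d2 := hb.s2
  have d3 := hb.s3
  have d4 := hb.s4
  have c3 := hb.by1
  have hR0 := P.hR0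
  obtain ⟨hs1, hs2⟩ := P.S_sub s hs
  rw [abs_lt] at hs1 hs2
  obtain ⟨ε, ⟨m1, m2, g, hg, eg⟩, m3, m4, m5, m6, m7, m8⟩ := (h.small.and
    ((pos_ev (s.re - x₁) (by linarith)).and
    ((pos_ev (x₂ - s.re) (by linarith)).and ((pos_ev (s.im - y₂) (by linarith)).and
    ((pos_ev (R - P.R0) (by linarith)).and ((pos_ev (P.R0 - s.im) (by linarith)).and
    (pos_ev (P.R1 - R) (by linarith)))))))).exists
  have hball : ball s ε ⊆ Rc (s.re - ε) (s.re + ε) (s.im - ε) (s.im + ε) := fun z hz => by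
    rw [mem_ball, Complex.dist_eq] at hz
    have h1 := (Complex.abs_re_le_norm (z - s)).trans_lt hz
    have h2 := (Complex.abs_im_le_norm (z - s)).trans_lt hz
    rw [Complex.sub_re, abs_lt] at h1
    rw [Complex.sub_im, abs_lt] at h2
    exact ⟨by linarith, by linarith, by linarith, by linarith⟩
  have hreg : P.regUp l s ε ⊆ Rc (x₁ - ε) (x₂ + ε) (y₂ - ε) P.R1 := by
    rintro z ⟨hz1, hz2⟩
    have him := (abs_lt.1 hz1.2).2
    rcases hz2 with hz2 | hz2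
    · have h3 := PlaneSys.strip_up hz2
      rcases l with _ | _
      · exact ⟨by linarith [hz2.1], by linarith [hz2.2.1], by linarith, him⟩
      · exact ⟨by linarith [hz2.1], by linarith [hz2.2.1], by linarith, him⟩
    · have := hball hz2
      exact ⟨by linarith [this.1], by linarith [this.2.1], by linarith [this.2.2.1], him⟩
  refine ⟨ε, m1, g, P.mono (P.isOpen_regUp l s ε) hreg hg, ?_⟩
  -- agreement above `R0`
  have key : EqOn g J (Rc (x₁ - ε) (x₂ + ε) (max P.R0 (y₂ - ε)) P.R1) := by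
    refine uniqRc (P := P) (P.mono (isOpen_Rc _ _ _ _)
        (Rc_mono le_rfl le_rfl (le_max_right _ _) le_rfl) hg)
      (P.mono (V := P.ann) (isOpen_Rc _ _ _ _) (fun z hz => ⟨m2
        (Rc_mono le_rfl le_rfl (le_max_right _ _) le_rfl hz), fun hc => ?_⟩) hJ)
      le_rfl le_rfl (max_le (by linarith) (by linarith) : max P.R0 (y₂ - ε) ≤ R - ε) le_rfl
      (by linarith) (by linarith) eg
    have h1 := (abs_le.1 hc.2).2
    have h2 := hz.2.2.1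
    linarith [le_max_left P.R0 (y₂ - ε)]
  intro z hz
  have h1 := hreg hz.1
  have h2 : P.R0 < z.im := hz.2
  exact key ⟨h1.1, h1.2.1, max_lt h2 h1.2.2.1, h1.2.2.2⟩

end Pool.Agent.QC.Grid
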