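import Pool.Agent.QC.Grid.Col

/-!
# Section 7: the sweep in a column

`lup_iff_pup`: for a set `Λ` of labels which is closed upwards in columns, the loop conditions at
all labels of `Λ` are equivalent to the top-down conditions `PUp` at all singular points near the
labels of `Λ`.
-/

set_option autoImplicit false

open Set Filter Topology Metric

namespace Pool.Agent.QC.Grid

variable {F : Type} [AddCommGroup F] [Module ℂ F] {M : ℕ} {R : ℝ}

/-- the point `z` is near the label `j` at time `τ` -/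
def At (C : Conf M R) (δ τ : ℝ) (j : Fin M) (z : ℂ) : Prop :=
  |z.re - (C.z j τ).re| < δ ∧ |z.im - (C.z j τ).im| < δ

/-- the singular points of the plane system are near the labels, at most one near each label -/
structure NearS (C : Conf M R) (δ τ : ℝ) (P : PlaneSys F) : Prop where
  R0 : P.R0 < R
  R1 : R < P.R1
  near : ∀ z ∈ P.S, ∃ j, At C δ τ j z
  uniq : ∀ z ∈ P.S, ∀ z' ∈ P.S, ∀ j, At C δ τ j z → At C δ τ j z' → z = z'

/-- the set of labels is closed upwards in columns -/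
def ColUp (C : Conf M R) (τ : ℝ) (Λ : Set (Fin M)) : Prop :=
  ∀ j ∈ Λ, ∀ i, (C.z i τ).re = (C.z j τ).re → (C.z j τ).im < (C.z i τ).im → i ∈ Λ

variable {C : Conf M R} {δ τ : ℝ} {P : PlaneSys F} {J : ℂ → F} {w j : Fin M}
  {x₁ x₂ y₁ y₂ : ℝ}

private theorem lt_of_near {a b c δ : ℝ} (h1 : δ ≤ |a - c|) (h2 : |b - c| < δ) (h3 : a ≤ b) :
    a < c := by
  rw [le_abs] at h1
  rw [abs_lt] at h2
  rcases h1 with h1 | h1
  · linarith
  · linarith

private theorem gt_of_near {a b c δ : ℝ} (h1 : δ ≤ |a - c|) (h2 : |b - c| < δ) (h3 : b ≤ a) :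
    c < a := by
  rw [le_abs] at h1
  rw [abs_lt] at h2
  rcases h1 with h1 | h1
  · linarith
  · linarith

theorem Box.bx (h : Box C δ τ w x₁ x₂ y₁ y₂) (hN : NearS C δ τ P) (hτ : τ ∈ Icc (0 : ℝ) 1)
    (hδ : 0 < δ) : ∃ s, Bx P R x₁ x₂ y₁ y₂ s ∧ ∀ z ∈ P.S, At C δ τ w z → z = s := by
  obtain ⟨p1, p2, p3, p4⟩ := h.pos hδ
  have hline : ∀ z ∈ P.S, z.re ≠ x₁ := by
    intro z hz hc
    obtain ⟨i, hi, -⟩ := hN.near z hz
    have h1 := h.v1.2 i
    rw [hc] at hi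
    linarith
  have honly : ∀ z ∈ P.S, x₁ ≤ z.re → z.re ≤ x₂ → y₂ ≤ z.im → z.im ≤ y₁ → At C δ τ w z := by
    intro z hz k1 k2 k3 k4
    obtain ⟨i, hi1, hi2⟩ := hN.near z hz
    have e : i = w := h.only hτ ⟨(lt_of_near (h.v1.2 i) hi1 k1).le,
      (gt_of_near (h.v2.2 i) hi1 k2).le⟩ ⟨(lt_of_near (h.h2.2 i) hi2 k3).le,
      (gt_of_near (h.h1.2 i) hi2 k4).le⟩ hδ
    rw [e] at hi1 hi2
    exact ⟨hi1, hi2⟩
  have b1 := (abs_le.1 h.v1.1).1
  have b2 := (abs_le.1 h.v2.1).2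
  have b3 := (abs_le.1 h.h1.1).2
  have b4 := (abs_le.1 h.h2.1).1
  by_cases hs : ∃ z ∈ P.S, At C δ τ w z
  · obtain ⟨s, hsS, hs1⟩ := hs
    obtain ⟨q1, q2⟩ := id hs1
    rw [abs_lt] at q1 q2
    exact ⟨s, ⟨hN.R0, hN.R1, b1, b2, b3, b4, by linarith, by linarith, by linarith, by linarith,
      hline, fun z hz k1 k2 k3 k4 => hN.uniq z hz s hsS w (honly z hz k1 k2 k3 k4) hs1⟩,
      fun z hz hz1 => hN.uniq z hz s hsS w hz1 hs1⟩
  · push Not at hs
    exact ⟨C.z w τ, ⟨hN.R0, hN.R1, b1, b2, b3, b4, by linarith, by linarith, by linarith,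
      by linarith, hline, fun z hz k1 k2 k3 k4 => absurd (honly z hz k1 k2 k3 k4) (hs z hz)⟩,
      fun z hz hz1 => absurd hz1 (hs z hz)⟩

/-- boxes in the same column can be taken with the same vertical lines -/
theorem Box.col (h : Box C δ τ w x₁ x₂ y₁ y₂) {a b c d : ℝ} (h' : Box C δ τ j a b c d)
    (hc : (C.z j τ).re = (C.z w τ).re) : Box C δ τ j x₁ x₂ c d :=
  ⟨h.v1, h.v2, h'.h1, h'.h2, fun i => by rw [h.l1, hc], fun i => by rw [h.l2, hc], h'.u1, h'.u2⟩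

/-- a singular point in the column belongs to a label of the column -/
theorem Box.incol (h : Box C δ τ w x₁ x₂ y₁ y₂) {z : ℂ} {i : Fin M} (hi : At C δ τ i z)
    (k1 : x₁ ≤ z.re) (k2 : z.re ≤ x₂) : (C.z i τ).re = (C.z w τ).re := by
  have h1 := lt_of_near (h.v1.2 i) hi.1 k1
  have h2 := gt_of_near (h.v2.2 i) hi.1 k2
  have h3 := (h.l2 i).1 h2
  have h4 : ¬ (C.z i τ).re < (C.z w τ).re := fun hc => absurd ((h.l1 i).2 hc) (not_lt.2 h1.le)
  linarith

/-- THE SWEEP IN A COLUMN -/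
theorem sweep_col (hN : NearS C δ τ P) (hδ : 0 < δ)
    (hbox : ∀ j, ∃ a b c d, Box C δ τ j a b c d) (hJ : P.Sol P.ann J)
    (hw : Box C δ τ w x₁ x₂ y₁ y₂) (n : ℕ) : ∀ y, C.FH δ τ y →
    (Finset.univ.filter fun j => (C.z j τ).re = (C.z w τ).re ∧ y < (C.z j τ).im).card = n →
    (∀ j, (C.z j τ).re = (C.z w τ).re → y < (C.z j τ).im → ∀ c d, Box C δ τ j x₁ x₂ c d →
      CE P J R x₁ x₂ c → CE P J R x₁ x₂ d) → CE P J R x₁ x₂ y := by
  classical
  obtain ⟨p1, p2, -, -⟩ := hw.pos hδ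
  have b1 := (abs_le.1 hw.v1.1).1
  have b2 := (abs_le.1 hw.v2.1).2
  induction n using Nat.strong_induction_on with
  | _ n ih =>
  intro y hy hn hst
  have hy1 := abs_le.1 hy.1
  by_cases hemp : ∃ j, (C.z j τ).re = (C.z w τ).re ∧ y < (C.z j τ).im
  · obtain ⟨j₀, hj₀⟩ := hemp
    set T := Finset.univ.filter fun j => (C.z j τ).re = (C.z w τ).re ∧ y < (C.z j τ).im with hT
    have hTne : T.Nonempty := ⟨j₀, by rw [hT, Finset.mem_filter]; exact ⟨Finset.mem_univ _, hj₀⟩⟩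
    obtain ⟨j, hj, hmin⟩ := T.exists_min_image (fun j => (C.z j τ).im) hTne
    rw [hT, Finset.mem_filter] at hj
    obtain ⟨-, hj1, hj2⟩ := hj
    obtain ⟨a, b, c, d, hbj⟩ := hbox j
    have hbj' := hw.col hbj hj1
    obtain ⟨-, -, q3, q4⟩ := hbj'.pos hδ
    -- above the box
    have hc : CE P J R x₁ x₂ c := by
      refine ih _ ?_ c hbj'.h1 rfl fun i hi1 hi2 => hst i hi1 (by linarith)
      rw [← hn]
      refine Finset.card_lt_card ⟨fun i hi => ?_, fun hsub => ?_⟩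
      · rw [Finset.mem_filter] at hi
        rw [hT, Finset.mem_filter]
        exact ⟨Finset.mem_univ _, hi.2.1, by linarith [hi.2.2]⟩
      · have hjT : j ∈ T := by rw [hT, Finset.mem_filter]; exact ⟨Finset.mem_univ _, hj1, hj2⟩
        have := hsub hjT
        rw [Finset.mem_filter] at this
        linarith [this.2.2]
    have hd := hst j hj1 hj2 c d hbj' hc
    rcases le_total d y with hdy | hdy
    · exact hd.up hdy
    · refine hd.down b1 (by linarith) b2 hy1.1 (abs_le.1 hbj'.h2.1).2 hN.R1 ?_ hdy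
      rintro z hz ⟨k1, k2, k3, k4⟩
      obtain ⟨i, hi⟩ := hN.near z hz
      have e1 := hw.incol hi k1 k2
      have e2 := lt_of_near (hy.2 i) hi.2 k3
      have e3 := gt_of_near (hbj'.h2.2 i) hi.2 k4
      have e4 : ¬ (C.z j τ).im ≤ (C.z i τ).im := fun hc' =>
        absurd ((hbj'.u2 i).2 hc') (not_lt.2 e3.le)
      exact e4 (hmin i (by rw [hT, Finset.mem_filter]; exact ⟨Finset.mem_univ _, e1, e2⟩))
  · push Not at hemp
    refine CE.top hJ hN.R0 hN.R1 b1 (by linarith) b2 hy1.1 hy1.2 ?_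
    rintro z hz ⟨k1, k2, k3, -⟩
    obtain ⟨i, hi⟩ := hN.near z hz
    have e1 := hw.incol hi k1 k2
    have e2 := lt_of_near (hy.2 i) hi.2 k3
    exact absurd e2 (not_lt.2 (hemp i e1))

/-- loop conditions and top-down conditions for a set of labels closed upwards in columns -/
theorem lup_iff_pup (hN : NearS C δ τ P) (hδ : 0 < δ) (hτ : τ ∈ Icc (0 : ℝ) 1)
    (hbox : ∀ j, ∃ a b c d, Box C δ τ j a b c d) (hJ : P.Sol P.ann J) {Λ : Set (Fin M)}
    (hΛ : ColUp C τ Λ) (l : Bool) :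
    (∀ j ∈ Λ, ∀ z ∈ P.S, At C δ τ j z → P.PUp l J z) ↔
      ∀ j ∈ Λ, ∀ a b c d, Box C δ τ j a b c d → LUp P J R a b c d := by
  have hmem : ∀ j ∈ Λ, ∀ a b c d, Box C δ τ j a b c d → ∀ i, (C.z i τ).re = (C.z j τ).re →
      d < (C.z i τ).im → i ∈ Λ := by
    intro j hj a b c d hb i h1 h2
    have h3 := (hb.u2 i).1 h2
    rcases h3.lt_or_eq with h4 | h4
    · exact hΛ j hj i h1 h4
    · have : i = j := C.inj τ hτ i j (Complex.ext h1 h4.symm)
      rw [this]; exact hj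
  constructor
  · intro h j hj a b c d hb
    obtain ⟨s, hs, -⟩ := hb.bx hN hτ hδ
    refine CE.lup (sweep_col hN hδ hbox hJ hb _ d hb.h2 rfl ?_) hs
    intro i hi1 hi2 c' d' hbi hc
    have hiΛ := hmem j hj a b c d hb i hi1 hi2
    obtain ⟨s', hs', hu⟩ := hbi.bx hN hτ hδ
    by_cases hS : s' ∈ P.S
    · refine hc.step_pup hs' hS (h i hiΛ s' hS ?_)
      obtain ⟨k, hk⟩ := hN.near s' hS
      have e : k = i := by
        refine hbi.only hτ ⟨(lt_of_near (hbi.v1.2 k) hk.1 hs'.s1.le).le,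
          (gt_of_near (hbi.v2.2 k) hk.1 hs'.s2.le).le⟩ ⟨(lt_of_near (hbi.h2.2 k) hk.2
          hs'.s4.le).le, (gt_of_near (hbi.h1.2 k) hk.2 hs'.s3.le).le⟩ hδ
      rw [← e]; exact hk
    · exact hc.step_free hs' hS
  · intro h j hj z hz hzj
    obtain ⟨a, b, c, d, hb⟩ := hbox j
    obtain ⟨s, hs, hu⟩ := hb.bx hN hτ hδ
    have e := hu z hz hzj
    rw [e] at hz ⊢
    refine CE.pup (sweep_col hN hδ hbox hJ hb _ d hb.h2 rfl ?_) hs hJ l hz
    intro i hi1 hi2 c' d' hbi hc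
    have hiΛ := hmem j hj a b c d hb i hi1 hi2
    obtain ⟨s', hs', -⟩ := hbi.bx hN hτ hδ
    exact hc.step_lup hs' (h i hiΛ a b c' d' hbi)

end Pool.Agent.QC.Grid
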