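import Mathlib

/-!
# Section 7: the combinatorial induction of the step lemma
-/

set_option autoImplicit false

open Finset

namespace Pool.Agent.QC.Grid

open Classical in
/-- labels with a smaller value -/
noncomputable def lo {M : ℕ} (a : Fin M → ℝ) (i : Fin M) : Finset (Fin M) :=
  univ.filter fun j => a j < a i

open Classical in
/-- labels with a smaller or equal value -/
noncomputable def lop {M : ℕ} (a : Fin M → ℝ) (i : Fin M) : Finset (Fin M) :=
  univ.filter fun j => a j ≤ a i

open Classical in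
/-- labels with a larger value -/
noncomputable def up {M : ℕ} (b : Fin M → ℝ) (i : Fin M) : Finset (Fin M) :=
  univ.filter fun j => b i < b j

open Classical in
/-- labels with a larger or equal value -/
noncomputable def upp {M : ℕ} (b : Fin M → ℝ) (i : Fin M) : Finset (Fin M) :=
  univ.filter fun j => b i ≤ b j

variable {M : ℕ} {a b : Fin M → ℝ}

theorem mem_lo {i j : Fin M} : j ∈ lo a i ↔ a j < a i := by simp [lo]
theorem mem_lop {i j : Fin M} : j ∈ lop a i ↔ a j ≤ a i := by simp [lop]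
theorem mem_up {i j : Fin M} : j ∈ up b i ↔ b i < b j := by simp [up]
theorem mem_upp {i j : Fin M} : j ∈ upp b i ↔ b i ≤ b j := by simp [upp]

/-- The induction of the step lemma: `Q L U` for all represented sets from the persistent sets. -/
theorem comb (hab : ∀ i j, a i = a j → b i = b j → i = j)
    (RL RU : Finset (Fin M) → Prop) (Q : Finset (Fin M) → Finset (Fin M) → Prop)
    (hL : ∀ L, RL L → ∀ i ∈ L, ∀ j, a j < a i → j ∈ L)
    (hU : ∀ U, RU U → ∀ i ∈ U, ∀ j, b i < b j → j ∈ U)
    (hLm : ∀ i, RL (lo a i)) (hLp : ∀ i, RL (lop a i))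
    (hUm : ∀ i, RU (up b i)) (hUp : ∀ i, RU (upp b i))
    (hQ0 : ∀ U, RU U → Q ∅ U) (hQ1 : ∀ L, RL L → Q L ∅)
    (hrel : ∀ L₁ L₂ U₁ U₂, RL L₁ → RL L₂ → RU U₁ → RU U₂ →
      (∀ k, (k ∈ L₁ ↔ k ∈ L₂) ∨ (k ∈ U₁ ↔ k ∈ U₂)) → Q L₂ U₁ → Q L₁ U₁ → Q L₁ U₂ → Q L₂ U₂)
    (hP : ∀ L U, (∃ i, L = lo a i ∨ L = lop a i) → (∃ i, U = up b i ∨ U = upp b i) → Q L U) :
    ∀ L U, RL L → RU U → Q L U := by
  classical
  -- persistent `L`, arbitrary `U`
  have st2 : ∀ L, (∃ i, L = lo a i ∨ L = lop a i) → ∀ U, RU U → Q L U := by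
    intro L
    induction L using Finset.strongInduction with
    | H L ih =>
      intro hLpers U hUr
      have hLr : RL L := by
        obtain ⟨i, rfl | rfl⟩ := hLpers
        · exact hLm i
        · exact hLp i
      rcases L.eq_empty_or_nonempty with hLe | hLne
      · rw [hLe]; exact hQ0 U hUr
      rcases U.eq_empty_or_nonempty with hUe | hUne
      · rw [hUe]; exact hQ1 L hLr
      obtain ⟨i, hi, himax⟩ := L.exists_max_image a hLne
      obtain ⟨j, hj, hjmin⟩ := U.exists_min_image b hUne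
      have hsub : lo a i ⊆ L := fun k hk => hL L hLr i hi k (mem_lo.1 hk)
      have hssub : lo a i ⊂ L := by
        refine ⟨hsub, fun h => ?_⟩
        exact lt_irrefl _ (mem_lo.1 (h hi))
      have hUsub : up b j ⊆ U := fun k hk => hU U hUr j hj k (mem_up.1 hk)
      by_cases hc : ∀ k, (k ∈ lo a i ↔ k ∈ L) ∨ (k ∈ up b j ↔ k ∈ U)
      · exact hrel (lo a i) L (up b j) U (hLm i) hLr (hUm j) hUr hc
          (hP L _ hLpers ⟨j, Or.inl rfl⟩) (hP _ _ ⟨i, Or.inl rfl⟩ ⟨j, Or.inl rfl⟩)
          (ih _ hssub ⟨i, Or.inl rfl⟩ U hUr)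
      · push Not at hc
        obtain ⟨ρ, hρ1, hρ2⟩ := hc
        have h1 : ρ ∈ L ∧ ρ ∉ lo a i := by
          by_cases h : ρ ∈ lo a i
          · exact absurd (hsub h) (by tauto)
          · tauto
        have h2 : ρ ∈ U ∧ ρ ∉ up b j := by
          by_cases h : ρ ∈ up b j
          · exact absurd (hUsub h) (by tauto)
          · tauto
        have h3 : a ρ = a i := le_antisymm (himax ρ h1.1) (not_lt.1 fun h => h1.2 (mem_lo.2 h))
        have h4 : b ρ = b j := le_antisymm (not_lt.1 fun h => h2.2 (mem_up.2 h)) (hjmin ρ h2.1)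
        refine hrel (lo a i) L (upp b j) U (hLm i) hLr (hUp j) hUr ?_
          (hP L _ hLpers ⟨j, Or.inr rfl⟩) (hP _ _ ⟨i, Or.inl rfl⟩ ⟨j, Or.inr rfl⟩)
          (ih _ hssub ⟨i, Or.inl rfl⟩ U hUr)
        intro k
        by_cases hk : (k ∈ lo a i ↔ k ∈ L)
        · exact Or.inl hk
        · right
          have hk1 : k ∈ L ∧ k ∉ lo a i := by
            by_cases h : k ∈ lo a i
            · exact absurd (hsub h) (by tauto)
            · tauto
          have hk3 : a k = a i :=
            le_antisymm (himax k hk1.1) (not_lt.1 fun h => hk1.2 (mem_lo.2 h))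
          constructor
          · intro hk4
            rcases lt_or_eq_of_le (mem_upp.1 hk4) with h | h
            · exact hUsub (mem_up.2 h)
            · rw [hab k ρ (by rw [hk3, h3]) (by rw [← h, h4])]
              exact h2.1
          · intro hk4
            exact mem_upp.2 (hjmin k hk4)
  -- arbitrary `L`, arbitrary `U`
  intro L U
  induction U using Finset.strongInduction with
  | H U ih =>
    intro hLr hUr
    rcases L.eq_empty_or_nonempty with hLe | hLne
    · rw [hLe]; exact hQ0 U hUr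
    rcases U.eq_empty_or_nonempty with hUe | hUne
    · rw [hUe]; exact hQ1 L hLr
    obtain ⟨i, hi, himax⟩ := L.exists_max_image a hLne
    obtain ⟨j, hj, hjmin⟩ := U.exists_min_image b hUne
    have hsub : lo a i ⊆ L := fun k hk => hL L hLr i hi k (mem_lo.1 hk)
    have hUsub : up b j ⊆ U := fun k hk => hU U hUr j hj k (mem_up.1 hk)
    have hUssub : up b j ⊂ U := by
      refine ⟨hUsub, fun h => ?_⟩
      exact lt_irrefl _ (mem_up.1 (h hj))
    by_cases hc : ∀ k, (k ∈ lo a i ↔ k ∈ L) ∨ (k ∈ up b j ↔ k ∈ U)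
    · exact hrel (lo a i) L (up b j) U (hLm i) hLr (hUm j) hUr hc
        (ih _ hUssub hLr (hUm j)) (st2 _ ⟨i, Or.inl rfl⟩ _ (hUm j)) (st2 _ ⟨i, Or.inl rfl⟩ U hUr)
    · push Not at hc
      obtain ⟨ρ, hρ1, hρ2⟩ := hc
      have h1 : ρ ∈ L ∧ ρ ∉ lo a i := by
        by_cases h : ρ ∈ lo a i
        · exact absurd (hsub h) (by tauto)
        · tauto
      have h2 : ρ ∈ U ∧ ρ ∉ up b j := by
        by_cases h : ρ ∈ up b j
        · exact absurd (hUsub h) (by tauto)
        · tauto
      have h3 : a ρ = a i := le_antisymm (himax ρ h1.1) (not_lt.1 fun h => h1.2 (mem_lo.2 h))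
      have h4 : b ρ = b j := le_antisymm (not_lt.1 fun h => h2.2 (mem_up.2 h)) (hjmin ρ h2.1)
      refine hrel (lop a i) L (up b j) U (hLp i) hLr (hUm j) hUr ?_
        (ih _ hUssub hLr (hUm j)) (st2 _ ⟨i, Or.inr rfl⟩ _ (hUm j)) (st2 _ ⟨i, Or.inr rfl⟩ U hUr)
      intro k
      by_cases hk : (k ∈ up b j ↔ k ∈ U)
      · exact Or.inr hk
      · left
        have hk1 : k ∈ U ∧ k ∉ up b j := by
          by_cases h : k ∈ up b j
          · exact absurd (hUsub h) (by tauto)
          · tauto
        have hk3 : b k = b j := le_antisymm (not_lt.1 fun h => hk1.2 (mem_up.2 h)) (hjmin k hk1.1)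
        constructor
        · intro hk4
          rcases lt_or_eq_of_le (mem_lop.1 hk4) with h | h
          · exact hsub (mem_lo.2 h)
          · rw [hab k ρ (by rw [h, h3]) (by rw [hk3, h4])]
            exact h1.1
        · intro hk4
          exact mem_lop.2 (himax k hk4)

end Pool.Agent.QC.Grid
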