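import Mathlib

/-!
# Section 7: moving configurations, local systems, the group elements `lam`

`LS`: an abstract local system (transports along segments at fixed time, and in the time direction
at a fixed point of the plane) on a set `X` of pairs (time, point), with values in a group.
`trs s a b` is the transport at time `s` from the fibre over `b` to the fibre over `a`.
`lam s x y`: the loop from the upper left corner along the top side to `x`, down to `(x, y)`, to the
left side and back to the corner.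
-/

set_option autoImplicit false

open Set

namespace Pool.Agent.QC.Grid

/-- Motion of `M` labelled points in the open square of half side `R` during the time `[0,1]`. -/
structure Conf (M : ℕ) (R : ℝ) where
  /-- the points -/
  z : Fin M → ℝ → ℂ
  cont : ∀ j, ContinuousOn (z j) (Icc 0 1)
  inj : ∀ s ∈ Icc (0 : ℝ) 1, ∀ i j, z i s = z j s → i = j
  re_lt : ∀ s ∈ Icc (0 : ℝ) 1, ∀ j, |(z j s).re| < R
  im_lt : ∀ s ∈ Icc (0 : ℝ) 1, ∀ j, |(z j s).im| < R

variable {M : ℕ} {R : ℝ}

/-- The points (time, place) of the closed square with distance at least `δ` (sup norm) from the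
moving points. -/
def Conf.X (C : Conf M R) (δ : ℝ) : Set (ℝ × ℂ) :=
  {p | p.1 ∈ Icc (0 : ℝ) 1 ∧ |p.2.re| ≤ R ∧ |p.2.im| ≤ R ∧
    ∀ j, δ ≤ |p.2.re - (C.z j p.1).re| ∨ δ ≤ |p.2.im - (C.z j p.1).im|}

/-- An abstract local system on `X` with values in the group `G`. -/
structure LS (X : Set (ℝ × ℂ)) (G : Type) [Group G] where
  /-- transport at time `s` from `b` to `a` -/
  trs : ℝ → ℂ → ℂ → G
  /-- transport at the place `z` from time `s₂` to time `s₁` -/
  trt : ℂ → ℝ → ℝ → G
  tri : ∀ s a b c, (∀ z ∈ convexHull ℝ {a, b, c}, (s, z) ∈ X) →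
    trs s a b * trs s b c = trs s a c
  trt_comp : ∀ z s₁ s₂ s₃, (∀ s ∈ convexHull ℝ {s₁, s₂, s₃}, (s, z) ∈ X) →
    trt z s₁ s₂ * trt z s₂ s₃ = trt z s₁ s₃
  sq : ∀ s₁ s₂ a b, (∀ s ∈ uIcc s₁ s₂, ∀ z ∈ segment ℝ a b, (s, z) ∈ X) →
    trs s₁ a b * trt b s₁ s₂ = trt a s₁ s₂ * trs s₂ a b

/-- The vertical line over `x` is free at time `s`. -/
def Conf.FV (C : Conf M R) (δ s x : ℝ) : Prop := |x| ≤ R ∧ ∀ j, δ ≤ |x - (C.z j s).re|

/-- The horizontal line at height `y` is free at time `s`. -/
def Conf.FH (C : Conf M R) (δ s y : ℝ) : Prop := |y| ≤ R ∧ ∀ j, δ ≤ |y - (C.z j s).im|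

open Classical in
/-- The labels of the points to the left of `x`. -/
noncomputable def Conf.L (C : Conf M R) (s x : ℝ) : Finset (Fin M) :=
  Finset.univ.filter fun j => (C.z j s).re < x

open Classical in
/-- The labels of the points above `y`. -/
noncomputable def Conf.U (C : Conf M R) (s y : ℝ) : Finset (Fin M) :=
  Finset.univ.filter fun j => y < (C.z j s).im

theorem Conf.mem_L {C : Conf M R} {s x : ℝ} {j : Fin M} : j ∈ C.L s x ↔ (C.z j s).re < x := by
  simp [Conf.L]

theorem Conf.mem_U {C : Conf M R} {s y : ℝ} {j : Fin M} : j ∈ C.U s y ↔ y < (C.z j s).im := by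
  simp [Conf.U]

/-- The upper left corner. -/
def corner (R : ℝ) : ℂ := ⟨-R, R⟩

/-- The loop top side, down at `x` to the height `y`, left side. -/
def LS.lam {X : Set (ℝ × ℂ)} {G : Type} [Group G] (S : LS X G) (R s x y : ℝ) : G :=
  S.trs s ⟨-R, R⟩ ⟨x, R⟩ * S.trs s ⟨x, R⟩ ⟨x, y⟩ * S.trs s ⟨x, y⟩ ⟨-R, y⟩ *
    S.trs s ⟨-R, y⟩ ⟨-R, R⟩

/-- The weak orders of the real parts and of the imaginary parts agree at time `s`. -/
def SameAt (C C' : Conf M R) (s : ℝ) : Prop :=
  ∀ i j, ((C.z i s).re < (C.z j s).re ↔ (C'.z i s).re < (C'.z j s).re) ∧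
    ((C.z i s).im < (C.z j s).im ↔ (C'.z i s).im < (C'.z j s).im)

/-- Comparison of the two local systems at time `s`: the elements `lam` at corresponding positions
are conjugated by `g`. -/
def Inv (C C' : Conf M R) {δ : ℝ} {G : Type} [Group G] (S : LS (C.X δ) G) (S' : LS (C'.X δ) G)
    (s : ℝ) (g : G) : Prop :=
  ∀ x y x' y', C.FV δ s x → C.FH δ s y → C'.FV δ s x' → C'.FH δ s y' →
    C.L s x = C'.L s x' → C.U s y = C'.U s y' →
    S'.lam R s x' y' = g * S.lam R s x y * g⁻¹

end Pool.Agent.QC.Grid
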