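import Pool.Agent.QC.Grid.Fin
import Pool.Agent.QC.Plane.OfLS

/-!
# Section 7: bottom-up conditions, plane systems of local systems

`grid_dn`: the comparison theorem for the bottom-up conditions `PDn` (corner `R - i R`), by the
rotation `z ↦ -z`.  `link_toPlane`: `PlaneData.toPlane` is linked to its local system.
-/

set_option autoImplicit false

open Set Filter Topology Metric

namespace Pool.Agent.QC.Grid

variable {M : ℕ} {R : ℝ}

/-- the rotated configuration -/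
def Conf.neg (C : Conf M R) : Conf M R where
  z j s := -(C.z j s)
  cont j := (C.cont j).neg
  inj s hs i j hij := C.inj s hs i j (neg_injective hij)
  re_lt s hs j := by rw [Complex.neg_re, abs_neg]; exact C.re_lt s hs j
  im_lt s hs j := by rw [Complex.neg_im, abs_neg]; exact C.im_lt s hs j

theorem Conf.neg_X {C : Conf M R} {δ : ℝ} {s : ℝ} {z : ℂ} (h : (s, z) ∈ C.neg.X δ) :
    (s, -z) ∈ C.X δ := by
  obtain ⟨h1, h2, h3, h4⟩ := h
  refine ⟨h1, by simpa using h2, by simpa using h3, fun j => ?_⟩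
  rcases h4 j with h5 | h5
  · left
    simp only [Conf.neg, Complex.neg_re] at h5 ⊢
    rw [← abs_neg]
    convert h5 using 2
    ring
  · right
    simp only [Conf.neg, Complex.neg_im] at h5 ⊢
    rw [← abs_neg]
    convert h5 using 2
    ring

variable {E : Type*} [TopologicalSpace E] {F : Type}

/-- one chain of pieces with values along the lower right corner -/
structure ChainD (A : QC.LS E F) (δ : ℝ) (n : ℕ) (C : ℕ → Conf M R) (h : ℕ → ℝ × ℂ → E)
    (u : ℕ → ℝ → F) : Prop where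
  ok : ∀ k ≤ n, Ok A (h k) ((C k).X δ)
  par : ∀ k ≤ n, A.Par (fun s => h k (s, ⟨R, -R⟩)) (Icc 0 1) (u k)
  jz : ∀ k < n, ∀ j, (C k).z j 1 = (C (k + 1)).z j 0
  jh : ∀ k < n, ∀ z, h k (1, z) = h (k + 1) (0, z)
  ju : ∀ k < n, u k 1 = u (k + 1) 0

theorem ChainD.chain {A : QC.LS E F} {δ : ℝ} {n : ℕ} {C : ℕ → Conf M R} {h : ℕ → ℝ × ℂ → E}
    {u : ℕ → ℝ → F} (K : ChainD A δ n C h u) :
    Chain A δ n (fun k => (C k).neg) (fun k p => h k (p.1, -p.2)) u where
  ok k hk := by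
    have hm : MapsTo (fun p : ℝ × ℂ => (p.1, -p.2)) ((C k).neg.X δ) ((C k).X δ) :=
      fun p hp => Conf.neg_X (C := C k) hp
    exact ⟨(K.ok k hk).1.comp (by fun_prop) hm, (K.ok k hk).2.comp hm⟩
  par k hk := by
    have e : (-(⟨-R, R⟩ : ℂ)) = ⟨R, -R⟩ := by apply Complex.ext <;> simp
    simp only [e]
    exact K.par k hk
  jz k hk j := by
    change -((C k).z j 1) = -((C (k + 1)).z j 0)
    rw [K.jz k hk j]
  jh k hk z := K.jh k hk (-z)
  ju := K.ju

variable [AddCommGroup F] [Module ℂ F]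

/-- the set of labels is closed downwards in columns -/
def ColDn (C : Conf M R) (τ : ℝ) (Λ : Set (Fin M)) : Prop :=
  ∀ j ∈ Λ, ∀ i, (C.z i τ).re = (C.z j τ).re → (C.z i τ).im < (C.z j τ).im → i ∈ Λ

theorem ColDn.neg {C : Conf M R} {τ : ℝ} {Λ : Set (Fin M)} (h : ColDn C τ Λ) :
    ColUp C.neg τ Λ := by
  intro j hj i h1 h2
  simp only [Conf.neg, Complex.neg_re, Complex.neg_im] at h1 h2
  exact h j hj i (by linarith) (by linarith)

theorem At.neg {C : Conf M R} {δ τ : ℝ} {j : Fin M} {z : ℂ} (h : At C δ τ j z) :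
    At C.neg δ τ j (-z) := by
  obtain ⟨h1, h2⟩ := h
  simp only [At, Conf.neg, Complex.neg_re, Complex.neg_im]
  rw [abs_lt] at h1 h2 ⊢
  rw [abs_lt]
  exact ⟨⟨by linarith, by linarith⟩, ⟨by linarith, by linarith⟩⟩

theorem At.neg' {C : Conf M R} {δ τ : ℝ} {j : Fin M} {z : ℂ} (h : At C.neg δ τ j z) :
    At C δ τ j (-z) := by
  obtain ⟨h1, h2⟩ := h
  simp only [At, Conf.neg, Complex.neg_re, Complex.neg_im] at h1 h2 ⊢
  rw [abs_lt] at h1 h2 ⊢
  rw [abs_lt]
  exact ⟨⟨by linarith, by linarith⟩, ⟨by linarith, by linarith⟩⟩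

theorem NearS.neg {C : Conf M R} {δ τ : ℝ} {P : PlaneSys F} (h : NearS C δ τ P) :
    NearS C.neg δ τ P.flip where
  R0 := h.R0
  R1 := h.R1
  near z hz := by
    obtain ⟨j, hj⟩ := h.near (-z) hz
    refine ⟨j, ?_⟩
    have := hj.neg
    rwa [neg_neg] at this
  uniq z hz z' hz' j h1 h2 := by
    have := h.uniq (-z) hz (-z') hz' j h1.neg' h2.neg'
    exact neg_injective this

theorem Link.neg {A : QC.LS E F} {h : ℂ → E} {P : PlaneSys F} (hl : Link A h P) :
    Link A (fun z => h (-z)) P.flip where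
  ok := by
    have hm : MapsTo (fun z : ℂ => -z) (sq P.flip.R1 \ P.flip.S) (sq P.R1 \ P.S) := by
      rintro z ⟨h1, h2⟩
      refine ⟨?_, h2⟩
      have h3 : z ∈ (fun z : ℂ => -z) ⁻¹' sq P.R1 := by rw [neg_preimage_sq]; exact h1
      exact h3
    exact ⟨hl.ok.1.comp (by fun_prop) hm, hl.ok.2.comp hm⟩
  par U g hU hUs hUS hg := by
    have h1 : A.Par h ((fun z : ℂ => -z) ⁻¹' U) fun z => g (-z) := by
      refine hl.par _ _ (isOpen_neg_preimage hU) ?_ (fun z hz hzS => ?_) hg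
      · rw [← neg_preimage_sq]; exact preimage_mono hUs
      · refine hUS (-z) hz ?_
        change - -z ∈ P.S
        rwa [neg_neg]
    have h2 := h1.comp (g := fun z : ℂ => -z) (R := U) (by fun_prop) (fun z hz => by
      change - -z ∈ U
      rwa [neg_neg])
    have e : ((fun z => g (-z)) ∘ fun z : ℂ => -z) = g := by
      funext z
      simp
    rw [e] at h2
    exact h2

/-- THE COMPARISON THEOREM, bottom-up conditions. -/
theorem grid_dn (hR : 0 ≤ R) (n : ℕ) (C C' : ℕ → Conf M R)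
    (ho : ∀ k ≤ n, ∀ s ∈ Icc (0 : ℝ) 1, SameAt (C k) (C' k) s)
    (hz : ∀ j, (C 0).z j 0 = (C' 0).z j 0) :
    ∃ δ₀ > 0, ∀ δ, 0 < δ → δ ≤ δ₀ → ∀ (A : QC.LS E F) (h h' : ℕ → ℝ × ℂ → E) (u u' : ℕ → ℝ → F),
      ChainD A δ n C h u → ChainD A δ n C' h' u' → (∀ z, h 0 (0, z) = h' 0 (0, z)) →
      u 0 0 = u' 0 0 →
      ∀ (P P' : PlaneSys F) (J J' : ℂ → F), Link A (fun z => h n (1, z)) P →
      Link A (fun z => h' n (1, z)) P' → NearS (C n) δ 1 P → NearS (C' n) δ 1 P' →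
      P.Sol P.ann J → P'.Sol P'.ann J' → J ⟨R, -R⟩ = u n 1 → J' ⟨R, -R⟩ = u' n 1 →
      ∀ (Λ : Set (Fin M)), ColDn (C n) 1 Λ → ∀ l l' : Bool,
      (∀ j ∈ Λ, ∀ z ∈ P.S, At (C n) δ 1 j z → P.PDn l J z) →
      ∀ j ∈ Λ, ∀ z ∈ P'.S, At (C' n) δ 1 j z → P'.PDn l' J' z := by
  obtain ⟨δ₀, hδ₀, hg⟩ := grid_up (E := E) (F := F) hR n (fun k => (C k).neg)
    (fun k => (C' k).neg) (fun k hk s hs i j => by
      have h1 := ho k hk s hs j i
      simp only [Conf.neg, Complex.neg_re, Complex.neg_im, neg_lt_neg_iff]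
      exact h1) (fun j => by
      change -((C 0).z j 0) = -((C' 0).z j 0)
      rw [hz j])
  refine ⟨δ₀, hδ₀, fun δ hδ hle A h h' u u' K K' hh hu P P' J J' hl hl' hN hN' hJ hJ' eJ eJ' Λ hΛ
    l l' hup j hj z hz1 hz2 => ?_⟩
  have sol : ∀ (Q : PlaneSys F) (I : ℂ → F), Q.Sol Q.ann I →
      Q.flip.Sol Q.flip.ann fun z => I (-z) := by
    intro Q I hI
    change Q.Sol ((fun z : ℂ => -z) ⁻¹' Q.flip.ann) fun z => I (- -z)
    rw [PlaneSys.flip_ann]
    simpa using hI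
  have e : (-(⟨-R, R⟩ : ℂ)) = ⟨R, -R⟩ := by apply Complex.ext <;> simp
  have key := hg δ hδ hle A (fun k p => h k (p.1, -p.2)) (fun k p => h' k (p.1, -p.2)) u u'
    K.chain K'.chain (fun z => hh (-z)) hu P.flip P'.flip (fun z => J (-z)) (fun z => J' (-z))
    hl.neg hl'.neg hN.neg hN'.neg (sol P J hJ) (sol P' J' hJ') (by rw [e]; exact eJ)
    (by rw [e]; exact eJ') Λ hΛ.neg (!l) (!l') (fun i hi y hy hyi => by
      have h1 := hup i hi (-y) hy hyi.neg'
      have h2 := P.PDn_iff.mp h1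
      rwa [neg_neg] at h2) j hj (-z) (by change - -z ∈ P'.S; rwa [neg_neg]) hz2.neg
  exact P'.PDn_iff.mpr key

/-- the plane system of a local system is linked to it -/
theorem link_toPlane {Q : Type*} [TopologicalSpace Q] {A : QC.LS (Q × ℂ) F} {ι : Type}
    {ev : ι → F →ₗ[ℂ] ℂ} {q : Q} (D : PlaneData A ev q) (hA : A.Lin) (hol : HolZ A ev)
    (ev_inj : ∀ x, (∀ i, ev i x = 0) → x = 0) :
    Link A (fun z => (q, z)) (D.toPlane hA hol ev_inj) where
  ok := ⟨by fun_prop, fun z hz => D.reg z hz.1 hz.2⟩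
  par U g _ _ hUS hg := by
    have h1 := hg.2
    have h2 : U \ D.S = U := by
      ext z
      exact ⟨fun h => h.1, fun h => ⟨h, hUS z h⟩⟩
    rwa [h2] at h1

end Pool.Agent.QC.Grid
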