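import Pool.Agent.QC.Grid.ColSweep

/-!
# Section 7: THE FINAL COMPARISON THEOREM

`grid_up`: two chains of pieces with the same order types; `u`, `u'` parallel along the corner;
`J`, `J'` the corresponding solutions on the outer regions of the plane systems at the ends.  For
every set `Λ` of labels which is closed upwards in columns the top-down conditions of `J` at `Λ`
are equivalent to those of `J'`.  `grid_dn`: the same for the bottom-up conditions (corner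
`R - i R`, sets closed downwards).
-/

set_option autoImplicit false

open Set Filter Topology Metric

namespace Pool.Agent.QC.Grid

variable {M : ℕ} {R : ℝ}

/-- the trivial local system -/
def trivLS (X : Set (ℝ × ℂ)) (G : Type) [Group G] : LS X G where
  trs _ _ _ := 1
  trt _ _ _ := 1
  tri _ _ _ _ _ := one_mul 1
  trt_comp _ _ _ _ _ := one_mul 1
  sq _ _ _ _ _ := rfl

variable {E : Type*} [TopologicalSpace E] {F : Type}

open Classical in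
/-- the group valued local system of a piece (trivial if the piece is not regular) -/
noncomputable def pLS (A : QC.LS E F) (p₀ : E) (X : Set (ℝ × ℂ)) (h : ℝ × ℂ → E) :
    LS X (Equiv.Perm (A.V p₀)) :=
  if H : Ok A h X then toLS A p₀ X h H else trivLS X _

theorem pLS_eq {A : QC.LS E F} {p₀ : E} {X : Set (ℝ × ℂ)} {h : ℝ × ℂ → E} (H : Ok A h X) :
    pLS A p₀ X h = toLS A p₀ X h H := dif_pos H

theorem pLS_slice {A : QC.LS E F} {p₀ : E} {δ : ℝ} {C₁ C₂ : Conf M R} {h₁ h₂ : ℝ × ℂ → E}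
    (H₁ : Ok A h₁ (C₁.X δ)) (H₂ : Ok A h₂ (C₂.X δ)) {s₁ s₂ : ℝ}
    (hz : ∀ j, C₁.z j s₁ = C₂.z j s₂) (hh : ∀ z, h₁ (s₁, z) = h₂ (s₂, z)) :
    Slice C₁ C₂ (pLS A p₀ (C₁.X δ) h₁) (pLS A p₀ (C₂.X δ) h₂) s₁ s₂ := by
  refine ⟨hz, fun a b _ => ?_⟩
  rw [pLS_eq H₁, pLS_eq H₂]
  change trg A p₀ (fun z => h₁ (s₁, z)) b a = trg A p₀ (fun z => h₂ (s₂, z)) b a
  rw [funext hh]

/-- one chain of pieces with values along the corner -/
structure Chain (A : QC.LS E F) (δ : ℝ) (n : ℕ) (C : ℕ → Conf M R) (h : ℕ → ℝ × ℂ → E)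
    (u : ℕ → ℝ → F) : Prop where
  ok : ∀ k ≤ n, Ok A (h k) ((C k).X δ)
  par : ∀ k ≤ n, A.Par (fun s => h k (s, ⟨-R, R⟩)) (Icc 0 1) (u k)
  jz : ∀ k < n, ∀ j, (C k).z j 1 = (C (k + 1)).z j 0
  jh : ∀ k < n, ∀ z, h k (1, z) = h (k + 1) (0, z)
  ju : ∀ k < n, u k 1 = u (k + 1) 0

variable {A : QC.LS E F} {δ : ℝ} {n : ℕ} {C C' : ℕ → Conf M R} {h h' : ℕ → ℝ × ℂ → E}
  {u u' : ℕ → ℝ → F}

/-- transport of codes along the corner -/
theorem Chain.enc {p₀ : E} (K : Chain A δ n C h u) {k : ℕ} (hk : k ≤ n)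
    (hS : ∀ s ∈ Icc (0 : ℝ) 1, (C k).Side δ s) {x : A.V p₀} {s t : ℝ} (hs : s ∈ Icc (0 : ℝ) 1)
    (ht : t ∈ Icc (0 : ℝ) 1) (hx : Enc A p₀ (h k (s, ⟨-R, R⟩)) (u k s) x) :
    Enc A p₀ (h k (t, ⟨-R, R⟩)) (u k t) ((pLS A p₀ ((C k).X δ) (h k)).trt (corner R) t s x) := by
  rw [pLS_eq (K.ok k hk)]
  change Enc A p₀ (h k (t, ⟨-R, R⟩)) (u k t) (trg A p₀ (fun s => h k (s, ⟨-R, R⟩)) s t x)
  have hsub : segment ℝ s t ⊆ Icc (0 : ℝ) 1 := (convex_Icc 0 1).segment_subset hs ht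
  refine Enc.trg (h := fun s => h k (s, ⟨-R, R⟩)) (slice_t A (K.ok k hk) _ fun r hr => ?_)
    ((K.par k hk).mono hsub) hx
  exact corner_mem (hS r (hsub hr))

/-- the comparison element maps the code of `u` to the code of `u'` -/
theorem Chain.gel {p₀ : E} (K : Chain A δ n C h u) (K' : Chain A δ n C' h' u')
    (hS : ∀ k ≤ n, ∀ s ∈ Icc (0 : ℝ) 1, (C k).Side δ s ∧ (C' k).Side δ s)
    (h0 : h 0 (0, ⟨-R, R⟩) = h' 0 (0, ⟨-R, R⟩)) (u0 : u 0 0 = u' 0 0)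
    (hp : p₀ = h 0 (0, ⟨-R, R⟩)) :
    ∀ k ≤ n, ∃ x : A.V p₀, Enc A p₀ (h k (1, ⟨-R, R⟩)) (u k 1) x ∧
      Enc A p₀ (h' k (1, ⟨-R, R⟩)) (u' k 1)
        (Grid.gel (fun k => pLS A p₀ ((C k).X δ) (h k)) (fun k => pLS A p₀ ((C' k).X δ) (h' k))
          (k + 1) x) := by
  have m0 : (0 : ℝ) ∈ Icc (0 : ℝ) 1 := by simp
  have m1 : (1 : ℝ) ∈ Icc (0 : ℝ) 1 := by simp
  have step : ∀ k ≤ n, (∃ x : A.V p₀, Enc A p₀ (h k (0, ⟨-R, R⟩)) (u k 0) x ∧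
      Enc A p₀ (h' k (0, ⟨-R, R⟩)) (u' k 0) (Grid.gel (fun k => pLS A p₀ ((C k).X δ) (h k))
        (fun k => pLS A p₀ ((C' k).X δ) (h' k)) k x)) →
      ∃ x : A.V p₀, Enc A p₀ (h k (1, ⟨-R, R⟩)) (u k 1) x ∧
      Enc A p₀ (h' k (1, ⟨-R, R⟩)) (u' k 1)
        (Grid.gel (fun k => pLS A p₀ ((C k).X δ) (h k)) (fun k => pLS A p₀ ((C' k).X δ) (h' k))
          (k + 1) x) := by
    rintro k hk ⟨x, hx, hx'⟩
    have e1 := K.enc hk (fun s hs => (hS k hk s hs).1) m0 m1 hx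
    refine ⟨_, e1, ?_⟩
    have e2 := K.enc hk (fun s hs => (hS k hk s hs).1) m1 m0 e1
    have e3 := e2.fn hx
    have e4 := K'.enc hk (fun s hs => (hS k hk s hs).2) m0 m1 hx'
    simp only [Grid.gel, Equiv.Perm.mul_apply]
    rw [e3]
    exact e4
  intro k
  induction k with
  | zero =>
    intro hk
    refine step 0 hk ?_
    have hpar := K.par 0 hk
    have hV : u 0 0 ∈ A.V (h 0 (0, ⟨-R, R⟩)) := hpar.mem m0
    have g : Good A p₀ (h 0 (0, ⟨-R, R⟩)) := by rw [← hp]; exact Good.refl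
    obtain ⟨x, hx⟩ := g.enc hV
    refine ⟨x, hx, ?_⟩
    simp only [Grid.gel, Equiv.Perm.one_apply]
    rw [← h0, ← u0]
    exact hx
  | succ k ih =>
    intro hk
    refine step (k + 1) hk ?_
    obtain ⟨x, hx, hx'⟩ := ih (by omega)
    refine ⟨x, ?_, ?_⟩
    · rw [← K.jh k (by omega), ← K.ju k (by omega)]
      exact hx
    · rw [← K'.jh k (by omega), ← K'.ju k (by omega)]
      exact hx'

variable [AddCommGroup F] [Module ℂ F]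

/-- THE COMPARISON THEOREM, top-down conditions. -/
theorem grid_up (hR : 0 ≤ R) (n : ℕ) (C C' : ℕ → Conf M R)
    (ho : ∀ k ≤ n, ∀ s ∈ Icc (0 : ℝ) 1, SameAt (C k) (C' k) s)
    (hz : ∀ j, (C 0).z j 0 = (C' 0).z j 0) :
    ∃ δ₀ > 0, ∀ δ, 0 < δ → δ ≤ δ₀ → ∀ (A : QC.LS E F) (h h' : ℕ → ℝ × ℂ → E) (u u' : ℕ → ℝ → F),
      Chain A δ n C h u → Chain A δ n C' h' u' → (∀ z, h 0 (0, z) = h' 0 (0, z)) →
      u 0 0 = u' 0 0 →
      ∀ (P P' : PlaneSys F) (J J' : ℂ → F), Link A (fun z => h n (1, z)) P →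
      Link A (fun z => h' n (1, z)) P' → NearS (C n) δ 1 P → NearS (C' n) δ 1 P' →
      P.Sol P.ann J → P'.Sol P'.ann J' → J ⟨-R, R⟩ = u n 1 → J' ⟨-R, R⟩ = u' n 1 →
      ∀ (Λ : Set (Fin M)), ColUp (C n) 1 Λ → ∀ l l' : Bool,
      (∀ j ∈ Λ, ∀ z ∈ P.S, At (C n) δ 1 j z → P.PUp l J z) →
      ∀ j ∈ Λ, ∀ z ∈ P'.S, At (C' n) δ 1 j z → P'.PUp l' J' z := by
  obtain ⟨δ₀, hδ₀, hch⟩ := chain hR n C C' ho
  refine ⟨δ₀, hδ₀, fun δ hδ hle A h h' u u' K K' hh hu P P' J J' hl hl' hN hN' hJ hJ' eJ eJ' Λ hΛ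
    l l' => ?_⟩
  have m1 : (1 : ℝ) ∈ Icc (0 : ℝ) 1 := by simp
  obtain ⟨hS, hbox, hinv⟩ := hch δ hδ hle
  set p₀ := h 0 (0, ⟨-R, R⟩) with hp
  have hI := hinv (Equiv.Perm (A.V p₀)) (fun k => pLS A p₀ ((C k).X δ) (h k))
    (fun k => pLS A p₀ ((C' k).X δ) (h' k))
    (pLS_slice (K.ok 0 (Nat.zero_le _)) (K'.ok 0 (Nat.zero_le _)) hz hh)
    (fun k hk => pLS_slice (K.ok k hk.le) (K.ok (k + 1) hk) (K.jz k hk) (K.jh k hk))
    (fun k hk => pLS_slice (K'.ok k hk.le) (K'.ok (k + 1) hk) (K'.jz k hk) (K'.jh k hk))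
  obtain ⟨x, hx, hx'⟩ := K.gel K' hS (hh _) hu hp n le_rfl
  have hb : ∀ j, ∃ a b c d, Box (C n) δ 1 j a b c d := fun j => (hbox n le_rfl 1 (by simp) j).1
  have hb' : ∀ j, ∃ a b c d, Box (C' n) δ 1 j a b c d := fun j => (hbox n le_rfl 1 (by simp) j).2
  have hΛ' : ColUp (C' n) 1 Λ := by
    intro j hj i h1 h2
    have hso := ho n le_rfl 1 m1
    refine hΛ j hj i ?_ ((hso j i).2.2 h2)
    have k1 : ¬ ((C n).z i 1).re < ((C n).z j 1).re := fun hc => by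
      have := (hso i j).1.1 hc
      linarith
    have k2 : ¬ ((C n).z j 1).re < ((C n).z i 1).re := fun hc => by
      have := (hso j i).1.1 hc
      linarith
    exact le_antisymm (not_lt.1 k2) (not_lt.1 k1)
  rw [lup_iff_pup hN hδ m1 hb hJ hΛ, lup_iff_pup hN' hδ m1 hb' hJ' hΛ']
  intro hlup j hj a' b' c' d' hbj'
  obtain ⟨a, b, c, d, hbj⟩ := hb j
  have h1 := hlup j hj a b c d hbj
  obtain ⟨s, hs, -⟩ := hbj.bx hN m1 hδ
  obtain ⟨s', hs', -⟩ := hbj'.bx hN' m1 hδ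
  rw [← eJ] at hx
  rw [← eJ'] at hx'
  rw [← hol_iff (p₀ := p₀) hl hs hJ hx] at h1
  rw [← hol_iff (p₀ := p₀) hl' hs' hJ' hx']
  have hhol := Inv.hol hI (hS n le_rfl 1 m1).1 (hS n le_rfl 1 m1).2 (ho n le_rfl 1 m1) hbj hbj'
  simp only [pLS_eq (K.ok n le_rfl), pLS_eq (K'.ok n le_rfl), hol_toLS] at hhol
  rw [hhol, Equiv.Perm.mul_apply, Equiv.Perm.mul_apply, Equiv.Perm.inv_def,
    Equiv.symm_apply_apply, h1]

end Pool.Agent.QC.Grid
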