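import Pool.Agent.QC.Grid.Out
import Pool.Agent.QC.LS.Lift

/-!
# Section 7: the group valued local system of a local system of sets

`A : QC.LS E W` is an abstract local system, `h : T → E` a map defined on (a part of) a real vector
space `T`.  The fibres `A.V (h p)` which are in bijection with a fixed fibre `A.V p₀` are
identified with it by an arbitrary choice; the parallel transport along segments gives
permutations of `A.V p₀`.
-/

set_option autoImplicit false

open Set Filter Topology

namespace Pool.Agent.QC.Grid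

section tr

variable {E : Type*} {W : Type} [TopologicalSpace E] (A : QC.LS E W)
  {T : Type*} [AddCommGroup T] [Module ℝ T] [TopologicalSpace T] [IsTopologicalAddGroup T]
  [ContinuousSMul ℝ T]

/-- `h` is continuous on `K` with values in the regular set -/
def Ok (h : T → E) (K : Set T) : Prop := ContinuousOn h K ∧ MapsTo h K A.X

variable {A} in
omit [AddCommGroup T] [Module ℝ T] [IsTopologicalAddGroup T] [ContinuousSMul ℝ T] in
theorem Ok.mono {h : T → E} {K K' : Set T} (H : Ok A h K) (hK : K' ⊆ K) : Ok A h K' :=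
  ⟨H.1.mono hK, H.2.mono_left hK⟩

/-- existence of parallel sections over convex sets -/
theorem exists_sec {h : T → E} {K : Set T} (hK : Convex ℝ K) (H : Ok A h K) {p : T} (hp : p ∈ K)
    {w : W} (hw : w ∈ A.V (h p)) : ∃ u, A.Par h K u ∧ u p = w :=
  LS.Par.exists_star (hK.starConvex hp) hp H.1 H.2 hw

/-- uniqueness of parallel sections over convex sets -/
theorem sec_unique {h : T → E} {K : Set T} (hK : Convex ℝ K) (H : Ok A h K) {u u' : T → W}
    (hu : A.Par h K u) (hu' : A.Par h K u') {p q : T} (hp : p ∈ K) (hq : q ∈ K)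
    (he : u p = u' p) : u q = u' q :=
  LS.Par.unique hK.isPreconnected H.1 H.2 hu hu' hp he hq

/-- the transport from `p` to `q` -/
noncomputable def tran (h : T → E) (p q : T) (H : Ok A h (segment ℝ p q)) :
    A.V (h p) ≃ A.V (h q) where
  toFun w := ⟨(exists_sec A (convex_segment p q) H (left_mem_segment ℝ p q) w.2).choose q,
    (exists_sec A (convex_segment p q) H (left_mem_segment ℝ p q) w.2).choose_spec.1.mem
      (right_mem_segment ℝ p q)⟩
  invFun w := ⟨(exists_sec A (convex_segment p q) H (right_mem_segment ℝ p q) w.2).choose p,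
    (exists_sec A (convex_segment p q) H (right_mem_segment ℝ p q) w.2).choose_spec.1.mem
      (left_mem_segment ℝ p q)⟩
  left_inv w := by
    have h1 := (exists_sec A (convex_segment p q) H (left_mem_segment ℝ p q) w.2).choose_spec
    set u := (exists_sec A (convex_segment p q) H (left_mem_segment ℝ p q) w.2).choose
    have hm : u q ∈ A.V (h q) := h1.1.mem (right_mem_segment ℝ p q)
    have h2 := (exists_sec A (convex_segment p q) H (right_mem_segment ℝ p q) hm).choose_spec
    apply Subtype.ext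
    change (exists_sec A (convex_segment p q) H (right_mem_segment ℝ p q) hm).choose p = w
    rw [← h1.2]
    exact sec_unique A (convex_segment p q) H h2.1 h1.1 (right_mem_segment ℝ p q)
      (left_mem_segment ℝ p q) h2.2
  right_inv w := by
    have h1 := (exists_sec A (convex_segment p q) H (right_mem_segment ℝ p q) w.2).choose_spec
    set u := (exists_sec A (convex_segment p q) H (right_mem_segment ℝ p q) w.2).choose
    have hm : u p ∈ A.V (h p) := h1.1.mem (left_mem_segment ℝ p q)
    have h2 := (exists_sec A (convex_segment p q) H (left_mem_segment ℝ p q) hm).choose_spec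
    apply Subtype.ext
    change (exists_sec A (convex_segment p q) H (left_mem_segment ℝ p q) hm).choose q = w
    rw [← h1.2]
    exact sec_unique A (convex_segment p q) H h2.1 h1.1 (left_mem_segment ℝ p q)
      (right_mem_segment ℝ p q) h2.2

theorem tran_apply {h : T → E} {p q : T} (H : Ok A h (segment ℝ p q)) {u : T → W}
    (hu : A.Par h (segment ℝ p q) u) (w : A.V (h p)) (hw : u p = w) :
    (tran A h p q H w : W) = u q := by
  have h1 := (exists_sec A (convex_segment p q) H (left_mem_segment ℝ p q) w.2).choose_spec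
  exact sec_unique A (convex_segment p q) H h1.1 hu (left_mem_segment ℝ p q)
    (right_mem_segment ℝ p q) (h1.2.trans hw.symm)

/-- the fibre over `p` is in bijection with the fibre over `p₀` -/
def Good (p₀ p : E) : Prop := Nonempty (A.V p ≃ A.V p₀)

/-- the chosen bijection -/
noncomputable def cod {p₀ p : E} (g : Good A p₀ p) : A.V p ≃ A.V p₀ := Classical.choice g

/-- `x` is the code of the element `w` of the fibre over `p` -/
def Enc (p₀ p : E) (w : W) (x : A.V p₀) : Prop :=
  ∃ (g : Good A p₀ p) (hw : w ∈ A.V p), cod A g ⟨w, hw⟩ = x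

open Classical in
/-- the transport as a permutation of the fibre over `p₀` -/
noncomputable def trg (p₀ : E) (h : T → E) (p q : T) : Equiv.Perm (A.V p₀) :=
  if H : Ok A h (segment ℝ p q) ∧ Good A p₀ (h p) ∧ Good A p₀ (h q) then
    ((cod A H.2.1).symm.trans (tran A h p q H.1)).trans (cod A H.2.2)
  else 1

variable {A} {p₀ : E}

theorem Enc.inj {p : E} {w w' : W} {x : A.V p₀} (h : Enc A p₀ p w x) (h' : Enc A p₀ p w' x) :
    w = w' := by
  obtain ⟨g, hw, h1⟩ := h
  obtain ⟨g', hw', h2⟩ := h'
  have h3 := (cod A g).injective (h1.trans h2.symm)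
  exact congrArg Subtype.val h3

theorem Enc.fn {p : E} {w : W} {x y : A.V p₀} (h : Enc A p₀ p w x) (h' : Enc A p₀ p w y) :
    x = y := by
  obtain ⟨g, hw, h1⟩ := h
  obtain ⟨g', hw', h2⟩ := h'
  exact h1.symm.trans h2

theorem Good.enc {p : E} (g : Good A p₀ p) {w : W} (hw : w ∈ A.V p) : ∃ x, Enc A p₀ p w x :=
  ⟨_, g, hw, rfl⟩

theorem Good.dec {p : E} (g : Good A p₀ p) (x : A.V p₀) : ∃ w, Enc A p₀ p w x :=
  ⟨((cod A g).symm x : A.V p), g, ((cod A g).symm x).2, by simp⟩

theorem Good.refl : Good A p₀ p₀ := ⟨Equiv.refl _⟩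

theorem good_iff {h : T → E} {p q : T} (H : Ok A h (segment ℝ p q)) :
    Good A p₀ (h p) ↔ Good A p₀ (h q) := by
  constructor
  · rintro ⟨e⟩
    exact ⟨(tran A h p q H).symm.trans e⟩
  · rintro ⟨e⟩
    exact ⟨(tran A h p q H).trans e⟩

/-- transport of codes -/
theorem Enc.trg {h : T → E} {p q : T} (H : Ok A h (segment ℝ p q)) {u : T → W}
    (hu : A.Par h (segment ℝ p q) u) {x : A.V p₀} (hx : Enc A p₀ (h p) (u p) x) :
    Enc A p₀ (h q) (u q) (trg A p₀ h p q x) := by
  obtain ⟨g, hw, rfl⟩ := hx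
  have g' : Good A p₀ (h q) := (good_iff H).1 g
  refine ⟨g', hu.mem (right_mem_segment ℝ p q), ?_⟩
  unfold Grid.trg
  rw [dif_pos ⟨H, g, g'⟩]
  simp only [Equiv.trans_apply, Equiv.symm_apply_apply]
  congr 1
  apply Subtype.ext
  exact (tran_apply A H hu ⟨u p, hw⟩ rfl).symm

/-- transport of codes, version with a bigger set -/
theorem Enc.trg' {h : T → E} {p q : T} {K : Set T} (H : Ok A h K) (hK : segment ℝ p q ⊆ K)
    {u : T → W} (hu : A.Par h K u) {x : A.V p₀} (hx : Enc A p₀ (h p) (u p) x) :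
    Enc A p₀ (h q) (u q) (Grid.trg A p₀ h p q x) :=
  Enc.trg (H.mono hK) (hu.mono hK) hx

theorem trg_bad {h : T → E} {p q : T} (hb : ¬ Good A p₀ (h p)) : trg A p₀ h p q = 1 := by
  unfold trg
  rw [dif_neg]
  exact fun h' => hb h'.2.1

/-- composition of transports in a convex set -/
theorem trg_comp {h : T → E} {K : Set T} (hK : Convex ℝ K) (H : Ok A h K) {a b c : T}
    (ha : a ∈ K) (hb : b ∈ K) (hc : c ∈ K) :
    trg A p₀ h b c * trg A p₀ h a b = trg A p₀ h a c := by
  have sab : segment ℝ a b ⊆ K := hK.segment_subset ha hb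
  have sbc : segment ℝ b c ⊆ K := hK.segment_subset hb hc
  have sac : segment ℝ a c ⊆ K := hK.segment_subset ha hc
  by_cases g : Good A p₀ (h a)
  · ext1 x
    obtain ⟨w, hw⟩ := g.dec x
    obtain ⟨g', hw', _⟩ := id hw
    obtain ⟨u, hu, hua⟩ := exists_sec A hK H ha hw'
    have h1 : Enc A p₀ (h a) (u a) x := by rw [hua]; exact hw
    have h2 := Enc.trg' H sab hu h1
    have h3 := Enc.trg' H sbc hu h2
    have h4 := Enc.trg' H sac hu h1
    exact h3.fn h4
  · have gb : ¬ Good A p₀ (h b) := fun g' => g ((good_iff (H.mono sab)).2 g')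
    rw [trg_bad gb, trg_bad g, trg_bad g, one_mul]

end tr

section ls

variable {E : Type*} {W : Type} [TopologicalSpace E] (A : QC.LS E W) (p₀ : E)

theorem slice_s {X : Set (ℝ × ℂ)} {h : ℝ × ℂ → E} (H : Ok A h X) (s : ℝ) {K : Set ℂ}
    (hK : ∀ z ∈ K, (s, z) ∈ X) : Ok A (fun z => h (s, z)) K :=
  ⟨H.1.comp (by fun_prop) hK, fun z hz => H.2 (hK z hz)⟩

theorem slice_t {X : Set (ℝ × ℂ)} {h : ℝ × ℂ → E} (H : Ok A h X) (z : ℂ) {K : Set ℝ}
    (hK : ∀ s ∈ K, (s, z) ∈ X) : Ok A (fun s => h (s, z)) K :=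
  ⟨H.1.comp (by fun_prop) hK, fun s hs => H.2 (hK s hs)⟩

/-- the group valued local system -/
noncomputable def toLS (X : Set (ℝ × ℂ)) (h : ℝ × ℂ → E) (H : Ok A h X) :
    LS X (Equiv.Perm (A.V p₀)) where
  trs s a b := trg A p₀ (fun z => h (s, z)) b a
  trt z s₁ s₂ := trg A p₀ (fun s => h (s, z)) s₂ s₁
  tri := by
    intro s a b c hX
    exact trg_comp (convex_convexHull ℝ _) (slice_s A H s hX)
      (subset_convexHull ℝ _ (by simp)) (subset_convexHull ℝ _ (by simp))
      (subset_convexHull ℝ _ (by simp))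
  trt_comp := by
    intro z s₁ s₂ s₃ hX
    exact trg_comp (convex_convexHull ℝ _) (slice_t A H z hX)
      (subset_convexHull ℝ _ (by simp)) (subset_convexHull ℝ _ (by simp))
      (subset_convexHull ℝ _ (by simp))
  sq := by
    intro s₁ s₂ a b hX
    set K : Set (ℝ × ℂ) := uIcc s₁ s₂ ×ˢ segment ℝ a b with hKdef
    have hK : Convex ℝ K := (convex_uIcc s₁ s₂).prod (convex_segment a b)
    have HK : Ok A h K := H.mono fun p hp => hX p.1 hp.1 p.2 hp.2
    have m1a : (s₁, a) ∈ K := ⟨left_mem_uIcc, left_mem_segment ℝ a b⟩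
    have m1b : (s₁, b) ∈ K := ⟨left_mem_uIcc, right_mem_segment ℝ a b⟩
    have m2a : (s₂, a) ∈ K := ⟨right_mem_uIcc, left_mem_segment ℝ a b⟩
    have m2b : (s₂, b) ∈ K := ⟨right_mem_uIcc, right_mem_segment ℝ a b⟩
    have okz : ∀ s ∈ uIcc s₁ s₂, Ok A (fun z => h (s, z)) (segment ℝ b a) := fun s hs =>
      slice_s A H s fun z hz => hX s hs z (by rwa [segment_symm])
    have oks : ∀ z ∈ segment ℝ a b, Ok A (fun s => h (s, z)) (segment ℝ s₂ s₁) := fun z hz =>
      slice_t A H z fun s hs => hX s (by rwa [segment_symm, segment_eq_uIcc] at hs) z hz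
    have parz : ∀ u, A.Par h K u → ∀ s ∈ uIcc s₁ s₂,
        A.Par (fun z => h (s, z)) (segment ℝ b a) fun z => u (s, z) := by
      intro u hu s hs
      exact hu.comp (g := fun z => (s, z)) (by fun_prop) fun z hz => ⟨hs, by rwa [segment_symm]⟩
    have pars : ∀ u, A.Par h K u → ∀ z ∈ segment ℝ a b,
        A.Par (fun s => h (s, z)) (segment ℝ s₂ s₁) fun s => u (s, z) := by
      intro u hu z hz
      exact hu.comp (g := fun s => (s, z)) (by fun_prop) fun s hs =>
        ⟨by rwa [segment_symm, segment_eq_uIcc] at hs, hz⟩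
    by_cases g : Good A p₀ (h (s₂, b))
    · ext1 x
      obtain ⟨w, hw⟩ := g.dec x
      obtain ⟨g', hw', _⟩ := id hw
      obtain ⟨u, hu, hua⟩ := exists_sec A hK HK m2b hw'
      have h1 : Enc A p₀ (h (s₂, b)) (u (s₂, b)) x := by rw [hua]; exact hw
      have h2 := Enc.trg (h := fun s => h (s, b)) (oks b (right_mem_segment ℝ a b))
        (pars u hu b (right_mem_segment ℝ a b)) h1
      have h3 := Enc.trg (h := fun z => h (s₁, z)) (okz s₁ left_mem_uIcc)
        (parz u hu s₁ left_mem_uIcc) h2
      have h4 := Enc.trg (h := fun z => h (s₂, z)) (okz s₂ right_mem_uIcc)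
        (parz u hu s₂ right_mem_uIcc) h1
      have h5 := Enc.trg (h := fun s => h (s, a)) (oks a (left_mem_segment ℝ a b))
        (pars u hu a (left_mem_segment ℝ a b)) h4
      exact h3.fn h5
    · have g1 : ¬ Good A p₀ (h (s₁, b)) := fun g' => g
        ((good_iff (h := fun s => h (s, b)) (oks b (right_mem_segment ℝ a b))).2 g')
      have g2 : ¬ Good A p₀ (h (s₂, a)) := fun g' => g
        ((good_iff (h := fun z => h (s₂, z)) (okz s₂ right_mem_uIcc)).2 g')
      rw [trg_bad (h := fun z => h (s₁, z)) g1, trg_bad (h := fun s => h (s, b)) g,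
        trg_bad (h := fun s => h (s, a)) g2, trg_bad (h := fun z => h (s₂, z)) g]

end ls

end Pool.Agent.QC.Grid
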