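import Pool.Agent.QC.Grid.Rc
import Pool.Agent.QC.Grid.Tr

/-!
# Section 7: the loop round a label fixes a solution iff the solution extends over the label

`hol_iff`: for a solution `J` on the outer region of a plane system the loop of the box
`x₁, x₂, y₁, y₂` fixes the value of `J` at the corner iff `J` extends along the vertical line `x₁`
and over the box (`LUp`).
-/

set_option autoImplicit false

open Set Filter Topology Metric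

namespace Pool.Agent.QC.Grid

variable {E : Type*} [TopologicalSpace E] {F : Type} [AddCommGroup F] [Module ℂ F]

/-- the plane system `P` is the restriction of the local system `A` along `h` -/
structure Link (A : QC.LS E F) (h : ℂ → E) (P : PlaneSys F) : Prop where
  ok : Ok A h (sq P.R1 \ P.S)
  par : ∀ U g, IsOpen U → U ⊆ sq P.R1 → (∀ z ∈ U, z ∉ P.S) → P.Sol U g → A.Par h U g

/-- the vertical strip at `x₁` and the box -/
def NN (R1 x₁ x₂ y₁ y₂ ε : ℝ) : Set ℂ :=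
  Rc (x₁ - ε) (x₁ + ε) (y₂ - ε) R1 ∪ Rc (x₁ - ε) (x₂ + ε) (y₂ - ε) (y₁ + ε)

/-- `J` extends along the vertical line `x₁` and over the box -/
def LUp (P : PlaneSys F) (J : ℂ → F) (R x₁ x₂ y₁ y₂ : ℝ) : Prop :=
  ∃ ε > 0, NN P.R1 x₁ x₂ y₁ y₂ ε ⊆ sq P.R1 ∧ ∃ g, P.Sol (NN P.R1 x₁ x₂ y₁ y₂ ε) g ∧
    EqOn g J (Rc (x₁ - ε) (x₁ + ε) (R - ε) P.R1)

/-- the point `s` is the only possible singular point in the box, and the line `x₁` is free -/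
structure Bx (P : PlaneSys F) (R x₁ x₂ y₁ y₂ : ℝ) (s : ℂ) : Prop where
  R0 : P.R0 < R
  R1 : R < P.R1
  bx1 : -R ≤ x₁
  bx2 : x₂ ≤ R
  by1 : y₁ ≤ R
  by2 : -R ≤ y₂
  s1 : x₁ < s.re
  s2 : s.re < x₂
  s3 : s.im < y₁
  s4 : y₂ < s.im
  line : ∀ z ∈ P.S, z.re ≠ x₁
  only : ∀ z ∈ P.S, x₁ ≤ z.re → z.re ≤ x₂ → y₂ ≤ z.im → z.im ≤ y₁ → z = s

/-- small margins -/
theorem Bx.margin {P : PlaneSys F} {R x₁ x₂ y₁ y₂ : ℝ} {s : ℂ} (h : Bx P R x₁ x₂ y₁ y₂ s) :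
    ∀ᶠ ε in 𝓝[>] (0 : ℝ), 0 < ε ∧ ε < R - P.R0 ∧ ε < P.R1 - R ∧ ε < s.re - x₁ ∧ ε < x₂ - s.re ∧
      ε < y₁ - s.im ∧ ε < s.im - y₂ ∧ (∀ z ∈ P.S, ¬ (x₁ - ε < z.re ∧ z.re < x₁ + ε)) ∧
      ∀ z ∈ P.S, z ∈ Rc (x₁ - ε) (x₂ + ε) (y₂ - ε) (y₁ + ε) → z = s := by
  have pos : ∀ c : ℝ, 0 < c → ∀ᶠ ε in 𝓝[>] (0 : ℝ), ε < c := fun c hc =>
    nhdsWithin_le_nhds (eventually_lt_nhds hc)
  have h0 : ∀ᶠ ε in 𝓝[>] (0 : ℝ), 0 < ε := self_mem_nhdsWithin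
  refine h0.and ((pos _ (by linarith [h.R0])).and ((pos _ (by linarith [h.R1])).and
    ((pos _ (by linarith [h.s1])).and ((pos _ (by linarith [h.s2])).and
    ((pos _ (by linarith [h.s3])).and ((pos _ (by linarith [h.s4])).and ?_))))))
  refine Eventually.and ?_ ?_
  · rw [eventually_all_finite P.S_fin]
    intro z hz
    have h1 : 0 < |z.re - x₁| := abs_pos.2 (sub_ne_zero.2 (h.line z hz))
    filter_upwards [pos _ h1] with ε hε hc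
    have : |z.re - x₁| < ε := by
      rw [abs_lt]; constructor <;> linarith [hc.1, hc.2]
    linarith
  · rw [eventually_all_finite P.S_fin]
    intro z hz
    by_cases hzs : z = s
    · exact Eventually.of_forall fun ε _ => hzs
    have h1 : z.re < x₁ ∨ x₂ < z.re ∨ z.im < y₂ ∨ y₁ < z.im := by
      by_contra hcon
      push Not at hcon
      exact hzs (h.only z hz hcon.1 hcon.2.1 hcon.2.2.1 hcon.2.2.2)
    rcases h1 with h1 | h1 | h1 | h1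
    · filter_upwards [pos (x₁ - z.re) (by linarith)] with ε hε hc
      linarith [hc.1]
    · filter_upwards [pos (z.re - x₂) (by linarith)] with ε hε hc
      linarith [hc.2.1]
    · filter_upwards [pos (y₂ - z.im) (by linarith)] with ε hε hc
      linarith [hc.2.2.1]
    · filter_upwards [pos (z.im - y₁) (by linarith)] with ε hε hc
      linarith [hc.2.2.2]

theorem Rc_sq {R1 a b c d : ℝ} (h1 : -R1 ≤ a) (h2 : b ≤ R1) (h3 : -R1 ≤ c) (h4 : d ≤ R1) :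
    Rc a b c d ⊆ sq R1 := fun z hz =>
  ⟨abs_lt.2 ⟨by linarith [hz.1], by linarith [hz.2.1]⟩,
    abs_lt.2 ⟨by linarith [hz.2.2.1], by linarith [hz.2.2.2]⟩⟩

/-- horizontal segments -/
theorem seg_hor {x x' y : ℝ} {z : ℂ} (hz : z ∈ segment ℝ (⟨x, y⟩ : ℂ) ⟨x', y⟩) :
    z.re ∈ uIcc x x' ∧ z.im = y := by
  rw [segment_eq_image'] at hz
  obtain ⟨θ, hθ, rfl⟩ := hz
  refine ⟨?_, by simp⟩
  rw [← segment_eq_uIcc, segment_eq_image']
  exact ⟨θ, hθ, by simp⟩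

/-- vertical segments -/
theorem seg_ver {x y y' : ℝ} {z : ℂ} (hz : z ∈ segment ℝ (⟨x, y⟩ : ℂ) ⟨x, y'⟩) :
    z.re = x ∧ z.im ∈ uIcc y y' := by
  rw [segment_eq_image'] at hz
  obtain ⟨θ, hθ, rfl⟩ := hz
  refine ⟨by simp, ?_⟩
  rw [← segment_eq_uIcc, segment_eq_image']
  exact ⟨θ, hθ, by simp⟩

variable {A : QC.LS E F} {h₁ : ℂ → E} {P : PlaneSys F} {p₀ : E}

omit [AddCommGroup F] [Module ℂ F] in
/-- the transport back is the inverse -/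
theorem trg_back {h : ℂ → E} {p q : ℂ} (H : Ok A h (segment ℝ p q)) :
    trg A p₀ h q p * trg A p₀ h p q = 1 := by
  rw [trg_comp (convex_segment p q) H (left_mem_segment ℝ p q) (right_mem_segment ℝ p q)
    (left_mem_segment ℝ p q)]
  by_cases g : Good A p₀ (h p)
  · ext1 x
    obtain ⟨w, hw⟩ := g.dec x
    obtain ⟨g', hw', _⟩ := id hw
    obtain ⟨u, hu, hua⟩ := exists_sec A (convex_segment p q) H (left_mem_segment ℝ p q) hw'
    have h1 : Enc A p₀ (h p) (u p) x := by rw [hua]; exact hw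
    have h2 := Enc.trg' H ((convex_segment p q).segment_subset (left_mem_segment ℝ p q)
      (left_mem_segment ℝ p q)) hu h1
    exact h2.fn h1
  · exact trg_bad g

/-- the loop round the box, as a permutation of the fibre over `p₀` -/
noncomputable def holg (A : QC.LS E F) (p₀ : E) (h : ℂ → E) (R x₁ x₂ y₁ y₂ : ℝ) :
    Equiv.Perm (A.V p₀) :=
  trg A p₀ h ⟨x₁, R⟩ ⟨-R, R⟩ * trg A p₀ h ⟨x₁, y₁⟩ ⟨x₁, R⟩ * (trg A p₀ h ⟨x₂, y₁⟩ ⟨x₁, y₁⟩ *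
    trg A p₀ h ⟨x₂, y₂⟩ ⟨x₂, y₁⟩ * trg A p₀ h ⟨x₁, y₂⟩ ⟨x₂, y₂⟩ *
      trg A p₀ h ⟨x₁, y₁⟩ ⟨x₁, y₂⟩) *
    (trg A p₀ h ⟨x₁, R⟩ ⟨-R, R⟩ * trg A p₀ h ⟨x₁, y₁⟩ ⟨x₁, R⟩)⁻¹

omit [AddCommGroup F] [Module ℂ F] in
theorem hol_toLS {X : Set (ℝ × ℂ)} {h : ℝ × ℂ → E} (H : Ok A h X) (R s x₁ x₂ y₁ y₂ : ℝ) :
    (toLS A p₀ X h H).hol R s x₁ x₂ y₁ y₂ = holg A p₀ (fun z => h (s, z)) R x₁ x₂ y₁ y₂ := rfl

/-- THE LOOP AND THE EXTENSION -/
theorem hol_iff (hl : Link A h₁ P) {R x₁ x₂ y₁ y₂ : ℝ} {s : ℂ} (hb : Bx P R x₁ x₂ y₁ y₂ s)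
    {J : ℂ → F} (hJ : P.Sol P.ann J) {x : A.V p₀} (hx : Enc A p₀ (h₁ ⟨-R, R⟩) (J ⟨-R, R⟩) x) :
    holg A p₀ h₁ R x₁ x₂ y₁ y₂ x = x ↔ LUp P J R x₁ x₂ y₁ y₂ := by
  have hR0 := P.hR0
  have b0 := hb.R0
  have b1 := hb.R1
  have c1 := hb.bx1
  have c2 := hb.bx2
  have c3 := hb.by1
  have c4 := hb.by2
  have d1 := hb.s1
  have d2 := hb.s2
  have d3 := hb.s3
  have d4 := hb.s4
  have hlt : R - (R - P.R0) = P.R0 := by ring
  -- the outer region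
  have annS : ∀ z ∈ P.ann, z ∉ P.S := fun z hz => P.S_disj_ann hz
  have annsub : P.ann ⊆ sq P.R1 := fun z hz => hz.1
  have Jpar : A.Par h₁ P.ann J := hl.par _ _ P.isOpen_ann annsub annS hJ
  have okann : Ok A h₁ P.ann := hl.ok.mono fun z hz => ⟨hz.1, annS z hz⟩
  have topsub : segment ℝ (⟨-R, R⟩ : ℂ) ⟨x₁, R⟩ ⊆ P.ann := by
    intro z hz
    obtain ⟨k1, k2⟩ := seg_hor hz
    rw [uIcc_of_le c1] at k1
    refine ⟨⟨abs_lt.2 ⟨by linarith [k1.1], by linarith [k1.2]⟩, by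
      rw [k2]; exact abs_lt.2 ⟨by linarith, b1⟩⟩, fun hc => ?_⟩
    have := (abs_le.1 hc.2).2
    linarith
  -- the segments avoid `S`
  have okS : ∀ K : Set ℂ, (∀ z ∈ K, z ∈ sq P.R1 ∧ z ∉ P.S) → Ok A h₁ K := fun K hK =>
    hl.ok.mono fun z hz => hK z hz
  have sq' : ∀ z : ℂ, -R ≤ z.re → z.re ≤ R → -R ≤ z.im → z.im ≤ R → z ∈ sq P.R1 :=
    fun z k1 k2 k3 k4 => ⟨abs_lt.2 ⟨by linarith, by linarith⟩, abs_lt.2 ⟨by linarith, by linarith⟩⟩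
  have okver : Ok A h₁ (segment ℝ (⟨x₁, R⟩ : ℂ) ⟨x₁, y₁⟩) := okS _ fun z hz => by
    obtain ⟨k1, k2⟩ := seg_ver hz
    rw [uIcc_of_ge c3] at k2
    exact ⟨sq' z (by linarith) (by linarith) (by linarith [k2.1]) k2.2,
      fun hc => hb.line z hc k1⟩
  have okl : Ok A h₁ (segment ℝ (⟨x₁, y₁⟩ : ℂ) ⟨x₁, y₂⟩) := okS _ fun z hz => by
    obtain ⟨k1, k2⟩ := seg_ver hz
    rw [uIcc_of_ge (by linarith)] at k2
    exact ⟨sq' z (by linarith) (by linarith) (by linarith [k2.1]) (by linarith [k2.2]),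
      fun hc => hb.line z hc k1⟩
  have okb : Ok A h₁ (segment ℝ (⟨x₁, y₂⟩ : ℂ) ⟨x₂, y₂⟩) := okS _ fun z hz => by
    obtain ⟨k1, k2⟩ := seg_hor hz
    rw [uIcc_of_le (by linarith)] at k1
    refine ⟨sq' z (by linarith [k1.1]) (by linarith [k1.2]) (by linarith) (by linarith),
      fun hc => ?_⟩
    have := hb.only z hc k1.1 k1.2 k2.ge (by linarith)
    rw [this] at k2
    linarith
  have okr : Ok A h₁ (segment ℝ (⟨x₂, y₂⟩ : ℂ) ⟨x₂, y₁⟩) := okS _ fun z hz => by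
    obtain ⟨k1, k2⟩ := seg_ver hz
    rw [uIcc_of_le (by linarith)] at k2
    refine ⟨sq' z (by linarith) (by linarith) (by linarith [k2.1]) (by linarith [k2.2]),
      fun hc => ?_⟩
    have := hb.only z hc (by linarith) k1.le k2.1 k2.2
    rw [this] at k1
    linarith
  have okt : Ok A h₁ (segment ℝ (⟨x₂, y₁⟩ : ℂ) ⟨x₁, y₁⟩) := okS _ fun z hz => by
    obtain ⟨k1, k2⟩ := seg_hor hz
    rw [uIcc_of_ge (by linarith)] at k1
    refine ⟨sq' z (by linarith [k1.1]) (by linarith [k1.2]) (by linarith) (by linarith),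
      fun hc => ?_⟩
    have := hb.only z hc k1.1 k1.2 (by linarith) k2.le
    rw [this] at k2
    linarith
  -- codes at the top and at the start of the box
  have hxa := Enc.trg' okann topsub Jpar hx
  set xa := trg A p₀ h₁ ⟨-R, R⟩ ⟨x₁, R⟩ x with hxadef
  set xb := trg A p₀ h₁ ⟨x₁, R⟩ ⟨x₁, y₁⟩ xa with hxbdef
  have e1 : trg A p₀ h₁ ⟨x₁, R⟩ ⟨-R, R⟩ xa = x := by
    have := trg_back (p₀ := p₀) (okann.mono topsub)
    have h2 := congrArg (fun f => f x) this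
    simpa using h2
  have e2 : trg A p₀ h₁ ⟨x₁, y₁⟩ ⟨x₁, R⟩ xb = xa := by
    have := trg_back (p₀ := p₀) okver
    have h2 := congrArg (fun f => f xa) this
    simpa using h2
  have e3 : (trg A p₀ h₁ ⟨x₁, R⟩ ⟨-R, R⟩ * trg A p₀ h₁ ⟨x₁, y₁⟩ ⟨x₁, R⟩) xb = x := by
    rw [Equiv.Perm.mul_apply, e2, e1]
  set p := trg A p₀ h₁ ⟨x₁, R⟩ ⟨-R, R⟩ * trg A p₀ h₁ ⟨x₁, y₁⟩ ⟨x₁, R⟩ with hp
  set x3 := trg A p₀ h₁ ⟨x₂, y₂⟩ ⟨x₂, y₁⟩ (trg A p₀ h₁ ⟨x₁, y₂⟩ ⟨x₂, y₂⟩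
    (trg A p₀ h₁ ⟨x₁, y₁⟩ ⟨x₁, y₂⟩ xb)) with hx3
  have e4 : holg A p₀ h₁ R x₁ x₂ y₁ y₂ x = x ↔ trg A p₀ h₁ ⟨x₂, y₁⟩ ⟨x₁, y₁⟩ x3 = xb := by
    have k1 : holg A p₀ h₁ R x₁ x₂ y₁ y₂ x = p (trg A p₀ h₁ ⟨x₂, y₁⟩ ⟨x₁, y₁⟩ x3) := by
      have k2 : p⁻¹ x = xb := by rw [← e3, Equiv.Perm.inv_def, Equiv.symm_apply_apply]
      unfold holg
      rw [← hp, Equiv.Perm.mul_apply, Equiv.Perm.mul_apply, k2]
      rfl
    rw [k1]
    constructor
    · intro k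
      exact p.injective (k.trans e3.symm)
    · intro k
      rw [k, e3]
  rw [e4]
  constructor
  · -- the loop fixes: extension
    intro hfix
    obtain ⟨ε, hε, m1, m2, m3, m4, m5, m6, m7, m8⟩ := hb.margin.exists
    have v1sq : Rc (x₁ - ε) (x₁ + ε) (-P.R1) P.R1 ⊆ sq P.R1 :=
      Rc_sq (by linarith) (by linarith) le_rfl le_rfl
    obtain ⟨g1, hg1, eg1⟩ := extRc (P := P) (a := x₁ - ε) (b := x₁ + ε) (c := -P.R1) (d := P.R1)
      v1sq (fun z hz hzS => m7 z hzS ⟨hz.1, hz.2.1⟩) le_rfl le_rfl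
      (by linarith : -P.R1 ≤ R - ε) le_rfl (by linarith) (by linarith)
      (P.mono (V := P.ann) (isOpen_Rc (x₁ - ε) (x₁ + ε) (R - ε) P.R1) (fun z hz =>
        ⟨v1sq (Rc_mono le_rfl le_rfl (by linarith) le_rfl hz), fun hc => by
          have := (abs_le.1 hc.2).2
          linarith [hz.2.2.1]⟩) hJ)
    have bsq : Rc (x₁ - ε) (x₂ + ε) (y₂ - ε) (y₁ + ε) ⊆ sq P.R1 :=
      Rc_sq (by linarith) (by linarith) (by linarith) (by linarith)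
    have hS' : ∀ z ∈ Rc (x₁ - ε) (x₂ + ε) (y₂ - ε) (y₁ + ε), z ∈ P.S → z = ⟨s.re, s.im⟩ :=
      fun z hz hzS => m8 z hzS hz
    obtain ⟨gT, hgT, egT⟩ := extRc (P := P) (a := x₁ - ε) (b := x₂ + ε) (c := s.im) (d := y₁ + ε)
      ((Rc_mono le_rfl le_rfl (by linarith) le_rfl).trans bsq) (fun z hz hzS => by
        have := hS' z (Rc_mono le_rfl le_rfl (by linarith) le_rfl hz) hzS
        rw [this] at hz
        exact lt_irrefl _ hz.2.2.1) le_rfl (by linarith : x₁ + ε ≤ x₂ + ε) le_rfl le_rfl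
      (by linarith) (by linarith)
      (P.mono (isOpen_Rc (x₁ - ε) (x₁ + ε) s.im (y₁ + ε))
        (Rc_mono le_rfl le_rfl (by linarith) (by linarith)) hg1)
    obtain ⟨gL, gB, gR, hL, hB, hRt, eL, eB, eR⟩ := four (P := P) (a := x₁ - ε) (b := x₂ + ε)
      (c := y₂ - ε) (d := y₁ + ε) (r := s.re) (t := s.im) (by linarith) (by linarith)
      (by linarith) (by linarith) bsq hS' hgT
    have parR : ∀ {a b c d : ℝ} {g : ℂ → F}, P.Sol (Rc a b c d) g →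
        Rc a b c d ⊆ sq P.R1 → (∀ z ∈ Rc a b c d, z ∉ P.S) → A.Par h₁ (Rc a b c d) g :=
      fun hg k1 k2 => hl.par _ _ (isOpen_Rc _ _ _ _) k1 k2 hg
    have frL : ∀ z ∈ Rc (x₁ - ε) s.re (y₂ - ε) (y₁ + ε), z ∉ P.S := fun z hz hzS => by
      have := hS' z (Rc_mono le_rfl (by linarith) le_rfl le_rfl hz) hzS
      rw [this] at hz
      exact lt_irrefl _ hz.2.1
    have frB : ∀ z ∈ Rc (x₁ - ε) (x₂ + ε) (y₂ - ε) s.im, z ∉ P.S := fun z hz hzS => by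
      have := hS' z (Rc_mono le_rfl le_rfl le_rfl (by linarith) hz) hzS
      rw [this] at hz
      exact lt_irrefl _ hz.2.2.2
    have frR : ∀ z ∈ Rc s.re (x₂ + ε) (y₂ - ε) (y₁ + ε), z ∉ P.S := fun z hz hzS => by
      have := hS' z (Rc_mono (by linarith) le_rfl le_rfl le_rfl hz) hzS
      rw [this] at hz
      exact lt_irrefl _ hz.1
    have frT : ∀ z ∈ Rc (x₁ - ε) (x₂ + ε) s.im (y₁ + ε), z ∉ P.S := fun z hz hzS => by
      have := hS' z (Rc_mono le_rfl le_rfl (by linarith) le_rfl hz) hzS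
      rw [this] at hz
      exact lt_irrefl _ hz.2.2.1
    have pL := parR hL ((Rc_mono le_rfl (by linarith) le_rfl le_rfl).trans bsq) frL
    have pB := parR hB ((Rc_mono le_rfl le_rfl le_rfl (by linarith)).trans bsq) frB
    have pR := parR hRt ((Rc_mono (by linarith) le_rfl le_rfl le_rfl).trans bsq) frR
    have pT := parR hgT ((Rc_mono le_rfl le_rfl (by linarith) le_rfl).trans bsq) frT
    -- the code at the start of the box
    have p1 : A.Par h₁ (Rc (x₁ - ε) (x₁ + ε) (-P.R1) P.R1) g1 :=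
      parR hg1 v1sq fun z hz hzS => m7 z hzS ⟨hz.1, hz.2.1⟩
    have hsub1 : segment ℝ (⟨x₁, R⟩ : ℂ) ⟨x₁, y₁⟩ ⊆ Rc (x₁ - ε) (x₁ + ε) (-P.R1) P.R1 := by
      intro z hz
      obtain ⟨k1, k2⟩ := seg_ver hz
      rw [uIcc_of_ge c3] at k2
      exact ⟨by linarith, by linarith, by linarith [k2.1], by linarith [k2.2]⟩
    have hxa' : Enc A p₀ (h₁ ⟨x₁, R⟩) (g1 ⟨x₁, R⟩) xa := by
      rw [eg1 (show (⟨x₁, R⟩ : ℂ) ∈ Rc (x₁ - ε) (x₁ + ε) (R - ε) P.R1 from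
        ⟨by simp only; linarith, by simp only; linarith, by simp only; linarith, b1⟩)]
      exact hxa
    have hxb : Enc A p₀ (h₁ ⟨x₁, y₁⟩) (g1 ⟨x₁, y₁⟩) xb :=
      Enc.trg okver (p1.mono hsub1) hxa'
    have v1 : g1 ⟨x₁, y₁⟩ = gT ⟨x₁, y₁⟩ := (egT (show (⟨x₁, y₁⟩ : ℂ) ∈ _ from
      ⟨by simp only; linarith, by simp only; linarith, by simp only; linarith,
        by simp only; linarith⟩)).symm
    have v2 : gT ⟨x₁, y₁⟩ = gL ⟨x₁, y₁⟩ := (eL (show (⟨x₁, y₁⟩ : ℂ) ∈ _ from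
      ⟨by simp only; linarith, by simp only; linarith, by simp only; linarith,
        by simp only; linarith⟩)).symm
    have v3 : gL ⟨x₁, y₂⟩ = gB ⟨x₁, y₂⟩ := (eB (show (⟨x₁, y₂⟩ : ℂ) ∈ _ from
      ⟨by simp only; linarith, by simp only; linarith, by simp only; linarith,
        by simp only; linarith⟩)).symm
    have v4 : gB ⟨x₂, y₂⟩ = gR ⟨x₂, y₂⟩ := (eR (show (⟨x₂, y₂⟩ : ℂ) ∈ _ from
      ⟨by simp only; linarith, by simp only; linarith, by simp only; linarith,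
        by simp only; linarith⟩)).symm
    have k1 : Enc A p₀ (h₁ ⟨x₁, y₂⟩) (gL ⟨x₁, y₂⟩) (trg A p₀ h₁ ⟨x₁, y₁⟩ ⟨x₁, y₂⟩ xb) := by
      refine Enc.trg okl (pL.mono fun z hz => ?_) (by rw [← v2, ← v1]; exact hxb)
      obtain ⟨k1, k2⟩ := seg_ver hz
      rw [uIcc_of_ge (by linarith)] at k2
      exact ⟨by linarith, by linarith, by linarith [k2.1], by linarith [k2.2]⟩
    have k2 : Enc A p₀ (h₁ ⟨x₂, y₂⟩) (gB ⟨x₂, y₂⟩) (trg A p₀ h₁ ⟨x₁, y₂⟩ ⟨x₂, y₂⟩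
        (trg A p₀ h₁ ⟨x₁, y₁⟩ ⟨x₁, y₂⟩ xb)) := by
      refine Enc.trg okb (pB.mono fun z hz => ?_) (by rw [← v3]; exact k1)
      obtain ⟨k1, k2⟩ := seg_hor hz
      rw [uIcc_of_le (by linarith)] at k1
      exact ⟨by linarith [k1.1], by linarith [k1.2], by linarith, by linarith⟩
    have k3 : Enc A p₀ (h₁ ⟨x₂, y₁⟩) (gR ⟨x₂, y₁⟩) x3 := by
      refine Enc.trg okr (pR.mono fun z hz => ?_) (by rw [← v4]; exact k2)
      obtain ⟨k1, k2⟩ := seg_ver hz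
      rw [uIcc_of_le (by linarith)] at k2
      exact ⟨by linarith, by linarith, by linarith [k2.1], by linarith [k2.2]⟩
    have okt' : Ok A h₁ (segment ℝ (⟨x₁, y₁⟩ : ℂ) ⟨x₂, y₁⟩) := by rwa [segment_symm]
    have k4 : Enc A p₀ (h₁ ⟨x₂, y₁⟩) (gT ⟨x₂, y₁⟩) (trg A p₀ h₁ ⟨x₁, y₁⟩ ⟨x₂, y₁⟩ xb) := by
      refine Enc.trg okt' (pT.mono fun z hz => ?_) (by rw [← v1]; exact hxb)
      obtain ⟨k1, k2⟩ := seg_hor hz
      rw [uIcc_of_le (by linarith)] at k1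
      exact ⟨by linarith [k1.1], by linarith [k1.2], by linarith, by linarith⟩
    have k5 : trg A p₀ h₁ ⟨x₁, y₁⟩ ⟨x₂, y₁⟩ xb = x3 := by
      rw [← hfix]
      have := trg_back (p₀ := p₀) okt
      have h2 := congrArg (fun f => f x3) this
      simpa using h2
    rw [k5] at k4
    have k6 : gR ⟨x₂, y₁⟩ = gT ⟨x₂, y₁⟩ := k3.inj k4
    have okRT : Ok A h₁ (Rc s.re (x₂ + ε) s.im (y₁ + ε)) := okS _ fun z hz =>
      ⟨bsq (Rc_mono (by linarith) le_rfl (by linarith) le_rfl hz),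
        frT z (Rc_mono (by linarith) le_rfl le_rfl le_rfl hz)⟩
    have eT : EqOn gR gT (Rc s.re (x₂ + ε) s.im (y₁ + ε)) := fun z hz =>
      sec_unique A (convex_Rc _ _ _ _) okRT (pR.mono (Rc_mono le_rfl le_rfl (by linarith) le_rfl))
        (pT.mono (Rc_mono (by linarith) le_rfl le_rfl le_rfl))
        (show (⟨x₂, y₁⟩ : ℂ) ∈ _ from ⟨by simp only; linarith, by simp only; linarith,
          by simp only; linarith, by simp only; linarith⟩) hz k6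
    obtain ⟨g, hg, eg⟩ := close4 (P := P) (a := x₁ - ε) (b := x₂ + ε) (c := y₂ - ε) (d := y₁ + ε)
      (r := s.re) (t := s.im) (by linarith) (by linarith) (by linarith) (by linarith) bsq hS'
      hgT hL hB hRt eL eB eR eT
    have hv : EqOn g1 g (Rc (x₁ - ε) (x₁ + ε) (y₂ - ε) (y₁ + ε)) := by
      refine uniqRc (P := P) (P.mono (isOpen_Rc _ _ _ _)
        (Rc_mono le_rfl le_rfl (by linarith) (by linarith)) hg1)
        (P.mono (isOpen_Rc _ _ _ _) (Rc_mono le_rfl (by linarith) le_rfl le_rfl) hg)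
        le_rfl le_rfl (by linarith : y₂ - ε ≤ s.im) le_rfl (by linarith) (by linarith)
        fun z hz => ?_
      rw [eg (Rc_mono le_rfl (by linarith) le_rfl le_rfl hz), egT hz]
    obtain ⟨G, hG, eG1, eG2⟩ := union2 (P := P) (isOpen_Rc (x₁ - ε) (x₁ + ε) (y₂ - ε) P.R1)
      (isOpen_Rc (x₁ - ε) (x₂ + ε) (y₂ - ε) (y₁ + ε))
      (P.mono (isOpen_Rc _ _ _ _) (Rc_mono le_rfl le_rfl (by linarith) le_rfl) hg1) hg
      (fun z hz => hv ⟨hz.1.1, hz.1.2.1, hz.1.2.2.1, hz.2.2.2.2⟩)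
    refine ⟨ε, hε, union_subset ((Rc_mono le_rfl le_rfl (by linarith) le_rfl).trans v1sq) bsq,
      G, hG, fun z hz => ?_⟩
    rw [eG1 (Rc_mono le_rfl le_rfl (by linarith) le_rfl hz), eg1 hz]
  · -- extension: the loop fixes
    rintro ⟨ε, hε, hN, g, hg, eg⟩
    have oN : IsOpen (NN P.R1 x₁ x₂ y₁ y₂ ε \ P.S) :=
      ((isOpen_Rc _ _ _ _).union (isOpen_Rc _ _ _ _)).sdiff P.S_fin.isClosed
    have pg : A.Par h₁ (NN P.R1 x₁ x₂ y₁ y₂ ε \ P.S) g :=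
      hl.par _ _ oN (fun z hz => hN hz.1) (fun z hz => hz.2) (P.mono oN sdiff_subset hg)
    have hxa' : Enc A p₀ (h₁ ⟨x₁, R⟩) (g ⟨x₁, R⟩) xa := by
      rw [eg (show (⟨x₁, R⟩ : ℂ) ∈ Rc (x₁ - ε) (x₁ + ε) (R - ε) P.R1 from
        ⟨by simp only; linarith, by simp only; linarith, by simp only; linarith, b1⟩)]
      exact hxa
    have hxb : Enc A p₀ (h₁ ⟨x₁, y₁⟩) (g ⟨x₁, y₁⟩) xb := by
      refine Enc.trg okver (pg.mono fun z hz => ?_) hxa'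
      obtain ⟨k1, k2⟩ := seg_ver hz
      rw [uIcc_of_ge c3] at k2
      exact ⟨Or.inl ⟨by linarith, by linarith, by linarith [k2.1], by linarith [k2.2]⟩,
        fun hc => hb.line z hc k1⟩
    have k1 : Enc A p₀ (h₁ ⟨x₁, y₂⟩) (g ⟨x₁, y₂⟩) (trg A p₀ h₁ ⟨x₁, y₁⟩ ⟨x₁, y₂⟩ xb) := by
      refine Enc.trg okl (pg.mono fun z hz => ?_) hxb
      obtain ⟨k1, k2⟩ := seg_ver hz
      rw [uIcc_of_ge (by linarith)] at k2
      exact ⟨Or.inr ⟨by linarith, by linarith, by linarith [k2.1], by linarith [k2.2]⟩,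
        fun hc => hb.line z hc k1⟩
    have k2 : Enc A p₀ (h₁ ⟨x₂, y₂⟩) (g ⟨x₂, y₂⟩) (trg A p₀ h₁ ⟨x₁, y₂⟩ ⟨x₂, y₂⟩
        (trg A p₀ h₁ ⟨x₁, y₁⟩ ⟨x₁, y₂⟩ xb)) := by
      refine Enc.trg okb (pg.mono fun z hz => ?_) k1
      obtain ⟨k1, k2⟩ := seg_hor hz
      rw [uIcc_of_le (by linarith)] at k1
      refine ⟨Or.inr ⟨by linarith [k1.1], by linarith [k1.2], by linarith, by linarith⟩,
        fun hc => ?_⟩
      have := hb.only z hc k1.1 k1.2 k2.ge (by linarith)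
      rw [this] at k2
      linarith
    have k3 : Enc A p₀ (h₁ ⟨x₂, y₁⟩) (g ⟨x₂, y₁⟩) x3 := by
      refine Enc.trg okr (pg.mono fun z hz => ?_) k2
      obtain ⟨k1, k2⟩ := seg_ver hz
      rw [uIcc_of_le (by linarith)] at k2
      refine ⟨Or.inr ⟨by linarith, by linarith, by linarith [k2.1], by linarith [k2.2]⟩,
        fun hc => ?_⟩
      have := hb.only z hc (by linarith) k1.le k2.1 k2.2
      rw [this] at k1
      linarith
    have k4 : Enc A p₀ (h₁ ⟨x₁, y₁⟩) (g ⟨x₁, y₁⟩) (trg A p₀ h₁ ⟨x₂, y₁⟩ ⟨x₁, y₁⟩ x3) := by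
      refine Enc.trg okt (pg.mono fun z hz => ?_) k3
      obtain ⟨k1, k2⟩ := seg_hor hz
      rw [uIcc_of_ge (by linarith)] at k1
      refine ⟨Or.inr ⟨by linarith [k1.1], by linarith [k1.2], by linarith, by linarith⟩,
        fun hc => ?_⟩
      have := hb.only z hc k1.1 k1.2 (by linarith) k2.le
      rw [this] at k2
      linarith
    exact k4.fn hxb

end Pool.Agent.QC.Grid
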