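import Pool.Agent.QC.Grid.Step

/-!
# Section 7: comparison of two moving configurations with the same order types

`grid`: if the weak orders of the real parts and of the imaginary parts of the labelled points agree
for `C` and `C'` at all times, then the comparison of the elements `lam` at time `0` gives the
comparison at time `1`. `out_top`, `out_bot`: the loops round a point.
-/

set_option autoImplicit false

open Set Filter Topology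

namespace Pool.Agent.QC.Grid

variable {M : ℕ} {R : ℝ}

private theorem ev_small {P : ℝ → Prop} (h : ∀ᶠ μ in 𝓝[>] (0 : ℝ), P μ) :
    ∃ μ₀ > 0, ∀ μ, 0 < μ → μ ≤ μ₀ → P μ := by
  rw [eventually_nhdsWithin_iff, Metric.eventually_nhds_iff] at h
  obtain ⟨ε, hε, h⟩ := h
  refine ⟨ε / 2, by positivity, fun μ h1 h2 => h ?_ h1⟩
  rw [Real.dist_eq, sub_zero, abs_of_pos h1]
  linarith

private theorem ev_gap (u v : ℝ) : ∀ᶠ μ in 𝓝[>] (0 : ℝ), u < v → u + 8 * μ ≤ v := by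
  by_cases h : u < v
  · have h1 : ∀ᶠ μ in 𝓝 (0 : ℝ), u + 8 * μ < v := by
      have h2 : Tendsto (fun μ : ℝ => u + 8 * μ) (𝓝 0) (𝓝 (u + 8 * 0)) := by
        exact (continuous_const.add (continuous_const.mul continuous_id)).tendsto 0
      exact h2.eventually_lt_const (by simpa using h)
    have h2 : ∀ᶠ μ in 𝓝[>] (0 : ℝ), u + 8 * μ < v := nhdsWithin_le_nhds h1
    exact h2.mono fun μ hμ _ => le_of_lt hμ
  · exact Eventually.of_forall fun μ h' => absurd h' h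

/-- existence of good constants near a time `s₀` -/
theorem near_exists (C : Conf M R) {s₀ : ℝ} (hs₀ : s₀ ∈ Icc (0 : ℝ) 1) :
    ∃ μ₀ > 0, ∀ μ, 0 < μ → μ ≤ μ₀ → ∃ ε > 0, ∀ s ∈ Icc (0 : ℝ) 1, |s - s₀| < ε →
      Near C μ s₀ s := by
  have h1 : ∀ᶠ μ in 𝓝[>] (0 : ℝ), (∀ i j, (C.z i s₀).re < (C.z j s₀).re →
      (C.z i s₀).re + 8 * μ ≤ (C.z j s₀).re) ∧ (∀ i j, (C.z i s₀).im < (C.z j s₀).im →
      (C.z i s₀).im + 8 * μ ≤ (C.z j s₀).im) ∧ (∀ j, |(C.z j s₀).re| < R →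
      |(C.z j s₀).re| + 8 * μ ≤ R) ∧ ∀ j, |(C.z j s₀).im| < R → |(C.z j s₀).im| + 8 * μ ≤ R := by
    refine Eventually.and ?_ (Eventually.and ?_ (Eventually.and ?_ ?_))
    · exact eventually_all.2 fun i => eventually_all.2 fun j => ev_gap _ _
    · exact eventually_all.2 fun i => eventually_all.2 fun j => ev_gap _ _
    · exact eventually_all.2 fun j => ev_gap _ _
    · exact eventually_all.2 fun j => ev_gap _ _
  obtain ⟨μ₀, hμ₀, hμ⟩ := ev_small h1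
  refine ⟨μ₀, hμ₀, fun μ hpos hle => ?_⟩
  obtain ⟨g1, g2, g3, g4⟩ := hμ μ hpos hle
  have h2 : ∀ᶠ s in 𝓝[Icc (0 : ℝ) 1] s₀, ∀ j, |(C.z j s).re - (C.z j s₀).re| ≤ μ ∧
      |(C.z j s).im - (C.z j s₀).im| ≤ μ := by
    refine eventually_all.2 fun j => ?_
    have h3 := (C.cont j s₀ hs₀)
    have h4 : ∀ᶠ s in 𝓝[Icc (0 : ℝ) 1] s₀, dist (C.z j s) (C.z j s₀) < μ :=
      h3.eventually (Metric.ball_mem_nhds _ hpos)
    refine h4.mono fun s hs => ?_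
    rw [Complex.dist_eq] at hs
    constructor
    · have := Complex.abs_re_le_norm (C.z j s - C.z j s₀)
      rw [Complex.sub_re] at this
      linarith
    · have := Complex.abs_im_le_norm (C.z j s - C.z j s₀)
      rw [Complex.sub_im] at this
      linarith
  rw [eventually_iff, Metric.mem_nhdsWithin_iff] at h2
  obtain ⟨ε, hε, h2⟩ := h2
  refine ⟨ε, hε, fun s hs hds => ⟨hpos, g1, g2, fun j => g3 j (C.re_lt s₀ hs₀ j),
    fun j => g4 j (C.im_lt s₀ hs₀ j), fun t ht => ?_⟩⟩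
  have ht1 : t ∈ Icc (0 : ℝ) 1 := by
    rw [mem_uIcc] at ht
    rcases ht with ht | ht
    · exact ⟨by linarith [hs₀.1, ht.1], by linarith [hs.2, ht.2]⟩
    · exact ⟨by linarith [hs.1, ht.1], by linarith [hs₀.2, ht.2]⟩
  refine ⟨ht1, ?_⟩
  apply h2 ⟨?_, ht1⟩
  rw [Metric.mem_ball, Real.dist_eq]
  rw [mem_uIcc] at ht
  rw [abs_lt] at hds ⊢
  rcases ht with ht | ht
  · constructor <;> linarith [ht.1, ht.2]
  · constructor <;> linarith [ht.1, ht.2]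

/-- The comparison theorem of section 7. -/
theorem grid (hR : 0 ≤ R) (C C' : Conf M R) (ho : ∀ s ∈ Icc (0 : ℝ) 1, SameAt C C' s) :
    ∃ δ₀ > 0, ∀ δ, 0 < δ → δ ≤ δ₀ → (∀ s ∈ Icc (0 : ℝ) 1, C.Side δ s ∧ C'.Side δ s) ∧
      ∀ (G : Type) [Group G] (S : LS (C.X δ) G) (S' : LS (C'.X δ) G) (g : G),
      Inv C C' S S' 0 g →
      Inv C C' S S' 1 (S'.trt (corner R) 1 0 * g * S.trt (corner R) 0 1) := by
  classical
  -- good data at every time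
  have hdata : ∀ s₀ : ℝ, ∃ μ > 0, ∃ ε > 0, s₀ ∈ Icc (0 : ℝ) 1 → ∀ s ∈ Icc (0 : ℝ) 1, |s - s₀| < ε →
      Near C μ s₀ s ∧ Near C' μ s₀ s := by
    intro s₀
    by_cases hs₀ : s₀ ∈ Icc (0 : ℝ) 1
    · obtain ⟨μ₁, hμ₁, h1⟩ := near_exists C hs₀
      obtain ⟨μ₂, hμ₂, h2⟩ := near_exists C' hs₀
      obtain ⟨ε₁, hε₁, h3⟩ := h1 (min μ₁ μ₂) (lt_min hμ₁ hμ₂) (min_le_left _ _)
      obtain ⟨ε₂, hε₂, h4⟩ := h2 (min μ₁ μ₂) (lt_min hμ₁ hμ₂) (min_le_right _ _)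
      exact ⟨min μ₁ μ₂, lt_min hμ₁ hμ₂, min ε₁ ε₂, lt_min hε₁ hε₂, fun _ s hs hd =>
        ⟨h3 s hs (lt_of_lt_of_le hd (min_le_left _ _)),
          h4 s hs (lt_of_lt_of_le hd (min_le_right _ _))⟩⟩
    · exact ⟨1, one_pos, 1, one_pos, fun h => absurd h hs₀⟩
  choose μ hμ ε hε hnear using hdata
  obtain ⟨T, hTI, hTc⟩ := (isCompact_Icc (a := (0 : ℝ)) (b := 1)).elim_nhds_subcover
    (fun s => Metric.ball s (ε s)) fun s _ => Metric.ball_mem_nhds s (hε s)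
  have hTne : T.Nonempty := by
    rw [Finset.nonempty_iff_ne_empty]
    rintro rfl
    have := hTc (show (0 : ℝ) ∈ Icc (0 : ℝ) 1 by simp)
    simp at this
  refine ⟨T.inf' hTne μ, ?_, ?_⟩
  · rw [gt_iff_lt, Finset.lt_inf'_iff]
    exact fun s _ => hμ s
  intro δ hδ hδle
  have hδμ : ∀ s ∈ T, δ ≤ μ s := fun s hs => hδle.trans (Finset.inf'_le μ hs)
  -- every time is near one of the finitely many
  have hcov : ∀ s ∈ Icc (0 : ℝ) 1, ∃ s₀ ∈ T, |s - s₀| < ε s₀ := by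
    intro s hs
    have := hTc hs
    rw [mem_iUnion₂] at this
    obtain ⟨s₀, h1, h2⟩ := this
    exact ⟨s₀, h1, by rwa [Metric.mem_ball, Real.dist_eq] at h2⟩
  have hSide : ∀ s ∈ Icc (0 : ℝ) 1, C.Side δ s ∧ C'.Side δ s := by
    intro s hs
    obtain ⟨s₀, h1, h2⟩ := hcov s hs
    have h3 := hnear s₀ (hTI s₀ h1) s hs h2
    exact ⟨h3.1.side hR hδ (hδμ s₀ h1) right_mem_uIcc, h3.2.side hR hδ (hδμ s₀ h1) right_mem_uIcc⟩
  refine ⟨hSide, ?_⟩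
  intro G _ S S' g h0
  have hull : ∀ {s₁ s₂ s₃ t : ℝ}, s₁ ∈ Icc (0 : ℝ) 1 → s₂ ∈ Icc (0 : ℝ) 1 → s₃ ∈ Icc (0 : ℝ) 1 →
      t ∈ convexHull ℝ {s₁, s₂, s₃} → t ∈ Icc (0 : ℝ) 1 := by
    intro s₁ s₂ s₃ t h1 h2 h3 ht
    refine convexHull_min ?_ (convex_Icc 0 1) ht
    intro w hw
    rcases hw with rfl | rfl | rfl
    · exact h1
    · exact h2
    · exact h3
  have tc : ∀ {s₁ s₂ s₃ : ℝ}, s₁ ∈ Icc (0 : ℝ) 1 → s₂ ∈ Icc (0 : ℝ) 1 → s₃ ∈ Icc (0 : ℝ) 1 →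
      S.trt (corner R) s₁ s₂ * S.trt (corner R) s₂ s₃ = S.trt (corner R) s₁ s₃ :=
    fun h1 h2 h3 => S.trt_comp _ _ _ _ fun t ht => corner_mem (hSide t (hull h1 h2 h3 ht)).1
  have tc' : ∀ {s₁ s₂ s₃ : ℝ}, s₁ ∈ Icc (0 : ℝ) 1 → s₂ ∈ Icc (0 : ℝ) 1 → s₃ ∈ Icc (0 : ℝ) 1 →
      S'.trt (corner R) s₁ s₂ * S'.trt (corner R) s₂ s₃ = S'.trt (corner R) s₁ s₃ :=
    fun h1 h2 h3 => S'.trt_comp _ _ _ _ fun t ht => corner_mem (hSide t (hull h1 h2 h3 ht)).2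
  have m0 : (0 : ℝ) ∈ Icc (0 : ℝ) 1 := by simp
  have m1 : (1 : ℝ) ∈ Icc (0 : ℝ) 1 := by simp
  set Pr : ℝ → Prop := fun s =>
    Inv C C' S S' s (S'.trt (corner R) s 0 * g * S.trt (corner R) 0 s) with hPr
  have hstep : ∀ s₀ ∈ T, ∀ s ∈ Icc (0 : ℝ) 1, |s - s₀| < ε s₀ → (Pr s₀ ↔ Pr s) := by
    intro s₀ h1 s hs hd
    have hn := hnear s₀ (hTI s₀ h1) s hs hd
    have hst := step hR hn.1 hn.2 (ho s₀ (hTI s₀ h1)) hδ (hδμ s₀ h1) S S'
      (S'.trt (corner R) s₀ 0 * g * S.trt (corner R) 0 s₀)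
    have e1 : S'.trt (corner R) s s₀ * (S'.trt (corner R) s₀ 0 * g * S.trt (corner R) 0 s₀) *
        S.trt (corner R) s₀ s = S'.trt (corner R) s 0 * g * S.trt (corner R) 0 s := by
      rw [← tc' hs (hTI s₀ h1) m0, ← tc m0 (hTI s₀ h1) hs]
      group
    rw [e1] at hst
    exact hst
  have hPr0 : Pr 0 := by
    have e1 : S.trt (corner R) 0 0 = 1 := trt_one S (corner_mem (hSide 0 m0).1)
    have e2 : S'.trt (corner R) 0 0 = 1 := trt_one S' (corner_mem (hSide 0 m0).2)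
    simp only [hPr]
    rw [e1, e2, one_mul, mul_one]
    exact h0
  have hconn : (Pr 0 ↔ Pr 1) := by
    refine isPreconnected_Icc.induction₂ (s := Icc (0 : ℝ) 1) (fun x y => (Pr x ↔ Pr y)) ?_ ?_ ?_
      m0 m1
    · intro x hx
      obtain ⟨s₀, h1, h2⟩ := hcov x hx
      have h3 : ∀ᶠ y in 𝓝[Icc (0 : ℝ) 1] x, y ∈ Metric.ball s₀ (ε s₀) :=
        nhdsWithin_le_nhds (Metric.isOpen_ball.mem_nhds
          (by rw [Metric.mem_ball, Real.dist_eq]; exact h2))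
      filter_upwards [h3, self_mem_nhdsWithin] with y hy hyI
      rw [Metric.mem_ball, Real.dist_eq] at hy
      rw [← hstep s₀ h1 x hx h2, ← hstep s₀ h1 y hyI hy]
    · intro x y z _ _ _ h1 h2
      exact h1.trans h2
    · intro x y _ _ h1
      exact h1.symm
  exact hconn.1 hPr0

end Pool.Agent.QC.Grid
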