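import Pool.Agent.QC.Grid.Main

/-!
# Section 7: the output of the grid argument

`Box C δ s w x₁ x₂ y₁ y₂`: the four free lines next to the label `w` at time `s`.
`Inv.hol`, `Inv.holb`: the loops round `w`, from above and from below (both pass on the left of
all points with the same real part), correspond to each other.
`chain`: the comparison theorem for a sequence of pieces.
-/

set_option autoImplicit false

open Set Filter Topology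

namespace Pool.Agent.QC.Grid

variable {M : ℕ} {R : ℝ}

/-- the four free lines next to the point `w`: `x₁` left of the column of `w`, `x₂` right of it,
`y₁` above the row of `w`, `y₂` below it. -/
structure Box (C : Conf M R) (δ s : ℝ) (w : Fin M) (x₁ x₂ y₁ y₂ : ℝ) : Prop where
  v1 : C.FV δ s x₁
  v2 : C.FV δ s x₂
  h1 : C.FH δ s y₁
  h2 : C.FH δ s y₂
  l1 : ∀ j, (C.z j s).re < x₁ ↔ (C.z j s).re < (C.z w s).re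
  l2 : ∀ j, (C.z j s).re < x₂ ↔ (C.z j s).re ≤ (C.z w s).re
  u1 : ∀ j, y₁ < (C.z j s).im ↔ (C.z w s).im < (C.z j s).im
  u2 : ∀ j, y₂ < (C.z j s).im ↔ (C.z w s).im ≤ (C.z j s).im

section one

variable {C : Conf M R} {μ s δ : ℝ} {w : Fin M} {x₁ x₂ y₁ y₂ : ℝ}

theorem Near.box (h : Near C μ s s) (hδ : 0 < δ) (hδμ : δ ≤ μ) (w : Fin M) :
    ∃ x₁ x₂ y₁ y₂, Box C δ s w x₁ x₂ y₁ y₂ := by
  have ht : s ∈ uIcc s s := left_mem_uIcc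
  obtain ⟨a1, a2⟩ := h.fvm hδμ ht w
  obtain ⟨b1, b2⟩ := h.fvp hδμ ht w
  obtain ⟨c1, c2⟩ := h.fhp hδ hδμ ht w
  obtain ⟨d1, d2⟩ := h.fhm hδ hδμ ht w
  refine ⟨_, _, _, _, a1, b1, c1, d1, fun j => ?_, fun j => ?_, fun j => ?_, fun j => ?_⟩
  · rw [← Conf.mem_L, a2, mem_lo]; rfl
  · rw [← Conf.mem_L, b2, mem_lop]; rfl
  · rw [← Conf.mem_U, c2, mem_up]; rfl
  · rw [← Conf.mem_U, d2, mem_upp]; rfl

/-- position of the four lines -/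
theorem Box.pos (h : Box C δ s w x₁ x₂ y₁ y₂) (hδ : 0 < δ) :
    x₁ + δ ≤ (C.z w s).re ∧ (C.z w s).re + δ ≤ x₂ ∧ (C.z w s).im + δ ≤ y₁ ∧
      y₂ + δ ≤ (C.z w s).im := by
  have a1 : ¬ (C.z w s).re < x₁ := fun h' => lt_irrefl _ ((h.l1 w).1 h')
  have a2 : (C.z w s).re < x₂ := (h.l2 w).2 le_rfl
  have a3 : ¬ y₁ < (C.z w s).im := fun h' => lt_irrefl _ ((h.u1 w).1 h')
  have a4 : y₂ < (C.z w s).im := (h.u2 w).2 le_rfl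
  have b1 := h.v1.2 w
  have b2 := h.v2.2 w
  have b3 := h.h1.2 w
  have b4 := h.h2.2 w
  rw [le_abs] at b1 b2 b3 b4
  refine ⟨?_, ?_, ?_, ?_⟩
  · rcases b1 with b | b <;> linarith
  · rcases b2 with b | b <;> linarith
  · rcases b3 with b | b <;> linarith
  · rcases b4 with b | b <;> linarith

/-- no other point in the rectangle -/
theorem Box.only (h : Box C δ s w x₁ x₂ y₁ y₂) (hs : s ∈ Icc (0 : ℝ) 1) {j : Fin M}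
    (hx : (C.z j s).re ∈ Icc x₁ x₂) (hy : (C.z j s).im ∈ Icc y₂ y₁) (hδ : 0 < δ) : j = w := by
  apply C.inj s hs
  have a1 : ¬ (C.z j s).re < (C.z w s).re := fun h' => not_lt.2 hx.1 ((h.l1 j).2 h')
  have b2 := h.v2.2 j
  have a2 : (C.z j s).re < x₂ := by
    rw [le_abs] at b2
    rcases b2 with b | b <;> linarith [hx.2]
  have a3 := (h.l2 j).1 a2
  have c1 : ¬ (C.z w s).im < (C.z j s).im := fun h' => not_lt.2 hy.2 ((h.u1 j).2 h')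
  have b4 := h.h2.2 j
  have c2 : y₂ < (C.z j s).im := by
    rw [le_abs] at b4
    rcases b4 with b | b <;> linarith [hy.1]
  have c3 := (h.u2 j).1 c2
  apply Complex.ext
  · linarith
  · linarith

/-- no point in the left strip -/
theorem Box.strip (h : Box C δ s w x₁ x₂ y₁ y₂) {j : Fin M} (hx : x₁ ≤ (C.z j s).re)
    (hy : (C.z j s).re < (C.z w s).re) : False :=
  absurd ((h.l1 j).2 hy) (not_lt.2 hx)

end one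

section two

variable {C C' : Conf M R} {s δ : ℝ} {w : Fin M} {x₁ x₂ y₁ y₂ x₁' x₂' y₁' y₂' : ℝ}

theorem Box.eqs (h : Box C δ s w x₁ x₂ y₁ y₂) (h' : Box C' δ s w x₁' x₂' y₁' y₂')
    (ho : SameAt C C' s) : C.L s x₁ = C'.L s x₁' ∧ C.L s x₂ = C'.L s x₂' ∧
      C.U s y₁ = C'.U s y₁' ∧ C.U s y₂ = C'.U s y₂' := by
  refine ⟨?_, ?_, ?_, ?_⟩
  · ext j
    rw [Conf.mem_L, Conf.mem_L, h.l1, h'.l1, (ho j w).1]
  · ext j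
    rw [Conf.mem_L, Conf.mem_L, h.l2, h'.l2, ← not_lt, ← not_lt, (ho w j).1]
  · ext j
    rw [Conf.mem_U, Conf.mem_U, h.u1, h'.u1, (ho w j).2]
  · ext j
    rw [Conf.mem_U, Conf.mem_U, h.u2, h'.u2, ← not_lt, ← not_lt, (ho j w).2]

variable {G : Type} [Group G] {S : LS (C.X δ) G} {S' : LS (C'.X δ) G} {g : G}

/-- the loops from above correspond -/
theorem Inv.hol (hI : Inv C C' S S' s g) (hs : C.Side δ s) (hs' : C'.Side δ s)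
    (ho : SameAt C C' s) (h : Box C δ s w x₁ x₂ y₁ y₂) (h' : Box C' δ s w x₁' x₂' y₁' y₂') :
    S'.hol R s x₁' x₂' y₁' y₂' = g * S.hol R s x₁ x₂ y₁ y₂ * g⁻¹ := by
  obtain ⟨e1, e2, e3, e4⟩ := h.eqs h' ho
  rw [hol_eq S hs h.v1 h.v2 h.h1 h.h2, hol_eq S' hs' h'.v1 h'.v2 h'.h1 h'.h2,
    hI x₁ y₁ x₁' y₁' h.v1 h.h1 h'.v1 h'.h1 e1 e3, hI x₂ y₁ x₂' y₁' h.v2 h.h1 h'.v2 h'.h1 e2 e3,
    hI x₂ y₂ x₂' y₂' h.v2 h.h2 h'.v2 h'.h2 e2 e4, hI x₁ y₂ x₁' y₂' h.v1 h.h2 h'.v1 h'.h2 e1 e4]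
  group

end two

/-- The loop from the corner down the left side, along the bottom side to `x₁`, up to `(x₁, y₂)`,
round the rectangle and back. -/
def LS.holb {X : Set (ℝ × ℂ)} {G : Type} [Group G] (S : LS X G) (R s x₁ x₂ y₁ y₂ : ℝ) : G :=
  S.trs s ⟨-R, R⟩ ⟨-R, -R⟩ * S.trs s ⟨-R, -R⟩ ⟨x₁, -R⟩ * S.trs s ⟨x₁, -R⟩ ⟨x₁, y₂⟩ *
    (S.trs s ⟨x₁, y₂⟩ ⟨x₂, y₂⟩ * S.trs s ⟨x₂, y₂⟩ ⟨x₂, y₁⟩ * S.trs s ⟨x₂, y₁⟩ ⟨x₁, y₁⟩ *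
      S.trs s ⟨x₁, y₁⟩ ⟨x₁, y₂⟩) *
    (S.trs s ⟨-R, R⟩ ⟨-R, -R⟩ * S.trs s ⟨-R, -R⟩ ⟨x₁, -R⟩ * S.trs s ⟨x₁, -R⟩ ⟨x₁, y₂⟩)⁻¹

theorem holb_eq {C : Conf M R} {δ : ℝ} {G : Type} [Group G] (S : LS (C.X δ) G)
    {s x₁ x₂ y₁ y₂ : ℝ} (hs : C.Side δ s) (hx1 : C.FV δ s x₁) (hy2 : C.FH δ s y₂) :
    S.holb R s x₁ x₂ y₁ y₂ = (S.lam R s x₁ (-R))⁻¹ * S.hol R s x₁ x₂ y₂ y₁ *
      S.lam R s x₁ (-R) := by
  have hR : |R| ≤ R := by rw [abs_of_nonneg hs.2.2.1]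
  have hR' : |-R| ≤ R := by rw [abs_neg, abs_of_nonneg hs.2.2.1]
  have e1 : S.trs s ⟨x₁, R⟩ ⟨x₁, -R⟩ * S.trs s ⟨x₁, -R⟩ ⟨x₁, y₂⟩ = S.trs s ⟨x₁, R⟩ ⟨x₁, y₂⟩ :=
    trs_ver S (freeV hs hx1 hR' hR) (mem_uIcc_of_abs hR) (mem_uIcc_of_abs hR')
      (mem_uIcc_of_abs hy2.1)
  have e2 : S.trs s ⟨-R, R⟩ ⟨-R, -R⟩ = (S.trs s ⟨-R, -R⟩ ⟨-R, R⟩)⁻¹ :=
    trs_inv S (freeV hs hs.FV_left hR hR')
  have e3 : S.trs s ⟨-R, -R⟩ ⟨x₁, -R⟩ = (S.trs s ⟨x₁, -R⟩ ⟨-R, -R⟩)⁻¹ :=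
    trs_inv S (freeH hs hs.FH_bot hR' hx1.1)
  unfold LS.holb LS.hol LS.lam
  rw [← e1, e2, e3]
  group

section three

variable {C C' : Conf M R} {s δ : ℝ} {w : Fin M} {x₁ x₂ y₁ y₂ x₁' x₂' y₁' y₂' : ℝ}

variable {G : Type} [Group G] {S : LS (C.X δ) G} {S' : LS (C'.X δ) G} {g : G}

private theorem U_bot (hs : C.Side δ s) (j : Fin M) : j ∈ C.U s (-R) := by
  rw [Conf.mem_U]
  have h1 := (hs.2.2.2 j).2
  have h2 := neg_abs_le (C.z j s).im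
  linarith [hs.2.1]

/-- the loops from below correspond -/
theorem Inv.holb (hI : Inv C C' S S' s g) (hs : C.Side δ s) (hs' : C'.Side δ s)
    (ho : SameAt C C' s) (h : Box C δ s w x₁ x₂ y₁ y₂) (h' : Box C' δ s w x₁' x₂' y₁' y₂') :
    S'.holb R s x₁' x₂' y₁' y₂' = g * S.holb R s x₁ x₂ y₁ y₂ * g⁻¹ := by
  obtain ⟨e1, e2, e3, e4⟩ := h.eqs h' ho
  have e5 : C.U s (-R) = C'.U s (-R) := by
    ext j
    exact ⟨fun _ => U_bot hs' j, fun _ => U_bot hs j⟩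
  rw [holb_eq S hs h.v1 h.h2, holb_eq S' hs' h'.v1 h'.h2,
    hol_eq S hs h.v1 h.v2 h.h2 h.h1, hol_eq S' hs' h'.v1 h'.v2 h'.h2 h'.h1,
    hI x₁ y₁ x₁' y₁' h.v1 h.h1 h'.v1 h'.h1 e1 e3, hI x₂ y₁ x₂' y₁' h.v2 h.h1 h'.v2 h'.h1 e2 e3,
    hI x₂ y₂ x₂' y₂' h.v2 h.h2 h'.v2 h'.h2 e2 e4, hI x₁ y₂ x₁' y₂' h.v1 h.h2 h'.v1 h'.h2 e1 e4,
    hI x₁ (-R) x₁' (-R) h.v1 hs.FH_bot h'.v1 hs'.FH_bot e1 e5]
  group

end three

section glue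

variable {δ : ℝ} {G : Type} [Group G]

/-- the time slices agree -/
structure Slice (C₁ C₂ : Conf M R) (S₁ : LS (C₁.X δ) G) (S₂ : LS (C₂.X δ) G) (s₁ s₂ : ℝ) :
    Prop where
  z : ∀ j, C₁.z j s₁ = C₂.z j s₂
  trs : ∀ a b, (∀ z ∈ segment ℝ a b, (s₁, z) ∈ C₁.X δ) → S₁.trs s₁ a b = S₂.trs s₂ a b

variable {C₁ C₂ C₁' C₂' : Conf M R} {S₁ : LS (C₁.X δ) G} {S₂ : LS (C₂.X δ) G}
  {S₁' : LS (C₁'.X δ) G} {S₂' : LS (C₂'.X δ) G} {s₁ s₂ : ℝ} {g : G}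

theorem Slice.FV (h : Slice C₁ C₂ S₁ S₂ s₁ s₂) {x : ℝ} : C₁.FV δ s₁ x ↔ C₂.FV δ s₂ x := by
  unfold Conf.FV
  simp only [h.z]

theorem Slice.FH (h : Slice C₁ C₂ S₁ S₂ s₁ s₂) {y : ℝ} : C₁.FH δ s₁ y ↔ C₂.FH δ s₂ y := by
  unfold Conf.FH
  simp only [h.z]

theorem Slice.L (h : Slice C₁ C₂ S₁ S₂ s₁ s₂) (x : ℝ) : C₁.L s₁ x = C₂.L s₂ x := by
  unfold Conf.L
  simp only [h.z]

theorem Slice.U (h : Slice C₁ C₂ S₁ S₂ s₁ s₂) (y : ℝ) : C₁.U s₁ y = C₂.U s₂ y := by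
  unfold Conf.U
  simp only [h.z]

theorem Slice.lam (h : Slice C₁ C₂ S₁ S₂ s₁ s₂) (hs : C₁.Side δ s₁) {x y : ℝ}
    (hx : C₁.FV δ s₁ x) (hy : C₁.FH δ s₁ y) : S₁.lam R s₁ x y = S₂.lam R s₂ x y := by
  have hR : |R| ≤ R := by rw [abs_of_nonneg hs.2.2.1]
  have hR' : |-R| ≤ R := by rw [abs_neg, abs_of_nonneg hs.2.2.1]
  have key : ∀ x₁ x₂ y₁ y₂ : ℝ, FreeRec (C₁.X δ) s₁ x₁ x₂ y₁ y₂ →
      S₁.trs s₁ ⟨x₁, y₁⟩ ⟨x₂, y₂⟩ = S₂.trs s₂ ⟨x₁, y₁⟩ ⟨x₂, y₂⟩ := by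
    intro x₁ x₂ y₁ y₂ hf
    apply h.trs
    intro z hz
    rw [segment_eq_image'] at hz
    obtain ⟨θ, hθ, rfl⟩ := hz
    have e : ((⟨x₁, y₁⟩ : ℂ) + θ • ((⟨x₂, y₂⟩ : ℂ) - ⟨x₁, y₁⟩)) =
        ⟨x₁ + θ * (x₂ - x₁), y₁ + θ * (y₂ - y₁)⟩ := by
      apply Complex.ext <;> simp
    simp only [e]
    refine hf _ ?_ _ ?_
    · rw [← segment_eq_uIcc, segment_eq_image']
      exact ⟨θ, hθ, rfl⟩
    · rw [← segment_eq_uIcc, segment_eq_image']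
      exact ⟨θ, hθ, rfl⟩
  unfold LS.lam
  rw [key (-R) x R R (freeH hs hs.FH_top hR' hx.1), key x x R y (freeV hs hx hR hy.1),
    key x (-R) y y (freeH hs hy hx.1 hR'), key (-R) (-R) y R (freeV hs hs.FV_left hy.1 hR)]

/-- passage to the next piece -/
theorem Inv.next (h : Slice C₁ C₂ S₁ S₂ s₁ s₂) (h' : Slice C₁' C₂' S₁' S₂' s₁ s₂)
    (hs : C₁.Side δ s₁) (hs' : C₁'.Side δ s₁) (hI : Inv C₁ C₁' S₁ S₁' s₁ g) :
    Inv C₂ C₂' S₂ S₂' s₂ g := by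
  intro x y x' y' hx hy hx' hy' hL hU
  rw [← h.FV] at hx
  rw [← h.FH] at hy
  rw [← h'.FV] at hx'
  rw [← h'.FH] at hy'
  rw [← h.L, ← h'.L] at hL
  rw [← h.U, ← h'.U] at hU
  rw [← h.lam hs hx hy, ← h'.lam hs' hx' hy']
  exact hI x y x' y' hx hy hx' hy' hL hU

/-- the start: the same slice -/
theorem Inv.start (h : Slice C₁ C₂ S₁ S₂ s₁ s₁) (hs : C₁.Side δ s₁) :
    Inv C₁ C₂ S₁ S₂ s₁ 1 := by
  intro x y x' y' hx hy hx' hy' hL hU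
  rw [← h.FV] at hx'
  rw [← h.FH] at hy'
  rw [← h.L] at hL
  rw [← h.U] at hU
  rw [← h.lam hs hx' hy', lam_gap S₁ hs hx hx' hy hy' hL hU]
  group

end glue

/-- the comparison element after `n` pieces -/
def gel {δ : ℝ} {G : Type} [Group G] {C C' : ℕ → Conf M R} (S : ∀ k, LS ((C k).X δ) G)
    (S' : ∀ k, LS ((C' k).X δ) G) : ℕ → G
  | 0 => 1
  | n + 1 => (S' n).trt (corner R) 1 0 * gel S S' n * (S n).trt (corner R) 0 1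

/-- THE COMPARISON THEOREM OF SECTION 7 for a sequence of pieces `0, …, n`. -/
theorem chain (hR : 0 ≤ R) (n : ℕ) (C C' : ℕ → Conf M R)
    (ho : ∀ k ≤ n, ∀ s ∈ Icc (0 : ℝ) 1, SameAt (C k) (C' k) s) :
    ∃ δ₀ > 0, ∀ δ, 0 < δ → δ ≤ δ₀ →
      (∀ k ≤ n, ∀ s ∈ Icc (0 : ℝ) 1, (C k).Side δ s ∧ (C' k).Side δ s) ∧
      (∀ k ≤ n, ∀ s ∈ ({0, 1} : Set ℝ), ∀ w, (∃ x₁ x₂ y₁ y₂, Box (C k) δ s w x₁ x₂ y₁ y₂) ∧
        ∃ x₁ x₂ y₁ y₂, Box (C' k) δ s w x₁ x₂ y₁ y₂) ∧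
      ∀ (G : Type) [Group G] (S : ∀ k, LS ((C k).X δ) G) (S' : ∀ k, LS ((C' k).X δ) G),
        Slice (C 0) (C' 0) (S 0) (S' 0) 0 0 →
        (∀ k < n, Slice (C k) (C (k + 1)) (S k) (S (k + 1)) 1 0) →
        (∀ k < n, Slice (C' k) (C' (k + 1)) (S' k) (S' (k + 1)) 1 0) →
        Inv (C n) (C' n) (S n) (S' n) 1 (gel S S' (n + 1)) := by
  classical
  have m0 : (0 : ℝ) ∈ Icc (0 : ℝ) 1 := by simp
  have m1 : (1 : ℝ) ∈ Icc (0 : ℝ) 1 := by simp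
  -- one piece
  have h1 : ∀ k : ℕ, ∃ δ₀ > 0, k ≤ n → ∀ δ, 0 < δ → δ ≤ δ₀ →
      (∀ s ∈ Icc (0 : ℝ) 1, (C k).Side δ s ∧ (C' k).Side δ s) ∧
      (∀ s ∈ ({0, 1} : Set ℝ), ∀ w, (∃ x₁ x₂ y₁ y₂, Box (C k) δ s w x₁ x₂ y₁ y₂) ∧
        ∃ x₁ x₂ y₁ y₂, Box (C' k) δ s w x₁ x₂ y₁ y₂) ∧
      ∀ (G : Type) [Group G] (S : LS ((C k).X δ) G) (S' : LS ((C' k).X δ) G) (g : G),
        Inv (C k) (C' k) S S' 0 g →
        Inv (C k) (C' k) S S' 1 (S'.trt (corner R) 1 0 * g * S.trt (corner R) 0 1) := by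
    intro k
    by_cases hk : k ≤ n
    · obtain ⟨δ₀, hδ₀, hg⟩ := grid hR (C k) (C' k) (ho k hk)
      obtain ⟨μ₁, hμ₁, f1⟩ := near_exists (C k) m0
      obtain ⟨μ₂, hμ₂, f2⟩ := near_exists (C k) m1
      obtain ⟨μ₃, hμ₃, f3⟩ := near_exists (C' k) m0
      obtain ⟨μ₄, hμ₄, f4⟩ := near_exists (C' k) m1
      refine ⟨min δ₀ (min (min μ₁ μ₂) (min μ₃ μ₄)), by positivity, fun _ δ hδ hle => ?_⟩
      obtain ⟨g1, g2⟩ := hg δ hδ (hle.trans (min_le_left _ _))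
      have hle' := hle.trans (min_le_right _ _)
      have l1 : δ ≤ μ₁ := (hle'.trans (min_le_left _ _)).trans (min_le_left _ _)
      have l2 : δ ≤ μ₂ := (hle'.trans (min_le_left _ _)).trans (min_le_right _ _)
      have l3 : δ ≤ μ₃ := (hle'.trans (min_le_right _ _)).trans (min_le_left _ _)
      have l4 : δ ≤ μ₄ := (hle'.trans (min_le_right _ _)).trans (min_le_right _ _)
      refine ⟨g1, ?_, g2⟩
      intro s hs w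
      obtain ⟨ε₁, e1, b1⟩ := f1 δ hδ l1
      obtain ⟨ε₂, e2, b2⟩ := f2 δ hδ l2
      obtain ⟨ε₃, e3, b3⟩ := f3 δ hδ l3
      obtain ⟨ε₄, e4, b4⟩ := f4 δ hδ l4
      rcases hs with rfl | hs
      · exact ⟨(b1 0 m0 (by simpa using e1)).box hδ le_rfl w,
          (b3 0 m0 (by simpa using e3)).box hδ le_rfl w⟩
      · rw [mem_singleton_iff] at hs
        subst hs
        exact ⟨(b2 1 m1 (by simpa using e2)).box hδ le_rfl w,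
          (b4 1 m1 (by simpa using e4)).box hδ le_rfl w⟩
    · exact ⟨1, one_pos, fun h => absurd h hk⟩
  choose d hd hpiece using h1
  have hne : (Finset.range (n + 1)).Nonempty := ⟨0, by simp⟩
  refine ⟨(Finset.range (n + 1)).inf' hne d, ?_, ?_⟩
  · rw [gt_iff_lt, Finset.lt_inf'_iff]
    exact fun k _ => hd k
  intro δ hδ hle
  have hdk : ∀ k ≤ n, δ ≤ d k := fun k hk =>
    hle.trans (Finset.inf'_le d (Finset.mem_range.2 (Nat.lt_succ_of_le hk)))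
  refine ⟨fun k hk => (hpiece k hk δ hδ (hdk k hk)).1,
    fun k hk => (hpiece k hk δ hδ (hdk k hk)).2.1, ?_⟩
  intro G _ S S' hst hj hj'
  have key : ∀ k ≤ n, Inv (C k) (C' k) (S k) (S' k) 1 (gel S S' (k + 1)) := by
    intro k
    induction k with
    | zero =>
      intro hk
      have p := hpiece 0 hk δ hδ (hdk 0 hk)
      exact p.2.2 G (S 0) (S' 0) 1 (Inv.start hst (p.1 0 m0).1)
    | succ k ih =>
      intro hk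
      have p := hpiece (k + 1) hk δ hδ (hdk (k + 1) hk)
      have p0 := hpiece k (by omega) δ hδ (hdk k (by omega))
      exact p.2.2 G (S (k + 1)) (S' (k + 1)) _
        (Inv.next (hj k (by omega)) (hj' k (by omega)) (p0.1 1 m1).1 (p0.1 1 m1).2
          (ih (by omega)))
  exact key n le_rfl

end Pool.Agent.QC.Grid
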