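import Pool.Agent.QC.Plane.Glue

/-!
# Section 7: rectangles in a plane system

`Rc a b c d` is an open rectangle.  `four`: continuation round a point; `close4`: if the
continuation round the point closes up then the solution extends to the whole rectangle.
-/

set_option autoImplicit false

open Set Filter Topology Metric

namespace Pool.Agent.QC.Grid

/-- open rectangle -/
def Rc (a b c d : ℝ) : Set ℂ := {z | a < z.re ∧ z.re < b ∧ c < z.im ∧ z.im < d}

theorem isOpen_Rc (a b c d : ℝ) : IsOpen (Rc a b c d) :=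
  (isOpen_lt continuous_const Complex.continuous_re).inter
    ((isOpen_lt Complex.continuous_re continuous_const).inter
      ((isOpen_lt continuous_const Complex.continuous_im).inter
        (isOpen_lt Complex.continuous_im continuous_const)))

theorem convex_Rc (a b c d : ℝ) : Convex ℝ (Rc a b c d) :=
  (convex_halfSpace_re_gt a).inter ((convex_halfSpace_re_lt b).inter
    ((convex_halfSpace_im_gt c).inter (convex_halfSpace_im_lt d)))

theorem Rc_nonempty {a b c d : ℝ} (h : a < b) (h' : c < d) : (Rc a b c d).Nonempty :=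
  ⟨⟨(a + b) / 2, (c + d) / 2⟩, by
    refine ⟨?_, ?_, ?_, ?_⟩ <;> simp only <;> linarith⟩

theorem Rc_mono {a b c d a' b' c' d' : ℝ} (h1 : a' ≤ a) (h2 : b ≤ b') (h3 : c' ≤ c)
    (h4 : d ≤ d') : Rc a b c d ⊆ Rc a' b' c' d' :=
  fun _ hz => ⟨h1.trans_lt hz.1, hz.2.1.trans_le h2, h3.trans_lt hz.2.2.1, hz.2.2.2.trans_le h4⟩

variable {F : Type*} [AddCommGroup F] [Module ℂ F] {P : PlaneSys F}

/-- gluing of two solutions -/
theorem union2 {U₁ U₂ : Set ℂ} {g₁ g₂ : ℂ → F} (o1 : IsOpen U₁) (o2 : IsOpen U₂)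
    (h1 : P.Sol U₁ g₁) (h2 : P.Sol U₂ g₂) (he : EqOn g₁ g₂ (U₁ ∩ U₂)) :
    ∃ g, P.Sol (U₁ ∪ U₂) g ∧ EqOn g g₁ U₁ ∧ EqOn g g₂ U₂ := by
  classical
  set g : ℂ → F := fun z => if z ∈ U₁ then g₁ z else g₂ z with hg
  have e1 : EqOn g g₁ U₁ := fun z hz => by simp only [hg, if_pos hz]
  have e2 : EqOn g g₂ U₂ := fun z hz => by
    by_cases h : z ∈ U₁
    · rw [e1 h, he ⟨h, hz⟩]
    · simp only [hg, if_neg h]
  refine ⟨g, P.local' (o1.union o2) fun z hz => ?_, e1, e2⟩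
  rcases hz with hz | hz
  · exact ⟨U₁, o1, hz, subset_union_left, P.congr o1 h1 e1.symm⟩
  · exact ⟨U₂, o2, hz, subset_union_right, P.congr o2 h2 e2.symm⟩

/-- uniqueness on rectangles -/
theorem uniqRc {a b c d a' b' c' d' : ℝ} {g g' : ℂ → F} (hg : P.Sol (Rc a b c d) g)
    (hg' : P.Sol (Rc a b c d) g') (h1 : a ≤ a') (h2 : b' ≤ b) (h3 : c ≤ c') (h4 : d' ≤ d)
    (h5 : a' < b') (h6 : c' < d') (he : EqOn g g' (Rc a' b' c' d')) : EqOn g g' (Rc a b c d) :=
  P.uniqc (isOpen_Rc _ _ _ _) (convex_Rc _ _ _ _) hg hg' (isOpen_Rc _ _ _ _)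
    (Rc_mono h1 h2 h3 h4) (Rc_nonempty h5 h6) he

/-- extension on rectangles -/
theorem extRc {a b c d a' b' c' d' : ℝ} {g : ℂ → F} (hR : Rc a b c d ⊆ sq P.R1)
    (hS : ∀ z ∈ Rc a b c d, z ∉ P.S) (h1 : a ≤ a') (h2 : b' ≤ b) (h3 : c ≤ c') (h4 : d' ≤ d)
    (h5 : a' < b') (h6 : c' < d') (hg : P.Sol (Rc a' b' c' d') g) :
    ∃ g', P.Sol (Rc a b c d) g' ∧ EqOn g' g (Rc a' b' c' d') :=
  P.ext (isOpen_Rc _ _ _ _) (convex_Rc _ _ _ _) hR (Set.disjoint_left.mpr hS) (isOpen_Rc _ _ _ _)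
    (convex_Rc _ _ _ _) (Rc_mono h1 h2 h3 h4) (Rc_nonempty h5 h6) hg

/-- continuation round the point `r + i t` -/
theorem four {a b c d r t : ℝ} (h1 : a < r) (h2 : r < b) (h3 : c < t) (h4 : t < d)
    (hR : Rc a b c d ⊆ sq P.R1) (hS : ∀ z ∈ Rc a b c d, z ∈ P.S → z = ⟨r, t⟩) {gT : ℂ → F}
    (hT : P.Sol (Rc a b t d) gT) :
    ∃ gL gB gR, P.Sol (Rc a r c d) gL ∧ P.Sol (Rc a b c t) gB ∧ P.Sol (Rc r b c d) gR ∧
      EqOn gL gT (Rc a r t d) ∧ EqOn gB gL (Rc a r c t) ∧ EqOn gR gB (Rc r b c t) := by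
  obtain ⟨gL, hL, eL⟩ := extRc (P := P) (a := a) (b := r) (c := c) (d := d)
    ((Rc_mono le_rfl h2.le le_rfl le_rfl).trans hR) (fun z hz hzS => by
      have := hS z (Rc_mono le_rfl h2.le le_rfl le_rfl hz) hzS
      rw [this] at hz
      exact lt_irrefl _ hz.2.1) le_rfl le_rfl h3.le le_rfl h1 h4
    (P.mono (isOpen_Rc a r t d) (Rc_mono le_rfl h2.le le_rfl le_rfl) hT)
  obtain ⟨gB, hB, eB⟩ := extRc (P := P) (a := a) (b := b) (c := c) (d := t)
    ((Rc_mono le_rfl le_rfl le_rfl h4.le).trans hR) (fun z hz hzS => by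
      have := hS z (Rc_mono le_rfl le_rfl le_rfl h4.le hz) hzS
      rw [this] at hz
      exact lt_irrefl _ hz.2.2.2) le_rfl h2.le le_rfl le_rfl h1 h3
    (P.mono (isOpen_Rc a r c t) (Rc_mono le_rfl le_rfl le_rfl h4.le) hL)
  obtain ⟨gR, hRt, eR⟩ := extRc (P := P) (a := r) (b := b) (c := c) (d := d)
    ((Rc_mono h1.le le_rfl le_rfl le_rfl).trans hR) (fun z hz hzS => by
      have := hS z (Rc_mono h1.le le_rfl le_rfl le_rfl hz) hzS
      rw [this] at hz
      exact lt_irrefl _ hz.1) le_rfl le_rfl le_rfl h4.le h2 h3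
    (P.mono (isOpen_Rc r b c t) (Rc_mono h1.le le_rfl le_rfl le_rfl) hB)
  exact ⟨gL, gB, gR, hL, hB, hRt, eL, eB, eR⟩

/-- closing up -/
theorem close4 {a b c d r t : ℝ} (h1 : a < r) (h2 : r < b) (h3 : c < t) (h4 : t < d)
    (hR : Rc a b c d ⊆ sq P.R1) (hS : ∀ z ∈ Rc a b c d, z ∈ P.S → z = ⟨r, t⟩)
    {gT gL gB gR : ℂ → F} (hT : P.Sol (Rc a b t d) gT) (hL : P.Sol (Rc a r c d) gL)
    (hB : P.Sol (Rc a b c t) gB) (hRt : P.Sol (Rc r b c d) gR) (eL : EqOn gL gT (Rc a r t d))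
    (eB : EqOn gB gL (Rc a r c t)) (eR : EqOn gR gB (Rc r b c t))
    (eT : EqOn gR gT (Rc r b t d)) :
    ∃ g, P.Sol (Rc a b c d) g ∧ EqOn g gT (Rc a b t d) := by
  classical
  by_cases hs : (⟨r, t⟩ : ℂ) ∈ P.S
  · set g₀ : ℂ → F := fun z => if t < z.im then gT z else if z.re < r then gL z else
      if z.im < t then gB z else gR z with hg₀
    have f1 : EqOn g₀ gT (Rc a b t d) := fun z hz => by simp only [hg₀, if_pos hz.2.2.1]
    have f2 : EqOn g₀ gL (Rc a r c d) := fun z hz => by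
      by_cases c1 : t < z.im
      · simp only [hg₀, if_pos c1]
        exact (eL ⟨hz.1, hz.2.1, c1, hz.2.2.2⟩).symm
      · simp only [hg₀, if_neg c1, if_pos hz.2.1]
    have f3 : EqOn g₀ gB (Rc a b c t) := fun z hz => by
      have c1 : ¬ t < z.im := not_lt.2 hz.2.2.2.le
      by_cases c2 : z.re < r
      · simp only [hg₀, if_neg c1, if_pos c2]
        exact (eB ⟨hz.1, c2, hz.2.2.1, hz.2.2.2⟩).symm
      · simp only [hg₀, if_neg c1, if_neg c2, if_pos hz.2.2.2]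
    have f4 : EqOn g₀ gR (Rc r b c d) := fun z hz => by
      have c2 : ¬ z.re < r := not_lt.2 hz.1.le
      by_cases c1 : t < z.im
      · simp only [hg₀, if_pos c1]
        exact (eT ⟨hz.1, hz.2.1, c1, hz.2.2.2⟩).symm
      · by_cases c3 : z.im < t
        · simp only [hg₀, if_neg c1, if_neg c2, if_pos c3]
          exact (eR ⟨hz.1, hz.2.1, hz.2.2.1, c3⟩).symm
        · simp only [hg₀, if_neg c1, if_neg c2, if_neg c3]
    have hsQ : (⟨r, t⟩ : ℂ) ∈ Rc a b c d := ⟨h1, h2, h3, h4⟩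
    have oQ : IsOpen (Rc a b c d \ {(⟨r, t⟩ : ℂ)}) := (isOpen_Rc _ _ _ _).sdiff isClosed_singleton
    have s0 : P.Sol (Rc a b c d \ {(⟨r, t⟩ : ℂ)}) g₀ := by
      refine P.local' oQ fun z hz => ?_
      obtain ⟨hz, hne⟩ := hz
      by_cases c1 : t < z.im
      · exact ⟨_, isOpen_Rc a b t d, ⟨hz.1, hz.2.1, c1, hz.2.2.2⟩, fun y hy =>
          ⟨Rc_mono le_rfl le_rfl h3.le le_rfl hy, fun h => by
            rw [mem_singleton_iff] at h
            rw [h] at hy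
            exact lt_irrefl _ hy.2.2.1⟩, P.congr (isOpen_Rc _ _ _ _) hT f1.symm⟩
      · by_cases c2 : z.im < t
        · exact ⟨_, isOpen_Rc a b c t, ⟨hz.1, hz.2.1, hz.2.2.1, c2⟩, fun y hy =>
            ⟨Rc_mono le_rfl le_rfl le_rfl h4.le hy, fun h => by
              rw [mem_singleton_iff] at h
              rw [h] at hy
              exact lt_irrefl _ hy.2.2.2⟩, P.congr (isOpen_Rc _ _ _ _) hB f3.symm⟩
        · have c3 : z.im = t := le_antisymm (not_lt.1 c1) (not_lt.1 c2)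
          rcases lt_trichotomy z.re r with c4 | c4 | c4
          · exact ⟨_, isOpen_Rc a r c d, ⟨hz.1, c4, hz.2.2.1, hz.2.2.2⟩, fun y hy =>
              ⟨Rc_mono le_rfl h2.le le_rfl le_rfl hy, fun h => by
                rw [mem_singleton_iff] at h
                rw [h] at hy
                exact lt_irrefl _ hy.2.1⟩, P.congr (isOpen_Rc _ _ _ _) hL f2.symm⟩
          · exact absurd (Complex.ext c4 c3 : z = ⟨r, t⟩) hne
          · exact ⟨_, isOpen_Rc r b c d, ⟨c4, hz.2.1, hz.2.2.1, hz.2.2.2⟩, fun y hy =>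
              ⟨Rc_mono h1.le le_rfl le_rfl le_rfl hy, fun h => by
                rw [mem_singleton_iff] at h
                rw [h] at hy
                exact lt_irrefl _ hy.1⟩, P.congr (isOpen_Rc _ _ _ _) hRt f4.symm⟩
    obtain ⟨ε, hε, hb⟩ := Metric.isOpen_iff.mp (isOpen_Rc a b c d) _ hsQ
    have hbS : ball (⟨r, t⟩ : ℂ) ε ∩ P.S = {(⟨r, t⟩ : ℂ)} := by
      ext z
      constructor
      · rintro ⟨hz1, hz2⟩
        exact hS z (hb hz1) hz2
      · intro hz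
        rw [mem_singleton_iff] at hz
        rw [hz]
        exact ⟨mem_ball_self hε, hs⟩
    obtain ⟨g', hg', e'⟩ := P.fill hs hε (hb.trans hR) hbS
      (P.mono (isOpen_ball.sdiff isClosed_singleton) (sdiff_subset_sdiff_left hb) s0)
    set g : ℂ → F := fun z => if z = ⟨r, t⟩ then g' z else g₀ z with hg
    have k1 : EqOn g g₀ (Rc a b c d \ {(⟨r, t⟩ : ℂ)}) := fun z hz => by
      have hne : ¬ z = ⟨r, t⟩ := hz.2
      simp only [hg, if_neg hne]
    have k2 : EqOn g g' (ball (⟨r, t⟩ : ℂ) ε) := fun z hz => by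
      by_cases c1 : z = ⟨r, t⟩
      · simp only [hg, if_pos c1]
      · simp only [hg, if_neg c1]
        exact (e' ⟨hz, c1⟩).symm
    refine ⟨g, P.local' (isOpen_Rc _ _ _ _) fun z hz => ?_, fun z hz => ?_⟩
    · by_cases c1 : z = ⟨r, t⟩
      · rw [c1]
        exact ⟨_, isOpen_ball, mem_ball_self hε, hb, P.congr isOpen_ball hg' k2.symm⟩
      · exact ⟨_, oQ, ⟨hz, c1⟩, sdiff_subset, P.congr oQ s0 k1.symm⟩
    · have hz' : z ∈ Rc a b c d \ {(⟨r, t⟩ : ℂ)} := ⟨Rc_mono le_rfl le_rfl h3.le le_rfl hz,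
        fun h => by
          rw [mem_singleton_iff] at h
          rw [h] at hz
          exact lt_irrefl _ hz.2.2.1⟩
      rw [k1 hz', f1 hz]
  · obtain ⟨g, hg, e⟩ := extRc (P := P) (a := a) (b := b) (c := c) (d := d) hR
      (fun z hz hzS => by
        have := hS z hz hzS
        rw [this] at hzS
        exact hs hzS) le_rfl le_rfl h3.le le_rfl (h1.trans h2) h4 hT
    exact ⟨g, hg, e⟩

end Pool.Agent.QC.Grid
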