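import Pool.Agent.QC.Grid.Defs

/-!
# Section 7: relations between the elements `lam`

`lam_rel` (a rectangle without points), `lam_gap` (only the gaps matter), `lam_left`, `lam_top`,
`lam_time` (transport in time), `hol_eq` (the loop round a rectangle).
-/

set_option autoImplicit false

open Set

namespace Pool.Agent.QC.Grid

variable {M : ℕ} {R : ℝ}

/-- a closed rectangle -/
private def rec4 (x₁ x₂ y₁ y₂ : ℝ) : Set ℂ := {z | z.re ∈ uIcc x₁ x₂ ∧ z.im ∈ uIcc y₁ y₂}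

private theorem rec4_convex (x₁ x₂ y₁ y₂ : ℝ) : Convex ℝ (rec4 x₁ x₂ y₁ y₂) := by
  have h1 : Convex ℝ (uIcc x₁ x₂) := convex_uIcc x₁ x₂
  have h2 : Convex ℝ (uIcc y₁ y₂) := convex_uIcc y₁ y₂
  intro z hz w hw a b ha hb hab
  refine ⟨?_, ?_⟩
  · have := h1 hz.1 hw.1 ha hb hab
    simpa using this
  · have := h2 hz.2 hw.2 ha hb hab
    simpa using this

/-- abbreviation: the rectangle is free at time `s` -/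
def FreeRec (X : Set (ℝ × ℂ)) (s x₁ x₂ y₁ y₂ : ℝ) : Prop :=
  ∀ x ∈ uIcc x₁ x₂, ∀ y ∈ uIcc y₁ y₂, (s, (⟨x, y⟩ : ℂ)) ∈ X

variable {X : Set (ℝ × ℂ)} {G : Type} [Group G] (S : LS X G)

private theorem tri_rec {s x₁ x₂ y₁ y₂ : ℝ} (h : FreeRec X s x₁ x₂ y₁ y₂) {a b c : ℂ}
    (ha : a ∈ rec4 x₁ x₂ y₁ y₂) (hb : b ∈ rec4 x₁ x₂ y₁ y₂) (hc : c ∈ rec4 x₁ x₂ y₁ y₂) :
    S.trs s a b * S.trs s b c = S.trs s a c := by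
  apply S.tri
  intro z hz
  have h1 : z ∈ rec4 x₁ x₂ y₁ y₂ := by
    refine convexHull_min ?_ (rec4_convex x₁ x₂ y₁ y₂) hz
    intro w hw
    rcases hw with rfl | rfl | rfl
    · exact ha
    · exact hb
    · exact hc
  exact h z.re h1.1 z.im h1.2

theorem trs_self {s x y : ℝ} (h : (s, (⟨x, y⟩ : ℂ)) ∈ X) : S.trs s ⟨x, y⟩ ⟨x, y⟩ = 1 := by
  have h1 : FreeRec X s x x y y := by
    intro a ha b hb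
    rw [uIcc_self, mem_singleton_iff] at ha hb
    rw [ha, hb]; exact h
  have hm : (⟨x, y⟩ : ℂ) ∈ rec4 x x y y := ⟨left_mem_uIcc, left_mem_uIcc⟩
  have := tri_rec S h1 hm hm hm
  simpa using this

theorem trs_inv {s x₁ x₂ y₁ y₂ : ℝ} (h : FreeRec X s x₁ x₂ y₁ y₂) :
    S.trs s ⟨x₁, y₁⟩ ⟨x₂, y₂⟩ = (S.trs s ⟨x₂, y₂⟩ ⟨x₁, y₁⟩)⁻¹ := by
  have h1 := tri_rec S h (a := ⟨x₁, y₁⟩) (b := ⟨x₂, y₂⟩) (c := ⟨x₁, y₁⟩)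
    ⟨left_mem_uIcc, left_mem_uIcc⟩ ⟨right_mem_uIcc, right_mem_uIcc⟩ ⟨left_mem_uIcc, left_mem_uIcc⟩
  rw [trs_self S (h x₁ left_mem_uIcc y₁ left_mem_uIcc)] at h1
  exact eq_inv_of_mul_eq_one_left h1

/-- the two ways round a free rectangle -/
theorem trs_rec {s x₁ x₂ y₁ y₂ : ℝ} (h : FreeRec X s x₁ x₂ y₁ y₂) :
    S.trs s ⟨x₁, y₁⟩ ⟨x₂, y₁⟩ * S.trs s ⟨x₂, y₁⟩ ⟨x₂, y₂⟩ =
      S.trs s ⟨x₁, y₁⟩ ⟨x₁, y₂⟩ * S.trs s ⟨x₁, y₂⟩ ⟨x₂, y₂⟩ := by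
  rw [tri_rec S h ⟨left_mem_uIcc, left_mem_uIcc⟩ ⟨right_mem_uIcc, left_mem_uIcc⟩
      ⟨right_mem_uIcc, right_mem_uIcc⟩,
    tri_rec S h ⟨left_mem_uIcc, left_mem_uIcc⟩ ⟨left_mem_uIcc, right_mem_uIcc⟩
      ⟨right_mem_uIcc, right_mem_uIcc⟩]

/-- composition on a horizontal segment -/
theorem trs_hor {s x₁ x₂ x₃ y : ℝ} {u v : ℝ} (h : FreeRec X s u v y y) (h1 : x₁ ∈ uIcc u v)
    (h2 : x₂ ∈ uIcc u v) (h3 : x₃ ∈ uIcc u v) :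
    S.trs s ⟨x₁, y⟩ ⟨x₂, y⟩ * S.trs s ⟨x₂, y⟩ ⟨x₃, y⟩ = S.trs s ⟨x₁, y⟩ ⟨x₃, y⟩ :=
  tri_rec S h ⟨h1, left_mem_uIcc⟩ ⟨h2, left_mem_uIcc⟩ ⟨h3, left_mem_uIcc⟩

/-- composition on a vertical segment -/
theorem trs_ver {s x y₁ y₂ y₃ : ℝ} {u v : ℝ} (h : FreeRec X s x x u v) (h1 : y₁ ∈ uIcc u v)
    (h2 : y₂ ∈ uIcc u v) (h3 : y₃ ∈ uIcc u v) :
    S.trs s ⟨x, y₁⟩ ⟨x, y₂⟩ * S.trs s ⟨x, y₂⟩ ⟨x, y₃⟩ = S.trs s ⟨x, y₁⟩ ⟨x, y₃⟩ :=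
  tri_rec S h ⟨left_mem_uIcc, h1⟩ ⟨left_mem_uIcc, h2⟩ ⟨left_mem_uIcc, h3⟩

section conf

variable {δ : ℝ} {C : Conf M R}

/-- the sides of the square are free at time `s` -/
def Conf.Side (C : Conf M R) (δ s : ℝ) : Prop :=
  s ∈ Icc (0 : ℝ) 1 ∧ 0 < δ ∧ 0 ≤ R ∧ ∀ j, δ ≤ R - |(C.z j s).re| ∧ δ ≤ R - |(C.z j s).im|

theorem Conf.Side.FV_left {s : ℝ} (h : C.Side δ s) : C.FV δ s (-R) := by
  refine ⟨by rw [abs_neg, abs_of_nonneg h.2.2.1], fun j => ?_⟩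
  have h1 := (h.2.2.2 j).1
  have h2 := neg_abs_le (C.z j s).re
  have h3 := neg_le_abs (-R - (C.z j s).re)
  linarith

theorem Conf.Side.FV_right {s : ℝ} (h : C.Side δ s) : C.FV δ s R := by
  refine ⟨by rw [abs_of_nonneg h.2.2.1], fun j => ?_⟩
  have h1 := (h.2.2.2 j).1
  have h2 := le_abs_self (C.z j s).re
  have h3 := le_abs_self (R - (C.z j s).re)
  linarith

theorem Conf.Side.FH_bot {s : ℝ} (h : C.Side δ s) : C.FH δ s (-R) := by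
  refine ⟨by rw [abs_neg, abs_of_nonneg h.2.2.1], fun j => ?_⟩
  have h1 := (h.2.2.2 j).2
  have h2 := neg_abs_le (C.z j s).im
  have h3 := neg_le_abs (-R - (C.z j s).im)
  linarith

theorem Conf.Side.FH_top {s : ℝ} (h : C.Side δ s) : C.FH δ s R := by
  refine ⟨by rw [abs_of_nonneg h.2.2.1], fun j => ?_⟩
  have h1 := (h.2.2.2 j).2
  have h2 := le_abs_self (C.z j s).im
  have h3 := le_abs_self (R - (C.z j s).im)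
  linarith

private theorem mem_mid {a b c r : ℝ} (hc : c ∈ uIcc a b) (h1 : |a| ≤ r) (h2 : |b| ≤ r) :
    |c| ≤ r := by
  rw [abs_le] at *
  rw [mem_uIcc] at hc
  rcases hc with hc | hc <;> constructor <;> linarith [hc.1, hc.2]

/-- between two free positions in the same gap all positions are free -/
theorem between {δ a b c t : ℝ} (hδ : 0 < δ) (hc : c ∈ uIcc a b) (h1 : δ ≤ |a - t|)
    (h2 : δ ≤ |b - t|) (h : t < a ↔ t < b) : δ ≤ |c - t| := by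
  rw [mem_uIcc] at hc
  rw [le_abs] at *
  rcases h1 with h1 | h1
  · have h3 := h.1 (by linarith)
    rcases h2 with h2 | h2
    · left; rcases hc with hc | hc <;> linarith [hc.1, hc.2]
    · linarith
  · rcases h2 with h2 | h2
    · have := h.2 (by linarith)
      linarith
    · right; rcases hc with hc | hc <;> linarith [hc.1, hc.2]

theorem between' {δ a b c t : ℝ} (hδ : 0 < δ) (hc : c ∈ uIcc a b) (h1 : δ ≤ |a - t|)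
    (h2 : δ ≤ |b - t|) (h : a < t ↔ b < t) : δ ≤ |c - t| := by
  rw [mem_uIcc] at hc
  rw [le_abs] at *
  rcases h1 with h1 | h1
  · rcases h2 with h2 | h2
    · left; rcases hc with hc | hc <;> linarith [hc.1, hc.2]
    · have := h.2 (by linarith)
      linarith
  · have h3 := h.1 (by linarith)
    rcases h2 with h2 | h2
    · linarith
    · right; rcases hc with hc | hc <;> linarith [hc.1, hc.2]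

/-- the set theoretic condition for a free rectangle -/
theorem freeRec {s x₁ x₂ y₁ y₂ : ℝ} (hs : C.Side δ s) (hx1 : C.FV δ s x₁) (hx2 : C.FV δ s x₂)
    (hy1 : C.FH δ s y₁) (hy2 : C.FH δ s y₂)
    (h : ∀ k, (k ∈ C.L s x₁ ↔ k ∈ C.L s x₂) ∨ (k ∈ C.U s y₁ ↔ k ∈ C.U s y₂)) :
    FreeRec (C.X δ) s x₁ x₂ y₁ y₂ := by
  intro x hx y hy
  refine ⟨hs.1, mem_mid hx hx1.1 hx2.1, mem_mid hy hy1.1 hy2.1, fun j => ?_⟩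
  rcases h j with h | h
  · left
    rw [Conf.mem_L, Conf.mem_L] at h
    exact between hs.2.1 hx (hx1.2 j) (hx2.2 j) h
  · right
    rw [Conf.mem_U, Conf.mem_U] at h
    exact between' hs.2.1 hy (hy1.2 j) (hy2.2 j) h

theorem freeV {s x y₁ y₂ : ℝ} (hs : C.Side δ s) (hx : C.FV δ s x) (hy1 : |y₁| ≤ R)
    (hy2 : |y₂| ≤ R) : FreeRec (C.X δ) s x x y₁ y₂ := by
  intro a ha b hb
  rw [uIcc_self, mem_singleton_iff] at ha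
  rw [ha]
  exact ⟨hs.1, hx.1, mem_mid hb hy1 hy2, fun j => Or.inl (hx.2 j)⟩

theorem freeH {s y x₁ x₂ : ℝ} (hs : C.Side δ s) (hy : C.FH δ s y) (hx1 : |x₁| ≤ R)
    (hx2 : |x₂| ≤ R) : FreeRec (C.X δ) s x₁ x₂ y y := by
  intro a ha b hb
  rw [uIcc_self, mem_singleton_iff] at hb
  rw [hb]
  exact ⟨hs.1, mem_mid ha hx1 hx2, hy.1, fun j => Or.inr (hy.2 j)⟩

variable (S : LS (C.X δ) G)

theorem mem_uIcc_of_abs {x R : ℝ} (h : |x| ≤ R) : x ∈ uIcc (-R) R := by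
  rw [mem_uIcc]; left; exact ⟨by linarith [neg_abs_le x], by linarith [le_abs_self x]⟩

/-- The rectangle relation. -/
theorem lam_rel {s x₁ x₂ y₁ y₂ : ℝ} (hs : C.Side δ s) (hx1 : C.FV δ s x₁) (hx2 : C.FV δ s x₂)
    (hy1 : C.FH δ s y₁) (hy2 : C.FH δ s y₂)
    (h : ∀ k, (k ∈ C.L s x₁ ↔ k ∈ C.L s x₂) ∨ (k ∈ C.U s y₁ ↔ k ∈ C.U s y₂)) :
    S.lam R s x₂ y₂ = S.lam R s x₂ y₁ * (S.lam R s x₁ y₁)⁻¹ * S.lam R s x₁ y₂ := by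
  have hR : |R| ≤ R := by rw [abs_of_nonneg hs.2.2.1]
  have hR' : |-R| ≤ R := by rw [abs_neg, abs_of_nonneg hs.2.2.1]
  have e1 : S.trs s ⟨x₂, R⟩ ⟨x₂, y₁⟩ * S.trs s ⟨x₂, y₁⟩ ⟨x₂, y₂⟩ = S.trs s ⟨x₂, R⟩ ⟨x₂, y₂⟩ :=
    trs_ver S (freeV hs hx2 hR' hR) (mem_uIcc_of_abs hR) (mem_uIcc_of_abs hy1.1)
      (mem_uIcc_of_abs hy2.1)
  have e2 : S.trs s ⟨x₁, R⟩ ⟨x₁, y₁⟩ * S.trs s ⟨x₁, y₁⟩ ⟨x₁, y₂⟩ = S.trs s ⟨x₁, R⟩ ⟨x₁, y₂⟩ :=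
    trs_ver S (freeV hs hx1 hR' hR) (mem_uIcc_of_abs hR) (mem_uIcc_of_abs hy1.1)
      (mem_uIcc_of_abs hy2.1)
  have e3 : S.trs s ⟨x₂, y₂⟩ ⟨x₁, y₂⟩ * S.trs s ⟨x₁, y₂⟩ ⟨-R, y₂⟩ = S.trs s ⟨x₂, y₂⟩ ⟨-R, y₂⟩ :=
    trs_hor S (freeH hs hy2 hR' hR) (mem_uIcc_of_abs hx2.1) (mem_uIcc_of_abs hx1.1)
      (mem_uIcc_of_abs hR')
  have e4 : S.trs s ⟨x₂, y₁⟩ ⟨x₁, y₁⟩ * S.trs s ⟨x₁, y₁⟩ ⟨-R, y₁⟩ = S.trs s ⟨x₂, y₁⟩ ⟨-R, y₁⟩ :=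
    trs_hor S (freeH hs hy1 hR' hR) (mem_uIcc_of_abs hx2.1) (mem_uIcc_of_abs hx1.1)
      (mem_uIcc_of_abs hR')
  have e5 : S.trs s ⟨x₂, y₁⟩ ⟨x₁, y₁⟩ * S.trs s ⟨x₁, y₁⟩ ⟨x₁, y₂⟩ =
      S.trs s ⟨x₂, y₁⟩ ⟨x₂, y₂⟩ * S.trs s ⟨x₂, y₂⟩ ⟨x₁, y₂⟩ :=
    trs_rec S (freeRec hs hx2 hx1 hy1 hy2 fun k => by
      rcases h k with h | h
      · exact Or.inl h.symm
      · exact Or.inr h)
  unfold LS.lam
  rw [← e1, ← e2, ← e3, ← e4]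
  have e6 : S.trs s ⟨x₂, y₁⟩ ⟨x₂, y₂⟩ * S.trs s ⟨x₂, y₂⟩ ⟨x₁, y₂⟩ *
      (S.trs s ⟨x₁, y₁⟩ ⟨x₁, y₂⟩)⁻¹ = S.trs s ⟨x₂, y₁⟩ ⟨x₁, y₁⟩ := by
    rw [← e5]; group
  rw [← e6]
  group

theorem lam_left {s y : ℝ} (hs : C.Side δ s) (hy : |y| ≤ R) : S.lam R s (-R) y = 1 := by
  have hR : |R| ≤ R := by rw [abs_of_nonneg hs.2.2.1]
  have hR' : |-R| ≤ R := by rw [abs_neg, abs_of_nonneg hs.2.2.1]
  have f1 := freeV hs hs.FV_left hR' hR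
  have e1 : S.trs s ⟨-R, R⟩ ⟨-R, y⟩ * S.trs s ⟨-R, y⟩ ⟨-R, R⟩ = S.trs s ⟨-R, R⟩ ⟨-R, R⟩ :=
    trs_ver S f1 (mem_uIcc_of_abs hR) (mem_uIcc_of_abs hy) (mem_uIcc_of_abs hR)
  have e2 : S.trs s ⟨-R, R⟩ ⟨-R, R⟩ = 1 := trs_self S (f1 _ left_mem_uIcc R right_mem_uIcc)
  have e3 : S.trs s ⟨-R, y⟩ ⟨-R, y⟩ = 1 := trs_self S (f1 _ left_mem_uIcc y (mem_uIcc_of_abs hy))
  unfold LS.lam
  rw [e2, e3, one_mul, mul_one, e1, e2]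

theorem lam_top {s x : ℝ} (hs : C.Side δ s) (hx : |x| ≤ R) : S.lam R s x R = 1 := by
  have hR : |R| ≤ R := by rw [abs_of_nonneg hs.2.2.1]
  have hR' : |-R| ≤ R := by rw [abs_neg, abs_of_nonneg hs.2.2.1]
  have f1 := freeH hs hs.FH_top hR' hR
  have e1 : S.trs s ⟨-R, R⟩ ⟨x, R⟩ * S.trs s ⟨x, R⟩ ⟨-R, R⟩ = S.trs s ⟨-R, R⟩ ⟨-R, R⟩ :=
    trs_hor S f1 (mem_uIcc_of_abs hR') (mem_uIcc_of_abs hx) (mem_uIcc_of_abs hR')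
  have e2 : S.trs s ⟨-R, R⟩ ⟨-R, R⟩ = 1 := trs_self S (f1 _ left_mem_uIcc R left_mem_uIcc)
  have e3 : S.trs s ⟨x, R⟩ ⟨x, R⟩ = 1 := trs_self S (f1 x (mem_uIcc_of_abs hx) R left_mem_uIcc)
  unfold LS.lam
  rw [e3, e2, mul_one, mul_one, e1, e2]

/-- The element `lam` depends on the gaps only. -/
theorem lam_gap {s x₁ x₂ y₁ y₂ : ℝ} (hs : C.Side δ s) (hx1 : C.FV δ s x₁) (hx2 : C.FV δ s x₂)
    (hy1 : C.FH δ s y₁) (hy2 : C.FH δ s y₂) (hL : C.L s x₁ = C.L s x₂)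
    (hU : C.U s y₁ = C.U s y₂) : S.lam R s x₁ y₁ = S.lam R s x₂ y₂ := by
  have h1 : S.lam R s x₂ y₁ = S.lam R s x₁ y₁ := by
    have := lam_rel S hs hx1 hx2 hs.FH_top hy1 fun k => Or.inl (by rw [hL])
    rw [this, lam_top S hs hx2.1, lam_top S hs hx1.1]
    group
  have h2 : S.lam R s x₂ y₂ = S.lam R s x₂ y₁ := by
    have := lam_rel S hs hs.FV_left hx2 hy1 hy2 fun k => Or.inr (by rw [hU])
    rw [this, lam_left S hs hy1.1, lam_left S hs hy2.1]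
    group
  rw [h2, h1]

/-- Transport in time at a persistent position. -/
theorem lam_time {s₁ s₂ x y : ℝ} (hs : ∀ s ∈ uIcc s₁ s₂, C.Side δ s)
    (hx : ∀ s ∈ uIcc s₁ s₂, C.FV δ s x) (hy : ∀ s ∈ uIcc s₁ s₂, C.FH δ s y) :
    S.lam R s₁ x y * S.trt (corner R) s₁ s₂ = S.trt (corner R) s₁ s₂ * S.lam R s₂ x y := by
  have h0 := hs s₁ left_mem_uIcc
  have hR : |R| ≤ R := by rw [abs_of_nonneg h0.2.2.1]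
  have hR' : |-R| ≤ R := by rw [abs_neg, abs_of_nonneg h0.2.2.1]
  have hx' := (hx s₁ left_mem_uIcc).1
  have hy' := (hy s₁ left_mem_uIcc).1
  have key : ∀ x₁ x₂ y₁ y₂ : ℝ, (∀ s ∈ uIcc s₁ s₂, FreeRec (C.X δ) s x₁ x₂ y₁ y₂) →
      S.trs s₁ ⟨x₁, y₁⟩ ⟨x₂, y₂⟩ * S.trt ⟨x₂, y₂⟩ s₁ s₂ =
        S.trt ⟨x₁, y₁⟩ s₁ s₂ * S.trs s₂ ⟨x₁, y₁⟩ ⟨x₂, y₂⟩ := by
    intro x₁ x₂ y₁ y₂ hf
    apply S.sq
    intro s hs' z hz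
    have h1 : z ∈ rec4 x₁ x₂ y₁ y₂ :=
      (rec4_convex x₁ x₂ y₁ y₂).segment_subset ⟨left_mem_uIcc, left_mem_uIcc⟩
        ⟨right_mem_uIcc, right_mem_uIcc⟩ hz
    exact hf s hs' z.re h1.1 z.im h1.2
  have k1 := key (-R) x R R fun s h => freeH (hs s h) (hs s h).FH_top hR' hx'
  have k2 := key x x R y fun s h => freeV (hs s h) (hx s h) hR hy'
  have k3 := key x (-R) y y fun s h => freeH (hs s h) (hy s h) hx' hR'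
  have k4 := key (-R) (-R) y R fun s h => freeV (hs s h) (hs s h).FV_left hy' hR
  unfold LS.lam corner
  rw [mul_assoc, k4, ← mul_assoc, mul_assoc (_ * _) _ (S.trt _ s₁ s₂), k3, ← mul_assoc,
    mul_assoc _ _ (S.trt _ s₁ s₂), k2, ← mul_assoc, k1]
  simp only [mul_assoc]

/-- The loop from the corner along the top side to `x₁`, down to `(x₁, y₁)`, round the rectangle
and back. -/
def LS.hol (S : LS X G) (R s x₁ x₂ y₁ y₂ : ℝ) : G :=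
  S.trs s ⟨-R, R⟩ ⟨x₁, R⟩ * S.trs s ⟨x₁, R⟩ ⟨x₁, y₁⟩ * (S.trs s ⟨x₁, y₁⟩ ⟨x₂, y₁⟩ *
    S.trs s ⟨x₂, y₁⟩ ⟨x₂, y₂⟩ * S.trs s ⟨x₂, y₂⟩ ⟨x₁, y₂⟩ * S.trs s ⟨x₁, y₂⟩ ⟨x₁, y₁⟩) *
    (S.trs s ⟨-R, R⟩ ⟨x₁, R⟩ * S.trs s ⟨x₁, R⟩ ⟨x₁, y₁⟩)⁻¹

theorem hol_eq {s x₁ x₂ y₁ y₂ : ℝ} (hs : C.Side δ s) (hx1 : C.FV δ s x₁) (hx2 : C.FV δ s x₂)
    (hy1 : C.FH δ s y₁) (hy2 : C.FH δ s y₂) :
    S.hol R s x₁ x₂ y₁ y₂ = S.lam R s x₁ y₁ * (S.lam R s x₂ y₁)⁻¹ * S.lam R s x₂ y₂ *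
      (S.lam R s x₁ y₂)⁻¹ := by
  have hR : |R| ≤ R := by rw [abs_of_nonneg hs.2.2.1]
  have hR' : |-R| ≤ R := by rw [abs_neg, abs_of_nonneg hs.2.2.1]
  have e1 : S.trs s ⟨x₂, R⟩ ⟨x₂, y₁⟩ * S.trs s ⟨x₂, y₁⟩ ⟨x₂, y₂⟩ = S.trs s ⟨x₂, R⟩ ⟨x₂, y₂⟩ :=
    trs_ver S (freeV hs hx2 hR' hR) (mem_uIcc_of_abs hR) (mem_uIcc_of_abs hy1.1)
      (mem_uIcc_of_abs hy2.1)
  have e2 : S.trs s ⟨x₁, R⟩ ⟨x₁, y₂⟩ * S.trs s ⟨x₁, y₂⟩ ⟨x₁, y₁⟩ = S.trs s ⟨x₁, R⟩ ⟨x₁, y₁⟩ :=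
    trs_ver S (freeV hs hx1 hR' hR) (mem_uIcc_of_abs hR) (mem_uIcc_of_abs hy2.1)
      (mem_uIcc_of_abs hy1.1)
  have e3 : S.trs s ⟨x₂, y₂⟩ ⟨x₁, y₂⟩ * S.trs s ⟨x₁, y₂⟩ ⟨-R, y₂⟩ = S.trs s ⟨x₂, y₂⟩ ⟨-R, y₂⟩ :=
    trs_hor S (freeH hs hy2 hR' hR) (mem_uIcc_of_abs hx2.1) (mem_uIcc_of_abs hx1.1)
      (mem_uIcc_of_abs hR')
  have e4 : S.trs s ⟨x₁, y₁⟩ ⟨x₂, y₁⟩ * S.trs s ⟨x₂, y₁⟩ ⟨-R, y₁⟩ = S.trs s ⟨x₁, y₁⟩ ⟨-R, y₁⟩ :=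
    trs_hor S (freeH hs hy1 hR' hR) (mem_uIcc_of_abs hx1.1) (mem_uIcc_of_abs hx2.1)
      (mem_uIcc_of_abs hR')
  unfold LS.lam LS.hol
  rw [← e1, ← e2, ← e3, ← e4]
  group

end conf

end Pool.Agent.QC.Grid
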