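import Pool.Agent.QC.Grid.Rect
import Pool.Agent.QC.Grid.Comb

/-!
# Section 7: the step lemma

Near a time `s₀` the comparison `Inv` at `s₀` is equivalent to the comparison at `s`.
-/

set_option autoImplicit false

open Set

namespace Pool.Agent.QC.Grid

variable {M : ℕ} {R : ℝ}

/-- `s` is so close to `s₀` that all points move by at most `μ` between `s₀` and `s`, where different
real parts (imaginary parts) at `s₀`, and the sides of the square, have distance at least `8 μ`. -/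
structure Near (C : Conf M R) (μ s₀ s : ℝ) : Prop where
  pos : 0 < μ
  gre : ∀ i j, (C.z i s₀).re < (C.z j s₀).re → (C.z i s₀).re + 8 * μ ≤ (C.z j s₀).re
  gim : ∀ i j, (C.z i s₀).im < (C.z j s₀).im → (C.z i s₀).im + 8 * μ ≤ (C.z j s₀).im
  sre : ∀ j, |(C.z j s₀).re| + 8 * μ ≤ R
  sim : ∀ j, |(C.z j s₀).im| + 8 * μ ≤ R
  close : ∀ t ∈ uIcc s₀ s, t ∈ Icc (0 : ℝ) 1 ∧
    ∀ j, |(C.z j t).re - (C.z j s₀).re| ≤ μ ∧ |(C.z j t).im - (C.z j s₀).im| ≤ μ

/-- real parts at time `s` -/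
def Conf.a (C : Conf M R) (s : ℝ) (j : Fin M) : ℝ := (C.z j s).re

/-- imaginary parts at time `s` -/
def Conf.b (C : Conf M R) (s : ℝ) (j : Fin M) : ℝ := (C.z j s).im

section one

variable {C : Conf M R} {μ s₀ s δ t : ℝ}

theorem Near.side (h : Near C μ s₀ s) (hR : 0 ≤ R) (hδ : 0 < δ) (hδμ : δ ≤ μ)
    (ht : t ∈ uIcc s₀ s) : C.Side δ t := by
  obtain ⟨h1, h2⟩ := h.close t ht
  refine ⟨h1, hδ, hR, fun j => ⟨?_, ?_⟩⟩
  · have h3 := (h2 j).1
    have h4 := h.sre j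
    have h5 : |(C.z j t).re| ≤ |(C.z j t).re - (C.z j s₀).re| + |(C.z j s₀).re| := by
      have := abs_add_le ((C.z j t).re - (C.z j s₀).re) (C.z j s₀).re
      simpa using this
    linarith [h.pos]
  · have h3 := (h2 j).2
    have h4 := h.sim j
    have h5 : |(C.z j t).im| ≤ |(C.z j t).im - (C.z j s₀).im| + |(C.z j s₀).im| := by
      have := abs_add_le ((C.z j t).im - (C.z j s₀).im) (C.z j s₀).im
      simpa using this
    linarith [h.pos]

private theorem far_lo {a b c x μ δ : ℝ} (hμ : 0 < μ) (hδμ : δ ≤ μ)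
    (h1 : a < b → a + 8 * μ ≤ b) (h2 : b < a → b + 8 * μ ≤ a) (h3 : |c - a| ≤ μ)
    (hx : x = b - 3 * μ) : δ ≤ |x - c| ∧ (c < x ↔ a < b) := by
  rw [abs_le] at h3
  subst hx
  rcases lt_trichotomy a b with h | h | h
  · have := h1 h
    refine ⟨?_, ?_⟩
    · rw [le_abs]; left; linarith
    · exact ⟨fun _ => h, fun _ => by linarith⟩
  · refine ⟨?_, ?_⟩
    · rw [le_abs]; right; linarith
    · exact ⟨fun h' => by linarith, fun h' => by linarith⟩
  · have := h2 h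
    refine ⟨?_, ?_⟩
    · rw [le_abs]; right; linarith
    · exact ⟨fun h' => by linarith, fun h' => by linarith⟩

private theorem far_hi {a b c x μ δ : ℝ} (hμ : 0 < μ) (hδμ : δ ≤ μ)
    (h1 : a < b → a + 8 * μ ≤ b) (h2 : b < a → b + 8 * μ ≤ a) (h3 : |c - a| ≤ μ)
    (hx : x = b + 3 * μ) : δ ≤ |x - c| ∧ (c < x ↔ a ≤ b) := by
  rw [abs_le] at h3
  subst hx
  rcases lt_trichotomy a b with h | h | h
  · have := h1 h
    refine ⟨?_, ?_⟩
    · rw [le_abs]; left; linarith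
    · exact ⟨fun _ => h.le, fun _ => by linarith⟩
  · refine ⟨?_, ?_⟩
    · rw [le_abs]; left; linarith
    · exact ⟨fun h' => h.le, fun h' => by linarith⟩
  · have := h2 h
    refine ⟨?_, ?_⟩
    · rw [le_abs]; right; linarith
    · exact ⟨fun h' => by linarith, fun h' => by linarith⟩

private theorem abs_shift {b μ R : ℝ} (h : |b| + 8 * μ ≤ R) (hμ : 0 < μ) :
    |b - 3 * μ| ≤ R ∧ |b + 3 * μ| ≤ R := by
  have h1 := neg_abs_le b
  have h2 := le_abs_self b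
  constructor <;> rw [abs_le] <;> constructor <;> linarith

theorem Near.fvm (h : Near C μ s₀ s) (hδμ : δ ≤ μ) (ht : t ∈ uIcc s₀ s) (i : Fin M) :
    C.FV δ t (C.a s₀ i - 3 * μ) ∧ C.L t (C.a s₀ i - 3 * μ) = lo (C.a s₀) i := by
  have key := fun j => far_lo (c := (C.z j t).re) h.pos hδμ (h.gre j i) (h.gre i j)
    ((h.close t ht).2 j).1 rfl
  refine ⟨⟨(abs_shift (h.sre i) h.pos).1, fun j => (key j).1⟩, ?_⟩
  ext j
  rw [Conf.mem_L, mem_lo]
  exact (key j).2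

theorem Near.fvp (h : Near C μ s₀ s) (hδμ : δ ≤ μ) (ht : t ∈ uIcc s₀ s) (i : Fin M) :
    C.FV δ t (C.a s₀ i + 3 * μ) ∧ C.L t (C.a s₀ i + 3 * μ) = lop (C.a s₀) i := by
  have key := fun j => far_hi (c := (C.z j t).re) h.pos hδμ (h.gre j i) (h.gre i j)
    ((h.close t ht).2 j).1 rfl
  refine ⟨⟨(abs_shift (h.sre i) h.pos).2, fun j => (key j).1⟩, ?_⟩
  ext j
  rw [Conf.mem_L, mem_lop]
  exact (key j).2

private theorem flip_lt {c x a b : ℝ} {δ : ℝ} (hδ : 0 < δ) (h : δ ≤ |x - c|) (h2 : c < x ↔ a ≤ b) :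
    x < c ↔ b < a := by
  constructor
  · intro h3
    by_contra h4
    exact absurd (h2.2 (not_lt.1 h4)) (not_lt.2 h3.le)
  · intro h3
    rcases lt_trichotomy x c with h4 | h4 | h4
    · exact h4
    · rw [h4, sub_self, abs_zero] at h; linarith
    · exact absurd (h2.1 h4) (not_le.2 h3)

private theorem flip_le {c x a b : ℝ} {δ : ℝ} (hδ : 0 < δ) (h : δ ≤ |x - c|) (h2 : c < x ↔ a < b) :
    x < c ↔ b ≤ a := by
  constructor
  · intro h3
    by_contra h4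
    exact absurd (h2.2 (not_le.1 h4)) (not_lt.2 h3.le)
  · intro h3
    rcases lt_trichotomy x c with h4 | h4 | h4
    · exact h4
    · rw [h4, sub_self, abs_zero] at h; linarith
    · exact absurd (h2.1 h4) (not_lt.2 h3)

theorem Near.fhp (h : Near C μ s₀ s) (hδ : 0 < δ) (hδμ : δ ≤ μ) (ht : t ∈ uIcc s₀ s) (i : Fin M) :
    C.FH δ t (C.b s₀ i + 3 * μ) ∧ C.U t (C.b s₀ i + 3 * μ) = up (C.b s₀) i := by
  have key := fun j => far_hi (c := (C.z j t).im) h.pos hδμ (h.gim j i) (h.gim i j)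
    ((h.close t ht).2 j).2 rfl
  refine ⟨⟨(abs_shift (h.sim i) h.pos).2, fun j => (key j).1⟩, ?_⟩
  ext j
  rw [Conf.mem_U, mem_up]
  exact flip_lt hδ (key j).1 (key j).2

theorem Near.fhm (h : Near C μ s₀ s) (hδ : 0 < δ) (hδμ : δ ≤ μ) (ht : t ∈ uIcc s₀ s) (i : Fin M) :
    C.FH δ t (C.b s₀ i - 3 * μ) ∧ C.U t (C.b s₀ i - 3 * μ) = upp (C.b s₀) i := by
  have key := fun j => far_lo (c := (C.z j t).im) h.pos hδμ (h.gim j i) (h.gim i j)
    ((h.close t ht).2 j).2 rfl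
  refine ⟨⟨(abs_shift (h.sim i) h.pos).1, fun j => (key j).1⟩, ?_⟩
  ext j
  rw [Conf.mem_U, mem_upp]
  exact flip_le hδ (key j).1 (key j).2

end one

section two

variable {C C' : Conf M R} {μ s₀ s δ : ℝ}

private theorem lo_eq (h : SameAt C C' s₀) (i : Fin M) : lo (C'.a s₀) i = lo (C.a s₀) i := by
  ext j
  rw [mem_lo, mem_lo]
  exact (h j i).1.symm

private theorem lop_eq (h : SameAt C C' s₀) (i : Fin M) : lop (C'.a s₀) i = lop (C.a s₀) i := by
  ext j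
  rw [mem_lop, mem_lop, ← not_lt, ← not_lt]
  exact not_congr (h i j).1.symm

private theorem up_eq (h : SameAt C C' s₀) (i : Fin M) : up (C'.b s₀) i = up (C.b s₀) i := by
  ext j
  rw [mem_up, mem_up]
  exact (h i j).2.symm

private theorem upp_eq (h : SameAt C C' s₀) (i : Fin M) : upp (C'.b s₀) i = upp (C.b s₀) i := by
  ext j
  rw [mem_upp, mem_upp, ← not_lt, ← not_lt]
  exact not_congr (h j i).2.symm

/-- common persistent vertical positions -/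
theorem persV (h : Near C μ s₀ s) (h' : Near C' μ s₀ s) (ho : SameAt C C' s₀) (hδμ : δ ≤ μ)
    {L : Finset (Fin M)} (hL : ∃ i, L = lo (C.a s₀) i ∨ L = lop (C.a s₀) i) :
    ∃ x x', ∀ t ∈ uIcc s₀ s, C.FV δ t x ∧ C.L t x = L ∧ C'.FV δ t x' ∧ C'.L t x' = L := by
  obtain ⟨i, rfl | rfl⟩ := hL
  · refine ⟨C.a s₀ i - 3 * μ, C'.a s₀ i - 3 * μ, fun t ht => ?_⟩
    have h1 := h.fvm hδμ ht i
    have h2 := h'.fvm hδμ ht i
    exact ⟨h1.1, h1.2, h2.1, by rw [h2.2, lo_eq ho]⟩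
  · refine ⟨C.a s₀ i + 3 * μ, C'.a s₀ i + 3 * μ, fun t ht => ?_⟩
    have h1 := h.fvp hδμ ht i
    have h2 := h'.fvp hδμ ht i
    exact ⟨h1.1, h1.2, h2.1, by rw [h2.2, lop_eq ho]⟩

/-- common persistent horizontal positions -/
theorem persH (h : Near C μ s₀ s) (h' : Near C' μ s₀ s) (ho : SameAt C C' s₀) (hδ : 0 < δ)
    (hδμ : δ ≤ μ) {U : Finset (Fin M)} (hU : ∃ i, U = up (C.b s₀) i ∨ U = upp (C.b s₀) i) :
    ∃ y y', ∀ t ∈ uIcc s₀ s, C.FH δ t y ∧ C.U t y = U ∧ C'.FH δ t y' ∧ C'.U t y' = U := by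
  obtain ⟨i, rfl | rfl⟩ := hU
  · refine ⟨C.b s₀ i + 3 * μ, C'.b s₀ i + 3 * μ, fun t ht => ?_⟩
    have h1 := h.fhp hδ hδμ ht i
    have h2 := h'.fhp hδ hδμ ht i
    exact ⟨h1.1, h1.2, h2.1, by rw [h2.2, up_eq ho]⟩
  · refine ⟨C.b s₀ i - 3 * μ, C'.b s₀ i - 3 * μ, fun t ht => ?_⟩
    have h1 := h.fhm hδ hδμ ht i
    have h2 := h'.fhm hδ hδμ ht i
    exact ⟨h1.1, h1.2, h2.1, by rw [h2.2, upp_eq ho]⟩

private theorem L_left (hs : C.Side δ s) : C.L s (-R) = ∅ := by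
  rw [Finset.eq_empty_iff_forall_notMem]
  intro j hj
  rw [Conf.mem_L] at hj
  have h1 := (hs.2.2.2 j).1
  have h2 := neg_abs_le (C.z j s).re
  linarith [hs.2.1]

private theorem U_top (hs : C.Side δ s) : C.U s R = ∅ := by
  rw [Finset.eq_empty_iff_forall_notMem]
  intro j hj
  rw [Conf.mem_U] at hj
  have h1 := (hs.2.2.2 j).2
  have h2 := le_abs_self (C.z j s).im
  linarith [hs.2.1]

variable {G : Type} [Group G]

/-- `lam = 1` if there is no point to the left -/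
theorem lam_L_empty (S : LS (C.X δ) G) (hs : C.Side δ s) {x y : ℝ} (hx : C.FV δ s x)
    (hy : C.FH δ s y) (hL : C.L s x = ∅) : S.lam R s x y = 1 := by
  rw [lam_gap S hs hx hs.FV_left hy hy (by rw [hL, L_left hs]) rfl, lam_left S hs hy.1]

/-- `lam = 1` if there is no point above -/
theorem lam_U_empty (S : LS (C.X δ) G) (hs : C.Side δ s) {x y : ℝ} (hx : C.FV δ s x)
    (hy : C.FH δ s y) (hU : C.U s y = ∅) : S.lam R s x y = 1 := by
  rw [lam_gap S hs hx hx hy hs.FH_top rfl (by rw [hU, U_top hs]), lam_top S hs hx.1]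

theorem trt_one (S : LS (C.X δ) G) {z : ℂ} (h : (s, z) ∈ C.X δ) : S.trt z s s = 1 := by
  have h1 := S.trt_comp z s s s (by
    intro t ht
    simp only [insert_eq_of_mem, mem_singleton_iff, convexHull_singleton] at ht
    rw [ht]; exact h)
  simpa using h1

theorem trt_inv (S : LS (C.X δ) G) {z : ℂ} {s₁ s₂ : ℝ} (h : ∀ t ∈ uIcc s₁ s₂, (t, z) ∈ C.X δ) :
    S.trt z s₁ s₂ = (S.trt z s₂ s₁)⁻¹ := by
  have h1 := S.trt_comp z s₁ s₂ s₁ (by
    intro t ht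
    apply h
    refine convexHull_min ?_ (convex_uIcc s₁ s₂) ht
    intro w hw
    rcases hw with rfl | rfl | rfl
    · exact left_mem_uIcc
    · exact right_mem_uIcc
    · exact left_mem_uIcc)
  rw [trt_one S (h s₁ left_mem_uIcc)] at h1
  exact eq_inv_of_mul_eq_one_left h1

theorem corner_mem {t : ℝ} (ht : C.Side δ t) : (t, corner R) ∈ C.X δ := by
  have h := ht.FV_left
  exact ⟨ht.1, h.1, by
    show |R| ≤ R
    rw [abs_of_nonneg ht.2.2.1], fun j => Or.inl (h.2 j)⟩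

/-- one persistent pair of positions: the comparison at `s₀` and at `s` -/
private theorem pers_iff (S : LS (C.X δ) G) (S' : LS (C'.X δ) G) (g : G) {x y x' y' : ℝ}
    (hs : ∀ t ∈ uIcc s₀ s, C.Side δ t) (hs' : ∀ t ∈ uIcc s₀ s, C'.Side δ t)
    (hx : ∀ t ∈ uIcc s₀ s, C.FV δ t x) (hy : ∀ t ∈ uIcc s₀ s, C.FH δ t y)
    (hx' : ∀ t ∈ uIcc s₀ s, C'.FV δ t x') (hy' : ∀ t ∈ uIcc s₀ s, C'.FH δ t y') :
    S'.lam R s₀ x' y' = g * S.lam R s₀ x y * g⁻¹ ↔
      S'.lam R s x' y' = (S'.trt (corner R) s s₀ * g * S.trt (corner R) s₀ s) * S.lam R s x y *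
        (S'.trt (corner R) s s₀ * g * S.trt (corner R) s₀ s)⁻¹ := by
  have h1 := lam_time S hs hx hy
  have h2 := lam_time S' hs' hx' hy'
  have h3 := trt_inv S' (z := corner R) (s₁ := s) (s₂ := s₀) fun t ht =>
    corner_mem (hs' t (by rw [uIcc_comm]; exact ht))
  rw [h3]
  have h4 : S.lam R s₀ x y = S.trt (corner R) s₀ s * S.lam R s x y * (S.trt (corner R) s₀ s)⁻¹ := by
    rw [← h1]; group
  have h5 : S'.lam R s x' y' =
      (S'.trt (corner R) s₀ s)⁻¹ * S'.lam R s₀ x' y' * S'.trt (corner R) s₀ s := by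
    rw [mul_assoc, h2]; group
  rw [h4, h5]
  constructor
  · intro h
    rw [h]
    group
  · intro h
    have h7 : S'.lam R s₀ x' y' = S'.trt (corner R) s₀ s * ((S'.trt (corner R) s₀ s)⁻¹ *
        S'.lam R s₀ x' y' * S'.trt (corner R) s₀ s) * (S'.trt (corner R) s₀ s)⁻¹ := by group
    rw [h7, h]
    group

/-- THE STEP LEMMA. -/
theorem step (hR : 0 ≤ R) (h : Near C μ s₀ s) (h' : Near C' μ s₀ s) (ho : SameAt C C' s₀)
    (hδ : 0 < δ) (hδμ : δ ≤ μ) (S : LS (C.X δ) G) (S' : LS (C'.X δ) G) (g : G) :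
    Inv C C' S S' s₀ g ↔
      Inv C C' S S' s (S'.trt (corner R) s s₀ * g * S.trt (corner R) s₀ s) := by
  have hS : ∀ t ∈ uIcc s₀ s, C.Side δ t := fun t ht => h.side hR hδ hδμ ht
  have hS' : ∀ t ∈ uIcc s₀ s, C'.Side δ t := fun t ht => h'.side hR hδ hδμ ht
  have hs0 : s₀ ∈ uIcc s₀ s := left_mem_uIcc
  have hs1 : s ∈ uIcc s₀ s := right_mem_uIcc
  have h0I : s₀ ∈ Icc (0 : ℝ) 1 := (hS s₀ hs0).1
  constructor
  · intro hI
    set γ := S'.trt (corner R) s s₀ * g * S.trt (corner R) s₀ s with hγ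
    set RL : Finset (Fin M) → Prop := fun L =>
      (∃ x, C.FV δ s x ∧ C.L s x = L) ∧ ∃ x, C'.FV δ s x ∧ C'.L s x = L with hRL
    set RU : Finset (Fin M) → Prop := fun U =>
      (∃ y, C.FH δ s y ∧ C.U s y = U) ∧ ∃ y, C'.FH δ s y ∧ C'.U s y = U with hRU
    set Q : Finset (Fin M) → Finset (Fin M) → Prop := fun L U =>
      ∀ x y x' y', C.FV δ s x → C.L s x = L → C.FH δ s y → C.U s y = U →
        C'.FV δ s x' → C'.L s x' = L → C'.FH δ s y' → C'.U s y' = U →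
        S'.lam R s x' y' = γ * S.lam R s x y * γ⁻¹ with hQ
    have key : ∀ L U, RL L → RU U → Q L U := by
      refine comb (a := C.a s₀) (b := C.b s₀) ?_ RL RU Q ?_ ?_ ?_ ?_ ?_ ?_ ?_ ?_ ?_ ?_
      · intro i j h1 h2
        exact C.inj s₀ h0I i j (Complex.ext h1 h2)
      · rintro L ⟨⟨x, hx, hL⟩, -⟩ i hi j hji
        rw [← hL, Conf.mem_L] at hi ⊢
        have h1 := h.gre j i hji
        have h2 := (abs_le.1 (((h.close s hs1).2 i).1)).1
        have h3 := (abs_le.1 (((h.close s hs1).2 j).1)).2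
        linarith [h.pos]
      · rintro U ⟨⟨y, hy, hU⟩, -⟩ i hi j hij
        rw [← hU, Conf.mem_U] at hi ⊢
        have h1 := h.gim i j hij
        have h2 := (abs_le.1 (((h.close s hs1).2 i).2)).2
        have h3 := (abs_le.1 (((h.close s hs1).2 j).2)).1
        linarith [h.pos]
      · intro i
        obtain ⟨x, x', hxx⟩ := persV h h' ho hδμ ⟨i, Or.inl rfl⟩
        have := hxx s hs1
        exact ⟨⟨x, this.1, this.2.1⟩, ⟨x', this.2.2.1, this.2.2.2⟩⟩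
      · intro i
        obtain ⟨x, x', hxx⟩ := persV h h' ho hδμ ⟨i, Or.inr rfl⟩
        have := hxx s hs1
        exact ⟨⟨x, this.1, this.2.1⟩, ⟨x', this.2.2.1, this.2.2.2⟩⟩
      · intro i
        obtain ⟨x, x', hxx⟩ := persH h h' ho hδ hδμ ⟨i, Or.inl rfl⟩
        have := hxx s hs1
        exact ⟨⟨x, this.1, this.2.1⟩, ⟨x', this.2.2.1, this.2.2.2⟩⟩
      · intro i
        obtain ⟨x, x', hxx⟩ := persH h h' ho hδ hδμ ⟨i, Or.inr rfl⟩
        have := hxx s hs1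
        exact ⟨⟨x, this.1, this.2.1⟩, ⟨x', this.2.2.1, this.2.2.2⟩⟩
      · intro U _ x y x' y' hx hLx hy _ hx' hLx' hy' _
        rw [lam_L_empty S (hS s hs1) hx hy hLx, lam_L_empty S' (hS' s hs1) hx' hy' hLx']
        group
      · intro L _ x y x' y' hx _ hy hUy hx' _ hy' hUy'
        rw [lam_U_empty S (hS s hs1) hx hy hUy, lam_U_empty S' (hS' s hs1) hx' hy' hUy']
        group
      · rintro L₁ L₂ U₁ U₂ ⟨⟨x₁, hx₁, hL₁⟩, x₁', hx₁', hL₁'⟩ - ⟨⟨y₁, hy₁, hU₁⟩, y₁', hy₁', hU₁'⟩ -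
          hcond q1 q2 q3 x y x' y' hx hLx hy hUy hx' hLx' hy' hUy'
        have r1 := lam_rel S (hS s hs1) hx₁ hx hy₁ hy (by rw [hL₁, hLx, hU₁, hUy]; exact hcond)
        have r2 := lam_rel S' (hS' s hs1) hx₁' hx' hy₁' hy'
          (by rw [hL₁', hLx', hU₁', hUy']; exact hcond)
        rw [r1, r2, q1 x y₁ x' y₁' hx hLx hy₁ hU₁ hx' hLx' hy₁' hU₁',
          q2 x₁ y₁ x₁' y₁' hx₁ hL₁ hy₁ hU₁ hx₁' hL₁' hy₁' hU₁',
          q3 x₁ y x₁' y' hx₁ hL₁ hy hUy hx₁' hL₁' hy' hUy']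
        group
      · intro L U hLp hUp x y x' y' hx hLx hy hUy hx' hLx' hy' hUy'
        obtain ⟨px, px', hpx⟩ := persV h h' ho hδμ hLp
        obtain ⟨py, py', hpy⟩ := persH h h' ho hδ hδμ hUp
        have e1 := lam_gap S (hS s hs1) hx (hpx s hs1).1 hy (hpy s hs1).1
          (by rw [hLx, (hpx s hs1).2.1]) (by rw [hUy, (hpy s hs1).2.1])
        have e2 := lam_gap S' (hS' s hs1) hx' (hpx s hs1).2.2.1 hy' (hpy s hs1).2.2.1
          (by rw [hLx', (hpx s hs1).2.2.2]) (by rw [hUy', (hpy s hs1).2.2.2])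
        rw [e1, e2, hγ]
        refine (pers_iff S S' g hS hS' (fun t ht => (hpx t ht).1) (fun t ht => (hpy t ht).1)
          (fun t ht => (hpx t ht).2.2.1) (fun t ht => (hpy t ht).2.2.1)).1 ?_
        exact hI px py px' py' (hpx s₀ hs0).1 (hpy s₀ hs0).1 (hpx s₀ hs0).2.2.1
          (hpy s₀ hs0).2.2.1 (by rw [(hpx s₀ hs0).2.1, (hpx s₀ hs0).2.2.2])
          (by rw [(hpy s₀ hs0).2.1, (hpy s₀ hs0).2.2.2])
    intro x y x' y' hx hy hx' hy' hL hU
    exact key (C.L s x) (C.U s y) ⟨⟨x, hx, rfl⟩, ⟨x', hx', hL.symm⟩⟩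
      ⟨⟨y, hy, rfl⟩, ⟨y', hy', hU.symm⟩⟩ x y x' y' hx rfl hy rfl hx' hL.symm hy' hU.symm
  · intro hI x y x' y' hx hy hx' hy' hL hU
    rcases (C.L s₀ x).eq_empty_or_nonempty with hLe | hLne
    · rw [lam_L_empty S (hS s₀ hs0) hx hy hLe, lam_L_empty S' (hS' s₀ hs0) hx' hy' (hL ▸ hLe)]
      group
    rcases (C.U s₀ y).eq_empty_or_nonempty with hUe | hUne
    · rw [lam_U_empty S (hS s₀ hs0) hx hy hUe, lam_U_empty S' (hS' s₀ hs0) hx' hy' (hU ▸ hUe)]
      group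
    obtain ⟨i, hi, himax⟩ := (C.L s₀ x).exists_max_image (C.a s₀) hLne
    obtain ⟨j, hj, hjmin⟩ := (C.U s₀ y).exists_min_image (C.b s₀) hUne
    have hLi : C.L s₀ x = lop (C.a s₀) i := by
      ext k
      rw [mem_lop]
      constructor
      · intro hk; exact himax k hk
      · intro hk
        rw [Conf.mem_L] at hi ⊢
        exact lt_of_le_of_lt hk hi
    have hUj : C.U s₀ y = upp (C.b s₀) j := by
      ext k
      rw [mem_upp]
      constructor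
      · intro hk; exact hjmin k hk
      · intro hk
        rw [Conf.mem_U] at hj ⊢
        exact lt_of_lt_of_le hj hk
    obtain ⟨px, px', hpx⟩ := persV h h' ho hδμ (L := C.L s₀ x) ⟨i, Or.inr hLi⟩
    obtain ⟨py, py', hpy⟩ := persH h h' ho hδ hδμ (U := C.U s₀ y) ⟨j, Or.inr hUj⟩
    have e1 := lam_gap S (hS s₀ hs0) hx (hpx s₀ hs0).1 hy (hpy s₀ hs0).1
      (by rw [(hpx s₀ hs0).2.1]) (by rw [(hpy s₀ hs0).2.1])
    have e2 := lam_gap S' (hS' s₀ hs0) hx' (hpx s₀ hs0).2.2.1 hy' (hpy s₀ hs0).2.2.1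
      (by rw [← hL, (hpx s₀ hs0).2.2.2]) (by rw [← hU, (hpy s₀ hs0).2.2.2])
    rw [e1, e2]
    refine (pers_iff S S' g hS hS' (fun t ht => (hpx t ht).1) (fun t ht => (hpy t ht).1)
      (fun t ht => (hpx t ht).2.2.1) (fun t ht => (hpy t ht).2.2.1)).2 ?_
    exact hI px py px' py' (hpx s hs1).1 (hpy s hs1).1 (hpx s hs1).2.2.1
      (hpy s hs1).2.2.1 (by rw [(hpx s hs1).2.1, (hpx s hs1).2.2.2])
      (by rw [(hpy s hs1).2.1, (hpy s hs1).2.2.2])

end two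

end Pool.Agent.QC.Grid
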